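import Mathlib

/-!
Roots of divided derivatives over a field with an ultrametric absolute value
(the first half of the proof of Ax's lemma).
-/

set_option linter.unusedSectionVars false

namespace Pool.Agent.W292.FM

open Polynomial

variable {E : Type*} [NormedField E] [IsUltrametricDist E]

/-- Coefficients of a product of linear factors with small roots. -/
theorem norm_coeff_prod_le (s : Multiset E) {r : ℝ} (hr : 0 ≤ r) (hs : ∀ x ∈ s, ‖x‖ ≤ r) (i j : ℕ)
    (hij : i + j = Multiset.card s) :
    ‖((s.map (fun x => (X - C x : E[X]))).prod).coeff i‖ ≤ r ^ j := by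
  induction s using Multiset.induction generalizing i j with
  | empty =>
    simp only [Multiset.card_zero, Nat.add_eq_zero_iff] at hij
    simp [hij.1, hij.2]
  | cons a s ih =>
    rw [Multiset.card_cons] at hij
    rw [Multiset.map_cons, Multiset.prod_cons]
    have hs' : ∀ x ∈ s, ‖x‖ ≤ r := fun x hx => hs x (Multiset.mem_cons_of_mem hx)
    have ha : ‖a‖ ≤ r := hs a (Multiset.mem_cons_self a s)
    set P := (s.map (fun x => (X - C x : E[X]))).prod with hP
    have hdeg : P.natDegree = Multiset.card s := by
      rw [hP]; exact natDegree_multiset_prod_X_sub_C_eq_card s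
    have h2 : ‖a * P.coeff i‖ ≤ r ^ j := by
      rcases Nat.eq_zero_or_pos j with rfl | hj
      · have : P.coeff i = 0 := coeff_eq_zero_of_natDegree_lt (by omega)
        rw [this, mul_zero, norm_zero]; positivity
      · obtain ⟨j, rfl⟩ := Nat.exists_eq_succ_of_ne_zero hj.ne'
        rw [norm_mul, Nat.succ_eq_add_one, pow_succ']
        exact mul_le_mul ha (ih hs' i j (by omega)) (norm_nonneg _) hr
    rcases i with _ | i
    · rw [sub_mul, coeff_sub, coeff_C_mul, coeff_X_mul_zero, zero_sub, norm_neg]
      exact h2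
    · rw [sub_mul, coeff_sub, coeff_C_mul, coeff_X_mul]
      rw [sub_eq_add_neg]
      refine (IsUltrametricDist.norm_add_le_max _ _).trans
        (max_le (ih hs' i j (by omega)) ?_)
      rw [norm_neg]; exact h2

/-- If all roots of the split monic polynomial `P` lie in the disc of radius `r` around `α`, then
the value at `α` of the `q`-th divided derivative is small. -/
theorem norm_eval_hasseDeriv_le (P : E[X]) (hP : P.Splits) (hm : P.Monic) (α : E) {r : ℝ}
    (hr : 0 ≤ r) (h : ∀ x ∈ P.roots, ‖x - α‖ ≤ r) (q j : ℕ) (hq : q + j = P.natDegree) :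
    ‖(hasseDeriv q P).eval α‖ ≤ r ^ j := by
  rw [← taylor_coeff]
  have h1 : taylor α P = ((P.roots.map (fun x => x - α)).map (fun x => (X - C x : E[X]))).prod := by
    conv_lhs => rw [hP.eq_prod_roots_of_monic hm]
    change taylorAlgHom α _ = _
    rw [map_multiset_prod, Multiset.map_map, Multiset.map_map]
    congr 1
    refine Multiset.map_congr rfl fun x _ => ?_
    simp [taylor_X, taylor_C]
    ring
  rw [h1]
  refine norm_coeff_prod_le _ hr ?_ q j ?_
  · intro y hy
    rw [Multiset.mem_map] at hy
    obtain ⟨x, hx, rfl⟩ := hy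
    exact h x hx
  · rw [Multiset.card_map, hq]
    exact (splits_iff_card_roots.1 hP).symm

/-- Existence of a root of the divided derivative near `α`. -/
theorem exists_root_hasseDeriv (P : E[X]) (hP : P.Splits) (hm : P.Monic) (α : E) {r : ℝ}
    (hr : 0 ≤ r) (h : ∀ x ∈ P.roots, ‖x - α‖ ≤ r) (q j : ℕ) (hq : q + j = P.natDegree)
    (hj : j ≠ 0) (hs : (hasseDeriv q P).Splits) {c : ℝ} (hc : 0 < c)
    (hcc : c ^ j ≤ ‖((P.natDegree.choose q : ℕ) : E)‖) :
    ∃ β, (hasseDeriv q P).IsRoot β ∧ ‖β - α‖ ≤ r / c := by
  have hcoeff : (hasseDeriv q P).coeff j = ((P.natDegree.choose q : ℕ) : E) := by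
    rw [hasseDeriv_coeff]
    have : j + q = P.natDegree := by omega
    rw [this, hm.coeff_natDegree, mul_one]
  have hne : ((P.natDegree.choose q : ℕ) : E) ≠ 0 := by
    intro h0
    rw [h0, norm_zero] at hcc
    exact absurd (pow_pos hc j) (not_lt.2 hcc)
  have hdeg : (hasseDeriv q P).natDegree = j := by
    apply le_antisymm
    · have := natDegree_hasseDeriv_le P q
      omega
    · exact le_natDegree_of_ne_zero (by rw [hcoeff]; exact hne)
  have hlead : (hasseDeriv q P).leadingCoeff = ((P.natDegree.choose q : ℕ) : E) := by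
    rw [leadingCoeff, hdeg, hcoeff]
  have hQ0 : hasseDeriv q P ≠ 0 := by
    intro h0; rw [h0, leadingCoeff_zero] at hlead; exact hne hlead.symm
  by_contra hcon
  push Not at hcon
  have h1 := norm_eval_hasseDeriv_le P hP hm α hr h q j hq
  have h2 : (hasseDeriv q P).eval α = (hasseDeriv q P).leadingCoeff *
      ((hasseDeriv q P).roots.map (fun a => α - a)).prod := hs.eval_eq_prod_roots α
  rw [h2, norm_mul, hlead] at h1
  have hcard : Multiset.card (hasseDeriv q P).roots = j := by
    rw [splits_iff_card_roots.1 hs, hdeg]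
  have h3 : ∀ s : Multiset E, s ≠ 0 → (∀ b ∈ s, r / c < ‖b - α‖) →
      (r / c) ^ (Multiset.card s) < ‖(s.map (fun a => α - a)).prod‖ := by
    intro s
    induction s using Multiset.induction with
    | empty => intro h; exact absurd rfl h
    | cons a s ih =>
      intro _ hb
      have ha : r / c < ‖α - a‖ := by
        rw [norm_sub_rev]; exact hb a (Multiset.mem_cons_self a s)
      rw [Multiset.map_cons, Multiset.prod_cons, norm_mul, Multiset.card_cons, pow_succ']
      have hrc : 0 ≤ r / c := div_nonneg hr hc.le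
      rcases eq_or_ne s 0 with rfl | hs0
      · simpa using ha
      · have := ih hs0 (fun b hb' => hb b (Multiset.mem_cons_of_mem hb'))
        exact mul_lt_mul'' ha this hrc (pow_nonneg hrc _)
  have h4 := h3 (hasseDeriv q P).roots (by
      intro h0; rw [h0, Multiset.card_zero] at hcard; exact hj hcard.symm) (by
      intro b hb
      exact hcon b (isRoot_of_mem_roots hb))
  rw [hcard] at h4
  have h5 : r ^ j < ‖((P.natDegree.choose q : ℕ) : E)‖ *
      ‖((hasseDeriv q P).roots.map (fun a => α - a)).prod‖ := by
    calc r ^ j = c ^ j * (r / c) ^ j := by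
          rw [← mul_pow, mul_div_cancel₀ _ hc.ne']
      _ < c ^ j * ‖((hasseDeriv q P).roots.map (fun a => α - a)).prod‖ :=
          mul_lt_mul_of_pos_left h4 (pow_pos hc j)
      _ ≤ _ := mul_le_mul_of_nonneg_right hcc (norm_nonneg _)
  exact absurd h1 (not_le.2 h5)

end Pool.Agent.W292.FM
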