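import Mathlib

/-!
The ring of integers of `ℂ_[p]`: description by the norm, `p` is not a unit, and `p`-adic
completeness.
-/

namespace Pool.Agent.W292.FM

open scoped NNReal
open Valuation MonoidWithZeroHom.ValueGroup₀

variable (p : ℕ) [hp : Fact p.Prime]

theorem norm_eq_v (x : ℂ_[p]) : ‖x‖ = ((Valued.v x : ℝ≥0) : ℝ) := by
  rw [PadicComplex.norm_eq_norm, Valuation.norm_def, PadicComplex.RankOne.hom_eq_embedding,
    embedding_restrict (PadicComplex.valued p).v x]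

theorem mem_int_iff (x : ℂ_[p]) : x ∈ 𝓞_ℂ_[p] ↔ ‖x‖ ≤ 1 := by
  rw [norm_eq_v, PadicComplexInt, Valuation.mem_valuationSubring_iff, ← NNReal.coe_one,
    NNReal.coe_le_coe]

theorem norm_int_le (x : 𝓞_ℂ_[p]) : ‖(x : ℂ_[p])‖ ≤ 1 := (mem_int_iff p _).1 x.2

theorem norm_p : ‖(p : ℂ_[p])‖ = (p : ℝ)⁻¹ := by
  have h := PadicComplex.norm_extends' p (p : ℚ_[p])
  rw [Padic.norm_p] at h
  rw [← h]
  congr 1
  simp

theorem norm_p_pos : 0 < ‖(p : ℂ_[p])‖ := by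
  rw [norm_p]; exact inv_pos.2 (by exact_mod_cast hp.out.pos)

theorem norm_p_lt_one : ‖(p : ℂ_[p])‖ < 1 := by
  rw [norm_p]; exact inv_lt_one_of_one_lt₀ (by exact_mod_cast hp.out.one_lt)

theorem p_ne_zero : (p : ℂ_[p]) ≠ 0 := norm_pos_iff.1 (norm_p_pos p)

theorem not_isUnit_p : ¬ IsUnit (p : 𝓞_ℂ_[p]) := by
  intro h
  obtain ⟨y, hy⟩ := h.exists_right_inv
  have h1 : ((p : 𝓞_ℂ_[p]) : ℂ_[p]) * (y : ℂ_[p]) = 1 := by
    rw [← Subring.coe_mul] 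
    exact congrArg Subtype.val hy
  have h2 := congrArg norm h1
  rw [norm_mul, norm_one] at h2
  have h3 : ‖((p : 𝓞_ℂ_[p]) : ℂ_[p])‖ < 1 := by simpa using norm_p_lt_one p
  have h4 := norm_int_le p y
  nlinarith [norm_nonneg (y : ℂ_[p]), norm_nonneg ((p : 𝓞_ℂ_[p]) : ℂ_[p])]

instance fact_not_isUnit : Fact (¬ IsUnit (p : 𝓞_ℂ_[p])) := ⟨not_isUnit_p p⟩

theorem mem_span_pow_iff (n : ℕ) (x : 𝓞_ℂ_[p]) :
    x ∈ (Ideal.span {(p : 𝓞_ℂ_[p])}) ^ n ↔ ‖(x : ℂ_[p])‖ ≤ ‖(p : ℂ_[p])‖ ^ n := by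
  rw [Ideal.span_singleton_pow, Ideal.mem_span_singleton]
  constructor
  · rintro ⟨y, rfl⟩
    have : (((p : 𝓞_ℂ_[p]) ^ n * y : 𝓞_ℂ_[p]) : ℂ_[p]) = (p : ℂ_[p]) ^ n * (y : ℂ_[p]) := by
      simp
    rw [this, norm_mul, norm_pow]
    exact mul_le_of_le_one_right (pow_nonneg (norm_nonneg _) _) (norm_int_le p y)
  · intro h
    have hpn : (p : ℂ_[p]) ^ n ≠ 0 := pow_ne_zero _ (p_ne_zero p)
    refine ⟨⟨(x : ℂ_[p]) / (p : ℂ_[p]) ^ n, ?_⟩, ?_⟩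
    · rw [mem_int_iff, norm_div, norm_pow, div_le_one (pow_pos (norm_p_pos p) _)]
      exact h
    · apply Subtype.ext
      have : ∀ y : 𝓞_ℂ_[p], (((p : 𝓞_ℂ_[p]) ^ n * y : 𝓞_ℂ_[p]) : ℂ_[p])
          = (p : ℂ_[p]) ^ n * (y : ℂ_[p]) := by intro y; simp
      rw [this]
      exact (mul_div_cancel₀ _ hpn).symm

theorem tendsto_norm_p_pow : Filter.Tendsto (fun n : ℕ => ‖(p : ℂ_[p])‖ ^ n) Filter.atTop
    (nhds 0) :=
  tendsto_pow_atTop_nhds_zero_of_lt_one (norm_nonneg _) (norm_p_lt_one p)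

theorem smodEq_iff (n : ℕ) (x y : 𝓞_ℂ_[p]) :
    x ≡ y [SMOD (Ideal.span {(p : 𝓞_ℂ_[p])} ^ n • ⊤ : Submodule 𝓞_ℂ_[p] 𝓞_ℂ_[p])] ↔
      ‖(x : ℂ_[p]) - (y : ℂ_[p])‖ ≤ ‖(p : ℂ_[p])‖ ^ n := by
  rw [SModEq.sub_mem, smul_eq_mul, Ideal.mul_top, mem_span_pow_iff]
  rfl

instance isHausdorff_int : IsHausdorff (Ideal.span {(p : 𝓞_ℂ_[p])}) 𝓞_ℂ_[p] := by
  constructor
  intro x hx
  apply Subtype.ext
  change (x : ℂ_[p]) = 0
  rw [← norm_le_zero_iff]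
  refine ge_of_tendsto' (tendsto_norm_p_pow p) fun n => ?_
  have := (smodEq_iff p n x 0).1 (hx n)
  simpa using this

instance isPrecomplete_int : IsPrecomplete (Ideal.span {(p : 𝓞_ℂ_[p])}) 𝓞_ℂ_[p] := by
  constructor
  intro f hf
  have h1 : ∀ {m n : ℕ}, m ≤ n → ‖(f m : ℂ_[p]) - (f n : ℂ_[p])‖ ≤ ‖(p : ℂ_[p])‖ ^ m :=
    fun h => (smodEq_iff p _ _ _).1 (hf h)
  have hc : CauchySeq (fun n => (f n : ℂ_[p])) := by
    refine cauchySeq_of_le_tendsto_0 (fun n => ‖(p : ℂ_[p])‖ ^ n) ?_ (tendsto_norm_p_pow p)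
    intro n m N hn hm
    rw [dist_eq_norm]
    have e : (f n : ℂ_[p]) - (f m : ℂ_[p]) = ((f n : ℂ_[p]) - (f N : ℂ_[p])) +
      ((f N : ℂ_[p]) - (f m : ℂ_[p])) := by ring
    rw [e]
    refine (IsUltrametricDist.norm_add_le_max _ _).trans (max_le ?_ (h1 hm))
    rw [norm_sub_rev]; exact h1 hn
  obtain ⟨L, hL⟩ := cauchySeq_tendsto_of_complete hc
  have hL1 : ‖L‖ ≤ 1 := le_of_tendsto' hL.norm fun n => norm_int_le p _
  refine ⟨⟨L, (mem_int_iff p L).2 hL1⟩, fun n => (smodEq_iff p n _ _).2 ?_⟩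
  have h2 : Filter.Tendsto (fun m => ‖(f n : ℂ_[p]) - (f m : ℂ_[p])‖) Filter.atTop
      (nhds ‖(f n : ℂ_[p]) - L‖) := (tendsto_const_nhds.sub hL).norm
  refine le_of_tendsto h2 ?_
  filter_upwards [Filter.eventually_ge_atTop n] with m hm using h1 hm

instance isAdicComplete_int : IsAdicComplete (Ideal.span {(p : 𝓞_ℂ_[p])}) 𝓞_ℂ_[p] where

end Pool.Agent.W292.FM
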