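import Mathlib
import Pool.Agent.W292.FM.Basic

/-!
The action of `Gal(Q_p^alg / Q_p)` on `ℂ_[p]` and on its ring of integers.
-/

namespace Pool.Agent.W292.FM

open scoped NNReal
open UniformSpace

variable (p : ℕ) [hp : Fact p.Prime]

theorem norm_gal (g : Gal(PadicAlgCl p/ℚ_[p])) (x : PadicAlgCl p) : ‖g x‖ = ‖x‖ := by
  rw [← PadicAlgCl.spectralNorm_eq, ← PadicAlgCl.spectralNorm_eq]
  exact (spectralNorm_eq_of_equiv g x).symm

theorem continuous_gal (g : Gal(PadicAlgCl p/ℚ_[p])) : Continuous (g : PadicAlgCl p → PadicAlgCl p) := by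
  have : Isometry (g : PadicAlgCl p → PadicAlgCl p) := by
    refine AddMonoidHomClass.isometry_of_norm g fun x => norm_gal p g x
  exact this.continuous

/-- The continuous extension to `ℂ_[p]` of an element of `Gal(Q_p^alg / Q_p)`. -/
noncomputable def cpMap (g : Gal(PadicAlgCl p/ℚ_[p])) : ℂ_[p] ≃+* ℂ_[p] :=
  Completion.mapRingEquiv (g : PadicAlgCl p ≃+* PadicAlgCl p) (continuous_gal p g)
    (continuous_gal p g⁻¹)

theorem cpMap_coe (g : Gal(PadicAlgCl p/ℚ_[p])) (x : PadicAlgCl p) :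
    cpMap p g (x : ℂ_[p]) = ((g x : PadicAlgCl p) : ℂ_[p]) :=
  Completion.mapRingHom_coe (f := ((g : PadicAlgCl p ≃+* PadicAlgCl p) : PadicAlgCl p →+* PadicAlgCl p))
    (continuous_gal p g) x

theorem continuous_cpMap (g : Gal(PadicAlgCl p/ℚ_[p])) : Continuous (cpMap p g) :=
  Completion.continuous_map

theorem norm_cpMap (g : Gal(PadicAlgCl p/ℚ_[p])) (x : ℂ_[p]) : ‖cpMap p g x‖ = ‖x‖ := by
  refine Completion.induction_on x (isClosed_eq ((continuous_cpMap p g).norm) continuous_norm) ?_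
  intro a
  rw [cpMap_coe, PadicComplex.norm_extends, PadicComplex.norm_extends, norm_gal]

theorem cpMap_mul (g h : Gal(PadicAlgCl p/ℚ_[p])) (x : ℂ_[p]) :
    cpMap p (g * h) x = cpMap p g (cpMap p h x) := by
  refine Completion.induction_on x (isClosed_eq (continuous_cpMap p _)
    ((continuous_cpMap p g).comp (continuous_cpMap p h))) ?_
  intro a
  rw [cpMap_coe, cpMap_coe, cpMap_coe]
  rfl

theorem cpMap_one (x : ℂ_[p]) : cpMap p 1 x = x := by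
  refine Completion.induction_on x (isClosed_eq (continuous_cpMap p _) continuous_id) ?_
  intro a
  rw [cpMap_coe]
  rfl

theorem cpMap_algebraMap (g : Gal(PadicAlgCl p/ℚ_[p])) (c : ℚ_[p]) :
    cpMap p g (algebraMap ℚ_[p] ℂ_[p] c) = algebraMap ℚ_[p] ℂ_[p] c := by
  have h : algebraMap ℚ_[p] ℂ_[p] c = ((algebraMap ℚ_[p] (PadicAlgCl p) c : PadicAlgCl p) : ℂ_[p]) :=
    rfl
  rw [h, cpMap_coe, AlgEquiv.commutes]

theorem cpMap_inv_apply (g : Gal(PadicAlgCl p/ℚ_[p])) (x : ℂ_[p]) :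
    cpMap p g⁻¹ (cpMap p g x) = x := by
  rw [← cpMap_mul, inv_mul_cancel, cpMap_one]

theorem cpMap_apply_inv (g : Gal(PadicAlgCl p/ℚ_[p])) (x : ℂ_[p]) :
    cpMap p g (cpMap p g⁻¹ x) = x := by
  rw [← cpMap_mul, mul_inv_cancel, cpMap_one]

theorem mem_int_iff_cpMap (g : Gal(PadicAlgCl p/ℚ_[p])) (x : ℂ_[p]) :
    x ∈ 𝓞_ℂ_[p] ↔ cpMap p g x ∈ 𝓞_ℂ_[p] := by
  rw [mem_int_iff, mem_int_iff, norm_cpMap]

/-- The action of `Gal(Q_p^alg / Q_p)` on the ring of integers of `ℂ_[p]`. -/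
noncomputable def intMap (g : Gal(PadicAlgCl p/ℚ_[p])) : 𝓞_ℂ_[p] ≃+* 𝓞_ℂ_[p] :=
  (cpMap p g).restrict 𝓞_ℂ_[p] 𝓞_ℂ_[p] (mem_int_iff_cpMap p g)

@[simp] theorem coe_intMap (g : Gal(PadicAlgCl p/ℚ_[p])) (x : 𝓞_ℂ_[p]) :
    ((intMap p g x : 𝓞_ℂ_[p]) : ℂ_[p]) = cpMap p g x := rfl

end Pool.Agent.W292.FM
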