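import Mathlib
import Pool.Agent.W292.FM.AxRoots
import Pool.Agent.W292.FM.Galois

/-!
Ax's lemma: an algebraic number over an intermediate field `K` of `Q_p^alg / Q_p` which is moved
little by all automorphisms over `K` is close to an element of `K`.
-/

set_option linter.unusedSectionVars false

namespace Pool.Agent.W292.FM

open Polynomial

variable (p : ℕ) [hp : Fact p.Prime]

theorem norm_natCast_alg (m : ℕ) : ‖(m : PadicAlgCl p)‖ = ‖(m : ℚ_[p])‖ := by
  have h := PadicAlgCl.norm_extends p (m : ℚ_[p])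
  rw [← h, map_natCast]

theorem norm_natCast_of_not_dvd {m : ℕ} (h : ¬ p ∣ m) : ‖(m : PadicAlgCl p)‖ = 1 := by
  rw [norm_natCast_alg]
  rw [Padic.norm_natCast_eq_one_iff]
  exact (Nat.Prime.coprime_iff_not_dvd hp.out).2 h

theorem norm_natCast_of_factorization {m : ℕ} (hm : m ≠ 0) (h : m.factorization p = 1) :
    ‖(m : PadicAlgCl p)‖ = (p : ℝ)⁻¹ := by
  have h1 := Nat.ordProj_mul_ordCompl_eq_self m p
  rw [h, pow_one] at h1
  have h2 : ¬ p ∣ m / p ^ m.factorization p := Nat.not_dvd_ordCompl hp.out hm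
  rw [h, pow_one] at h2
  rw [← h1, Nat.cast_mul, norm_mul, norm_natCast_of_not_dvd p h2, mul_one, norm_natCast_alg,
    Padic.norm_p]

/-- exponents of the loss in Ax's lemma -/
noncomputable def axExp (m : ℕ) : ℝ := ∑ i ∈ Finset.range m, 1 / ((p : ℝ) ^ i * ((p : ℝ) - 1))

theorem one_lt_p : (1 : ℝ) < p := by exact_mod_cast hp.out.one_lt

theorem axExp_mono {m n : ℕ} (h : m ≤ n) : axExp p m ≤ axExp p n := by
  refine Finset.sum_le_sum_of_subset_of_nonneg (Finset.range_mono h) ?_
  intro i _ _
  have := one_lt_p p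
  have h2 : (0 : ℝ) < (p : ℝ) ^ i := by positivity
  have h3 : (0 : ℝ) < (p : ℝ) - 1 := by linarith
  positivity

theorem axExp_le (m : ℕ) : axExp p m ≤ 2 := by
  have hp2 : (2 : ℝ) ≤ p := by exact_mod_cast hp.out.two_le
  have h : ∀ i ∈ Finset.range m, 1 / ((p : ℝ) ^ i * ((p : ℝ) - 1)) ≤ (1 / 2 : ℝ) ^ i := by
    intro i _
    rw [one_div_pow]
    apply one_div_le_one_div_of_le (by positivity)
    have h1 : (2 : ℝ) ^ i ≤ (p : ℝ) ^ i := pow_le_pow_left₀ (by norm_num) hp2 i
    have h2 : (1 : ℝ) ≤ (p : ℝ) - 1 := by linarith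
    nlinarith [pow_pos (show (0 : ℝ) < 2 by norm_num) i]
  refine (Finset.sum_le_sum h).trans ?_
  have := Summable.sum_le_tsum (Finset.range m) (fun i _ => by positivity)
    (summable_geometric_two)
  rw [tsum_geometric_two] at this
  exact this

theorem ax_aux (K : IntermediateField ℚ_[p] (PadicAlgCl p)) (n : ℕ) :
    ∀ (α : PadicAlgCl p) (r : ℝ), 0 ≤ r → (minpoly K α).natDegree = n →
      (∀ σ : Gal(PadicAlgCl p/K), ‖σ α - α‖ ≤ r) →
      ∃ a : K, ‖α - (a : PadicAlgCl p)‖ ≤ (p : ℝ) ^ (axExp p (Nat.log p n)) * r := by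
  have hp1 : (1 : ℝ) < p := one_lt_p p
  have hp0 : (0 : ℝ) < p := by linarith
  induction n using Nat.strong_induction_on with
  | _ n ih =>
  intro α r hr hn hσ
  have hint : IsIntegral K α := Algebra.IsIntegral.isIntegral α
  have hn0 : 0 < n := by rw [← hn]; exact minpoly.natDegree_pos hint
  rcases Nat.eq_or_lt_of_le (Nat.succ_le_of_lt hn0) with h1 | h1
  · -- degree one
    have h1' : (minpoly K α).natDegree = 1 := by rw [hn]; exact h1.symm
    obtain ⟨a, ha⟩ := minpoly.natDegree_eq_one_iff.1 h1'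
    refine ⟨a, ?_⟩
    have : (a : PadicAlgCl p) = α := ha
    rw [this, sub_self, norm_zero]
    positivity
  · set P := minpoly K α with hP
    set P' := P.map (algebraMap K (PadicAlgCl p)) with hP'
    have hPm : P.Monic := minpoly.monic hint
    have hP'm : P'.Monic := hPm.map _
    have hsplit : ∀ Q : (PadicAlgCl p)[X], Q.Splits := fun Q => IsAlgClosed.splits Q
    have hdeg : P'.natDegree = n := by rw [hP', natDegree_map, hn]
    have hroots : ∀ x ∈ P'.roots, ‖x - α‖ ≤ r := by
      intro x hx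
      have hx1 : aeval x P = 0 := by
        have := isRoot_of_mem_roots hx
        rw [IsRoot, hP', eval_map_algebraMap] at this
        exact this
      have hc : IsConjRoot K α x := by
        rw [IsConjRoot]
        exact minpoly.eq_of_irreducible_of_monic (minpoly.irreducible hint) hx1 hPm
      obtain ⟨σ, hσx⟩ := (isConjRoot_iff_exists_algEquiv (K := K) (L := PadicAlgCl p)).1 hc.symm
      rw [← hσx]
      exact hσ σ
    -- choice of `q`
    obtain ⟨q, j, c, hqj, hj0, hq0, hc0, hcc, hloss⟩ : ∃ (q j : ℕ) (c : ℝ), q + j = n ∧ j ≠ 0 ∧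
        q ≠ 0 ∧ 0 < c ∧ c ^ j ≤ ‖((n.choose q : ℕ) : PadicAlgCl p)‖ ∧
        ∀ m, 0 < m → m < n → m ≤ j → (p : ℝ) ^ (axExp p (Nat.log p m)) * (max r (r / c)) ≤
          (p : ℝ) ^ (axExp p (Nat.log p n)) * r := by
      have hfac := Nat.ordProj_mul_ordCompl_eq_self n p
      have hnd : ¬ p ∣ n / p ^ n.factorization p := Nat.not_dvd_ordCompl hp.out (by omega)
      set v := n.factorization p with hv
      set d := n / p ^ v with hd
      have hpv : 0 < p ^ v := pow_pos hp.out.pos v
      have hd0 : d ≠ 0 := by rintro h0; rw [h0] at hfac; omega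
      rcases Nat.lt_or_ge 1 d with hd1 | hd1
      · -- `d > 1`
        obtain ⟨e, he⟩ : ∃ e, d = e + 2 := ⟨d - 2, by omega⟩
        have hne : n = p ^ v + p ^ v * (e + 1) := by rw [← hfac, he]; ring
        refine ⟨p ^ v, p ^ v * (e + 1), 1, hne.symm, (Nat.mul_pos hpv (by omega)).ne', hpv.ne',
          one_pos, ?_, ?_⟩
        · have h3 := Choose.choose_pow_mul_pow_mul_modEq_choose_nat (p := p) (k := v) (a := d)
            (b := 1)
          rw [hfac, mul_one, Nat.choose_one_right] at h3
          have h4 : ¬ p ∣ n.choose (p ^ v) := by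
            intro h5
            exact hnd ((h3.dvd_iff (dvd_refl p)).1 h5)
          rw [norm_natCast_of_not_dvd p h4, one_pow]
        · intro m hm0 hmn _
          rw [div_one, max_self]
          refine mul_le_mul_of_nonneg_right ?_ hr
          exact Real.rpow_le_rpow_of_exponent_le hp1.le
            (axExp_mono p (Nat.log_mono_right hmn.le))
      · -- `n = p ^ v`
        have hd1' : d = 1 := le_antisymm hd1 (Nat.pos_of_ne_zero hd0)
        rw [hd1', mul_one] at hfac
        obtain ⟨k, hk⟩ : ∃ k, v = k + 1 := by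
          rcases v with _ | k
          · rw [pow_zero] at hfac; omega
          · exact ⟨k, rfl⟩
        rw [hk] at hfac
        have hpk : 0 < p ^ k := pow_pos hp.out.pos k
        have hp2 := hp.out.two_le
        obtain ⟨e, he⟩ : ∃ e, p = e + 2 := ⟨p - 2, by omega⟩
        have hne : p ^ k + p ^ k * (e + 1) = n := by rw [← hfac, pow_succ]; nth_rw 4 [he]; ring
        set j := p ^ k * (e + 1) with hj
        have hj0 : j ≠ 0 := (Nat.mul_pos hpk (by omega)).ne'
        have hjR : (j : ℝ) = (p : ℝ) ^ k * ((p : ℝ) - 1) := by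
          have : (p : ℝ) = (e : ℝ) + 2 := by exact_mod_cast he
          rw [hj]; push_cast; nth_rw 3 [this]; ring
        have hjpos : (0 : ℝ) < j := by exact_mod_cast Nat.pos_of_ne_zero hj0
        refine ⟨p ^ k, j, (p : ℝ) ^ (-(1 / (j : ℝ))), hne, hj0, hpk.ne',
          Real.rpow_pos_of_pos hp0 _, ?_, ?_⟩
        · have h3 : (n.choose (p ^ k)).factorization p = 1 := by
            rw [← hfac, Nat.factorization_choose_prime_pow hp.out
              (Nat.pow_le_pow_right hp.out.pos (by omega)) hpk.ne',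
              Nat.factorization_pow_self hp.out]
            omega
          rw [norm_natCast_of_factorization p (Nat.choose_pos (by omega)).ne' h3,
            ← Real.rpow_natCast, ← Real.rpow_mul hp0.le]
          have : -(1 / (j : ℝ)) * (j : ℝ) = -1 := by field_simp
          rw [this, Real.rpow_neg_one]
        · intro m hm0 hmn _
          have h3 : Nat.log p m ≤ k := by
            have : Nat.log p m < k + 1 := Nat.log_lt_of_lt_pow hm0.ne' (by rw [hfac]; exact hmn)
            omega
          have h4 : Nat.log p n = k + 1 := by rw [← hfac, Nat.log_pow hp.out.one_lt]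
          have h5 : axExp p (k + 1) = axExp p k + 1 / (j : ℝ) := by
            rw [axExp, Finset.sum_range_succ, hjR]; rfl
          have h6 : r / (p : ℝ) ^ (-(1 / (j : ℝ))) = (p : ℝ) ^ (1 / (j : ℝ)) * r := by
            rw [Real.rpow_neg hp0.le, div_inv_eq_mul, mul_comm]
          have h7 : (1 : ℝ) ≤ (p : ℝ) ^ (1 / (j : ℝ)) := Real.one_le_rpow hp1.le (by positivity)
          have h8 : max r (r / (p : ℝ) ^ (-(1 / (j : ℝ)))) = (p : ℝ) ^ (1 / (j : ℝ)) * r := by
            rw [h6]; apply max_eq_right; nlinarith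
          rw [h8, ← mul_assoc, ← Real.rpow_add hp0, h4, h5]
          refine mul_le_mul_of_nonneg_right ?_ hr
          apply Real.rpow_le_rpow_of_exponent_le hp1.le
          have := axExp_mono p h3
          linarith
    obtain ⟨β, hβ, hβα⟩ := exists_root_hasseDeriv P' (hsplit P') hP'm α hr hroots q j
      (by rw [hdeg, hqj]) hj0 (hsplit _) hc0 (by rw [hdeg]; exact hcc)
    -- the polynomial over K
    have hmap : hasseDeriv q P' = (hasseDeriv q P).map (algebraMap K (PadicAlgCl p)) := by
      ext i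
      rw [coeff_map, hasseDeriv_coeff, hasseDeriv_coeff, hP', coeff_map, map_mul, map_natCast]
    have hQ0 : hasseDeriv q P ≠ 0 := by
      intro h0
      have h2 : (hasseDeriv q P).coeff j = 0 := by rw [h0, coeff_zero]
      rw [hasseDeriv_coeff] at h2
      have : j + q = P.natDegree := by rw [hn]; omega
      rw [this, hPm.coeff_natDegree, mul_one, hn, Nat.cast_eq_zero] at h2
      exact (Nat.choose_pos (by omega)).ne' h2
    have hβ1 : aeval β (hasseDeriv q P) = 0 := by
      rw [hmap] at hβ
      rw [IsRoot, eval_map_algebraMap] at hβ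
      exact hβ
    have hintβ : IsIntegral K β := Algebra.IsIntegral.isIntegral β
    have hdegβ : (minpoly K β).natDegree ≤ j := by
      have h2 := natDegree_le_natDegree (minpoly.degree_le_of_ne_zero K β hQ0 hβ1)
      have h3 := natDegree_hasseDeriv_le P q
      have h4 : P.natDegree = n := hn
      omega
    have hmn : (minpoly K β).natDegree < n := by omega
    have hconj : ∀ σ : Gal(PadicAlgCl p/K), ‖σ β - β‖ ≤ max r (r / c) := by
      intro σ
      have e : σ β - β = σ (β - α) + ((σ α - α) + (α - β)) := by rw [map_sub]; ring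
      rw [e]
      have h5 : ‖σ (β - α)‖ = ‖β - α‖ := norm_gal p (σ.restrictScalars ℚ_[p]) (β - α)
      refine (IsUltrametricDist.norm_add_le_max _ _).trans (max_le ?_ ?_)
      · rw [h5]; exact hβα.trans (le_max_right _ _)
      · refine (IsUltrametricDist.norm_add_le_max _ _).trans (max_le ?_ ?_)
        · exact (hσ σ).trans (le_max_left _ _)
        · rw [norm_sub_rev]; exact hβα.trans (le_max_right _ _)
    obtain ⟨a, ha⟩ := ih _ hmn β (max r (r / c)) (hr.trans (le_max_left _ _)) rfl hconj
    refine ⟨a, ?_⟩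
    have e : α - (a : PadicAlgCl p) = (α - β) + (β - a) := by ring
    rw [e]
    have hl := hloss _ (minpoly.natDegree_pos hintβ) hmn hdegβ
    refine (IsUltrametricDist.norm_add_le_max _ _).trans (max_le ?_ (ha.trans hl))
    rw [norm_sub_rev]
    refine (hβα.trans (le_max_right r _)).trans (le_trans (b := (p : ℝ) ^ (axExp p
      (Nat.log p (minpoly K β).natDegree)) * max r (r / c)) ?_ hl)
    have h6 : (1 : ℝ) ≤ (p : ℝ) ^ (axExp p (Nat.log p (minpoly K β).natDegree)) := by
      apply Real.one_le_rpow hp1.le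
      exact Finset.sum_nonneg (fun i _ => by
        have : (0 : ℝ) < (p : ℝ) - 1 := by linarith
        positivity)
    have h7 : 0 ≤ max r (r / c) := hr.trans (le_max_left _ _)
    nlinarith

/-- **Ax's lemma**, with the crude constant `p ^ 2`. -/
theorem ax (K : IntermediateField ℚ_[p] (PadicAlgCl p)) (α : PadicAlgCl p) (r : ℝ) (hr : 0 ≤ r)
    (h : ∀ σ : Gal(PadicAlgCl p/ℚ_[p]), (∀ x ∈ K, σ x = x) → ‖σ α - α‖ ≤ r) :
    ∃ a ∈ K, ‖α - a‖ ≤ (p : ℝ) ^ 2 * r := by
  obtain ⟨a, ha⟩ := ax_aux p K _ α r hr rfl (fun σ => h (σ.restrictScalars ℚ_[p]) (fun x hx =>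
    σ.commutes ⟨x, hx⟩))
  refine ⟨a, a.2, ha.trans ?_⟩
  refine mul_le_mul_of_nonneg_right ?_ hr
  rw [← Real.rpow_natCast]
  apply Real.rpow_le_rpow_of_exponent_le (one_lt_p p).le
  exact_mod_cast axExp_le p _

end Pool.Agent.W292.FM
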