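import Mathlib
import Pool.Agent.W292.FM.Period

/-!
The `ℚ_[p]`-algebra structure on Fontaine's period rings.
-/

set_option linter.unusedSectionVars false

namespace Pool.Agent.W292.FM

open Ideal WittVector

universe u

variable (R : Type u) [CommRing R] (p : ℕ) [hp : Fact p.Prime] [Fact (¬ IsUnit (p : R))]

/-- The canonical map `ℤ_p = W(𝔽_p) → W(R♭)`. -/
noncomputable def zpMap : ℤ_[p] →+* WittVector p (PreTilt R p) :=
  (WittVector.map (ZMod.castHom (dvd_refl p) (PreTilt R p))).comp
    ((WittVector.equiv p).symm : ℤ_[p] →+* WittVector p (ZMod p))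

variable {R} in
theorem map_zpMap (e : R ≃+* R) (x : ℤ_[p]) :
    WittVector.map (tiltMap p e) (zpMap R p x) = zpMap R p x := by
  have h : (tiltMap p e).comp (ZMod.castHom (dvd_refl p) (PreTilt R p)) =
      ZMod.castHom (dvd_refl p) (PreTilt R p) := Subsingleton.elim _ _
  ext n
  rw [WittVector.map_coeff]
  simp only [zpMap, RingHom.comp_apply, WittVector.map_coeff]
  exact congrArg (fun f : ZMod p →+* PreTilt R p => f _) h

theorem isUnit_zpMap {x : ℤ_[p]} (hx : x ≠ 0) :
    IsUnit (algebraMap _ (Localization.Away (p : WittVector p (PreTilt R p))) (zpMap R p x)) := by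
  rw [PadicInt.unitCoeff_spec hx, map_mul, map_pow, map_natCast, map_mul, map_pow]
  refine IsUnit.mul ?_ ?_
  · exact ((PadicInt.unitCoeff hx).isUnit.map (zpMap R p)).map _
  · exact (IsLocalization.Away.algebraMap_isUnit _).pow _

/-- The canonical map `ℚ_p → W(R♭)[1/p]`. -/
noncomputable def qpMap : ℚ_[p] →+* Localization.Away (p : WittVector p (PreTilt R p)) :=
  IsLocalization.lift (M := nonZeroDivisors ℤ_[p]) (S := ℚ_[p])
    (g := (algebraMap _ (Localization.Away (p : WittVector p (PreTilt R p)))).comp (zpMap R p))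
    (fun y => isUnit_zpMap R p (nonZeroDivisors.ne_zero y.2))

theorem qpMap_coe (x : ℤ_[p]) : qpMap R p (algebraMap ℤ_[p] ℚ_[p] x) =
    algebraMap _ (Localization.Away (p : WittVector p (PreTilt R p))) (zpMap R p x) :=
  IsLocalization.lift_eq _ x

variable [IsAdicComplete (span {(p : R)}) R]

variable {R} in
theorem locMap_qpMap (e : R ≃+* R) (c : ℚ_[p]) : locMap p e (qpMap R p c) = qpMap R p c := by
  have key : (locMap p e).comp (qpMap R p) = qpMap R p := by
    refine IsLocalization.ringHom_ext (nonZeroDivisors ℤ_[p]) ?_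
    ext x
    simp only [RingHom.comp_apply]
    rw [qpMap_coe, locMap_algebraMap, map_zpMap]
  exact congrArg (fun f : ℚ_[p] →+* _ => f c) key

noncomputable instance instAlgebraQpPlus : Algebra ℚ_[p] (BDeRhamPlus R p) :=
  ((toPlus p).comp (qpMap R p)).toAlgebra

theorem algebraMap_plus (c : ℚ_[p]) :
    algebraMap ℚ_[p] (BDeRhamPlus R p) c = toPlus p (qpMap R p c) := rfl

theorem algebraMap_bdr (c : ℚ_[p]) :
    algebraMap ℚ_[p] (Localization (genSub R p)) c =
      algebraMap (BDeRhamPlus R p) (Localization (genSub R p)) (toPlus p (qpMap R p c)) := rfl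

variable {R}

/-- `bdrMap` as a homomorphism of `ℚ_[p]`-algebras. -/
noncomputable def bdrAlg (e : R ≃+* R) :
    Localization (genSub R p) →ₐ[ℚ_[p]] Localization (genSub R p) :=
  { bdrMap p e with
    commutes' := fun c => by
      change bdrMap p e (algebraMap ℚ_[p] (Localization (genSub R p)) c) = _
      rw [algebraMap_bdr, bdrMap_algebraMap, plusMap_toPlus, locMap_qpMap] }

theorem bdrAlg_apply (e : R ≃+* R) (x : Localization (genSub R p)) :
    bdrAlg p e x = bdrMap p e x := rfl

end Pool.Agent.W292.FM
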