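import Mathlib
import Pool.Agent.W292.FM.Scalars
import Pool.Agent.W292.FM.Galois
import Pool.Agent.W292.FM.Cyclo

/-!
The tilt of the ring of integers of `ℂ_[p]` and the kernel of Fontaine's map `θ`.
-/

set_option linter.unusedSectionVars false

namespace Pool.Agent.W292.FM

open Ideal WittVector

variable (p : ℕ) [hp : Fact p.Prime]

/-- The tilt of the ring of integers of `ℂ_[p]`. -/
abbrev TT := PreTilt 𝓞_ℂ_[p] p

/-- The ring `A_inf`. -/
abbrev AI := WittVector p (TT p)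

instance isDomain_TT : IsDomain (TT p) :=
  PreTilt.isDomain ℂ_[p] (PadicComplex.valued p).v 𝓞_ℂ_[p] (PadicComplexInt.integers p) p

instance isDomain_AI : IsDomain (AI p) := inferInstance

variable {p}

/-- The element of the tilt given by a compatible sequence of `p`-power roots. -/
noncomputable def mkT (a : ℕ → 𝓞_ℂ_[p]) (ha : ∀ n, a (n + 1) ^ p = a n) : TT p :=
  ⟨fun n => Ideal.Quotient.mk _ (a n), fun n => by rw [← map_pow, ha]⟩

@[simp] theorem coeff_mkT (a : ℕ → 𝓞_ℂ_[p]) (ha : ∀ n, a (n + 1) ^ p = a n) (n : ℕ) :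
    PreTilt.coeff n (mkT a ha) = Ideal.Quotient.mk _ (a n) := rfl

theorem pow_ppow_eq {a : ℕ → 𝓞_ℂ_[p]} (ha : ∀ n, a (n + 1) ^ p = a n) (n : ℕ) :
    a n ^ p ^ n = a 0 := by
  induction n with
  | zero => simp
  | succ n ih => rw [pow_succ', pow_mul, ha, ih]

theorem untilt_mkT (a : ℕ → 𝓞_ℂ_[p]) (ha : ∀ n, a (n + 1) ^ p = a n) :
    (mkT a ha).untilt = a 0 := by
  refine Perfection.teichmuller_spec fun n => ⟨a n, rfl, ?_⟩
  rw [pow_ppow_eq ha]

/-- The compatible sequence of roots attached to an element of the tilt. -/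
noncomputable def seqT (x : TT p) (n : ℕ) : 𝓞_ℂ_[p] :=
  (((_root_.frobeniusEquiv (TT p) p).symm)^[n] x).untilt

theorem seqT_zero (x : TT p) : seqT x 0 = x.untilt := rfl

theorem seqT_succ_pow (x : TT p) (n : ℕ) : seqT x (n + 1) ^ p = seqT x n := by
  unfold seqT
  rw [← map_pow, Function.iterate_succ_apply']
  congr 1
  exact RingEquiv.apply_symm_apply (_root_.frobeniusEquiv (TT p) p)
    (((_root_.frobeniusEquiv (TT p) p).symm)^[n] x)

theorem mk_seqT (x : TT p) (n : ℕ) :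
    Ideal.Quotient.mk _ (seqT x n) = PreTilt.coeff n x := by
  unfold seqT
  rw [PreTilt.mk_untilt_eq_coeff_zero, PreTilt.coeff_iterate_frobeniusEquiv_symm, zero_add]

theorem exists_root (y : 𝓞_ℂ_[p]) : ∃ w : 𝓞_ℂ_[p], w ^ p = y := by
  obtain ⟨w, hw⟩ := IsAlgClosed.exists_pow_nat_eq (y : ℂ_[p]) hp.out.pos
  have : ‖w‖ ≤ 1 := by
    by_contra h
    push Not at h
    have h2 := one_lt_pow₀ h hp.out.ne_zero
    rw [← norm_pow, hw] at h2
    exact absurd (norm_int_le p y) (not_le.2 h2)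
  exact ⟨⟨w, (mem_int_iff p w).2 this⟩, Subtype.ext (by simpa using hw)⟩

theorem exists_pseq : ∃ a : ℕ → 𝓞_ℂ_[p], a 0 = (p : 𝓞_ℂ_[p]) ∧ ∀ n, a (n + 1) ^ p = a n := by
  choose f hf using exists_root (p := p)
  exact ⟨fun n => Nat.rec (p : 𝓞_ℂ_[p]) (fun _ y => f y) n, rfl, fun n => hf _⟩

variable (p) in
/-- A compatible sequence of `p`-power roots of `p`. -/
noncomputable def pseq : ℕ → 𝓞_ℂ_[p] := (exists_pseq (p := p)).choose

theorem pseq_zero : pseq p 0 = (p : 𝓞_ℂ_[p]) := (exists_pseq (p := p)).choose_spec.1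

theorem pseq_succ (n : ℕ) : pseq p (n + 1) ^ p = pseq p n := (exists_pseq (p := p)).choose_spec.2 n

variable (p) in
/-- The element `p^♭` of the tilt. -/
noncomputable def pflat : TT p := mkT (pseq p) pseq_succ

theorem untilt_pflat : (pflat p).untilt = (p : 𝓞_ℂ_[p]) := by
  rw [pflat, untilt_mkT, pseq_zero]

theorem norm_pseq_pow (n : ℕ) : ‖(pseq p n : ℂ_[p])‖ ^ p ^ n = ‖(p : ℂ_[p])‖ := by
  have h := pow_ppow_eq (a := pseq p) pseq_succ n
  rw [pseq_zero] at h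
  have h2 := congrArg (fun x : 𝓞_ℂ_[p] => ‖(x : ℂ_[p])‖) h
  simpa using h2

theorem norm_pseq_pos (n : ℕ) : 0 < ‖(pseq p n : ℂ_[p])‖ := by
  have h := norm_pseq_pow (p := p) n
  rcases (norm_nonneg (pseq p n : ℂ_[p])).lt_or_eq with h1 | h1
  · exact h1
  · exfalso
    rw [← h1, zero_pow (pow_ne_zero _ hp.out.ne_zero)] at h
    exact (norm_p_pos p).ne h

theorem mk_eq_zero_iff (x : 𝓞_ℂ_[p]) :
    (Ideal.Quotient.mk (span {(p : 𝓞_ℂ_[p])}) x) = 0 ↔ ‖(x : ℂ_[p])‖ ≤ ‖(p : ℂ_[p])‖ := by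
  rw [Ideal.Quotient.eq_zero_iff_mem]
  have := mem_span_pow_iff p 1 x
  rwa [pow_one, pow_one] at this

theorem pflat_dvd {x : TT p} (hx : PreTilt.coeff 0 x = 0) : pflat p ∣ x := by
  have h0 : ‖(seqT x 0 : ℂ_[p])‖ ≤ ‖(p : ℂ_[p])‖ := by
    rw [← mk_eq_zero_iff, mk_seqT, hx]
  have hn : ∀ n, ‖(seqT x n : ℂ_[p])‖ ≤ ‖(pseq p n : ℂ_[p])‖ := by
    intro n
    have h1 := pow_ppow_eq (a := seqT x) (seqT_succ_pow x) n
    have h2 : ‖(seqT x n : ℂ_[p])‖ ^ p ^ n = ‖(seqT x 0 : ℂ_[p])‖ := by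
      rw [← h1]; simp
    have h3 : ‖(seqT x n : ℂ_[p])‖ ^ p ^ n ≤ ‖(pseq p n : ℂ_[p])‖ ^ p ^ n := by
      rw [h2, norm_pseq_pow]; exact h0
    exact le_of_pow_le_pow_left₀ (pow_ne_zero _ hp.out.ne_zero) (norm_nonneg _) h3
  let b : ℕ → 𝓞_ℂ_[p] := fun n => ⟨(seqT x n : ℂ_[p]) / (pseq p n : ℂ_[p]), by
    rw [mem_int_iff, norm_div, div_le_one (norm_pseq_pos n)]; exact hn n⟩
  have hb : ∀ n, b (n + 1) ^ p = b n := by
    intro n
    apply Subtype.ext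
    have h1 : ((seqT x (n + 1) : 𝓞_ℂ_[p]) : ℂ_[p]) ^ p = (seqT x n : ℂ_[p]) := by
      rw [← seqT_succ_pow x n]; simp
    have h2 : ((pseq p (n + 1) : 𝓞_ℂ_[p]) : ℂ_[p]) ^ p = (pseq p n : ℂ_[p]) := by
      rw [← pseq_succ n]; simp
    simp only [b, SubmonoidClass.mk_pow, div_pow, h1, h2]
  have hbp : ∀ n, pseq p n * b n = seqT x n := by
    intro n
    apply Subtype.ext
    have : ((pseq p n * b n : 𝓞_ℂ_[p]) : ℂ_[p]) = (pseq p n : ℂ_[p]) * (b n : ℂ_[p]) := by simp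
    rw [this]
    exact mul_div_cancel₀ _ (norm_pos_iff.1 (norm_pseq_pos n))
  refine ⟨mkT b hb, ?_⟩
  refine Perfection.ext fun n => ?_
  change PreTilt.coeff n x = PreTilt.coeff n (pflat p * mkT b hb)
  rw [map_mul, pflat, coeff_mkT, coeff_mkT, ← map_mul, hbp, mk_seqT]

end Pool.Agent.W292.FM
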