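import Mathlib
import Pool.Agent.W292.FM.Tilt

/-!
The kernel of Fontaine's map `θ : A_inf → O` is principal.
-/

set_option linter.unusedSectionVars false

namespace Pool.Agent.W292.FM

open Ideal WittVector

variable {p : ℕ} [hp : Fact p.Prime]

variable (p) in
/-- The generator `[p^♭] - p` of the kernel of `θ`. -/
noncomputable def xi : AI p := teichmuller p (pflat p) - (p : AI p)

variable (p) in
/-- Fontaine's map `θ : A_inf → O`. -/
noncomputable abbrev th : AI p →+* 𝓞_ℂ_[p] := fontaineTheta 𝓞_ℂ_[p] p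

theorem th_xi : th p (xi p) = 0 := by
  rw [xi, map_sub, fontaineTheta_teichmuller, untilt_pflat, map_natCast, sub_self]

theorem p_ne_zero_int : (p : 𝓞_ℂ_[p]) ≠ 0 := by
  intro h
  have := congrArg (fun x : 𝓞_ℂ_[p] => (x : ℂ_[p])) h
  simp at this
  exact hp.out.ne_zero this

theorem pflat_ne_zero : pflat p ≠ 0 := by
  intro h
  have h1 := untilt_pflat (p := p)
  rw [h] at h1
  have h2 : (0 : TT p).untilt = (0 : 𝓞_ℂ_[p]) := Perfection.teichmuller_zero
  rw [h2] at h1
  exact p_ne_zero_int h1.symm

theorem constantCoeff_p : (constantCoeff : AI p →+* TT p) (p : AI p) = 0 := by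
  rw [map_natCast]
  exact CharP.cast_eq_zero _ _

theorem constantCoeff_xi : (constantCoeff : AI p →+* TT p) (xi p) = pflat p := by
  rw [xi, map_sub, constantCoeff_p, sub_zero]
  exact teichmuller_coeff_zero p _

theorem xi_ne_zero : xi p ≠ 0 := by
  intro h
  have := constantCoeff_xi (p := p)
  rw [h, map_zero] at this
  exact pflat_ne_zero this.symm

theorem p_ne_zero_AI : (p : AI p) ≠ 0 := by
  intro h
  have h1 := congrArg (th p) h
  rw [map_natCast, map_zero] at h1
  exact p_ne_zero_int h1

theorem ker_step {x : AI p} (hx : th p x = 0) : ∃ y z : AI p, th p z = 0 ∧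
    x = xi p * y + (p : AI p) * z := by
  have h1 : PreTilt.coeff 0 (x.coeff 0) = 0 := by
    rw [← mk_fontaineTheta]
    change Ideal.Quotient.mk _ (th p x) = 0
    rw [hx, map_zero]
  obtain ⟨y0, hy0⟩ := pflat_dvd h1
  have h2 : x - teichmuller p (x.coeff 0) ∈ Ideal.span {(p : AI p)} := by
    rw [mem_span_p_iff_coeff_zero_eq_zero]
    have h : (x - teichmuller p (x.coeff 0)).coeff 0 =
        x.coeff 0 - (teichmuller p (x.coeff 0)).coeff 0 :=
      map_sub (constantCoeff : AI p →+* TT p) _ _
    rw [h, teichmuller_coeff_zero, sub_self]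
  rw [Ideal.mem_span_singleton] at h2
  obtain ⟨z', hz'⟩ := h2
  have h3 : x = xi p * teichmuller p y0 + (p : AI p) * (teichmuller p y0 + z') := by
    have : x = teichmuller p (x.coeff 0) + (p : AI p) * z' := by rw [← hz']; ring
    rw [this, hy0, map_mul, xi]
    ring
  refine ⟨teichmuller p y0, teichmuller p y0 + z', ?_, h3⟩
  have h4 := congrArg (th p) h3
  rw [hx, map_add, map_mul, map_mul, th_xi, zero_mul, zero_add, map_natCast] at h4
  exact (mul_eq_zero.1 h4.symm).resolve_left p_ne_zero_int

/-- The kernel of `θ` is generated by `ξ`. -/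
theorem xi_dvd {x : AI p} (hx : th p x = 0) : xi p ∣ x := by
  let f : AI p →ₗ[AI p] (RingHom.ker (th p)) :=
    LinearMap.codRestrict (RingHom.ker (th p)) (LinearMap.mulLeft (AI p) (xi p)) (by
      intro y
      rw [RingHom.mem_ker]
      change th p (xi p * y) = 0
      rw [map_mul, th_xi, zero_mul])
  have hH : IsHausdorff (Ideal.span {(p : AI p)}) (RingHom.ker (th p)) := by
    constructor
    intro y hy
    apply Subtype.ext
    have hA : IsHausdorff (Ideal.span {(p : AI p)}) (AI p) := inferInstance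
    refine hA.haus _ fun n => ?_
    have h1 := hy n
    rw [SModEq.sub_mem, sub_zero] at h1 ⊢
    have h2 : Submodule.map (RingHom.ker (th p)).subtype
        (Ideal.span {(p : AI p)} ^ n • (⊤ : Submodule (AI p) (RingHom.ker (th p)))) ≤
        (Ideal.span {(p : AI p)} ^ n • (⊤ : Submodule (AI p) (AI p))) := by
      rw [Submodule.map_smul'']
      exact smul_mono_right _ le_top
    exact h2 (Submodule.mem_map_of_mem h1)
  have hsurj : Function.Surjective f := by
    refine surjective_of_mkQ_comp_surjective (I := Ideal.span {(p : AI p)}) ?_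
    intro y
    obtain ⟨y, rfl⟩ := Submodule.mkQ_surjective _ y
    obtain ⟨a, z, hz, hyz⟩ := ker_step (x := (y : AI p)) y.2
    refine ⟨a, ?_⟩
    rw [LinearMap.comp_apply, ← sub_eq_zero, ← map_sub, ← LinearMap.mem_ker, Submodule.ker_mkQ]
    have h5 : f a - y = (p : AI p) • (-(⟨z, hz⟩ : RingHom.ker (th p))) := by
      apply Subtype.ext
      change xi p * a - (y : AI p) = (p : AI p) * (-z)
      rw [hyz]; ring
    rw [h5]
    exact Submodule.smul_mem_smul (Ideal.mem_span_singleton_self _) trivial
  obtain ⟨y, hy⟩ := hsurj ⟨x, hx⟩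
  exact ⟨y, (congrArg Subtype.val hy).symm⟩

end Pool.Agent.W292.FM
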