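import Mathlib
import Pool.Agent.W292.FM.Cyclo

/-!
The normalised trace in the cyclotomic tower over `ℚ_[p]`.
-/

set_option linter.unusedSectionVars false

namespace Pool.Agent.W292.FM

open Polynomial IntermediateField

variable {p : ℕ} [hp : Fact p.Prime]

theorem isIntegral_root {z : PadicAlgCl p} {n : ℕ} (_hz : IsPrimitiveRoot z (p ^ (n + 1))) :
    IsIntegral ℚ_[p] z := Algebra.IsIntegral.isIntegral z

theorem aeval_eq_sum_taylor (f : ℚ_[p][X]) (z : PadicAlgCl p) {e : ℕ} (hf : f.natDegree < e) :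
    aeval z f = ∑ j ∈ Finset.range e,
      algebraMap ℚ_[p] (PadicAlgCl p) ((taylor 1 f).coeff j) * (z - 1) ^ j := by
  have h1 : aeval z f = aeval (z - 1) (taylor 1 f) := by
    rw [taylor_apply, aeval_comp]
    simp
  rw [h1, aeval_eq_sum_range' (n := e) (by rw [natDegree_taylor]; exact hf)]
  refine Finset.sum_congr rfl fun j _ => ?_
  rw [Algebra.smul_def]

theorem aeval_ne_zero {z : PadicAlgCl p} {n : ℕ} (hz : IsPrimitiveRoot z (p ^ (n + 1)))
    {f : ℚ_[p][X]} (hf0 : f ≠ 0) (hf : f.natDegree < Nat.totient (p ^ (n + 1))) :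
    aeval z f ≠ 0 := by
  intro h0
  rw [aeval_eq_sum_taylor f z hf] at h0
  have ht : taylor 1 f ≠ 0 := by rwa [Ne, taylor_eq_zero]
  have hk : (taylor 1 f).coeff (taylor 1 f).natDegree ≠ 0 := by
    rw [coeff_natDegree]; exact leadingCoeff_ne_zero.2 ht
  have hk2 : (taylor 1 f).natDegree < Nat.totient (p ^ (n + 1)) := by
    rw [natDegree_taylor]; exact hf
  have h1 := norm_term_le hz (fun j => (taylor 1 f).coeff j) hk2
  rw [h0, norm_zero] at h1
  have h2 := norm_le_zero_iff.1 h1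
  rw [mul_eq_zero, map_eq_zero] at h2
  rcases h2 with h2 | h2
  · exact hk h2
  · have h3 := norm_sub_one_pow_totient hz
    have h4 : z - 1 = 0 := by
      by_contra h5
      exact (pow_ne_zero _ h5) h2
    rw [h4, norm_zero, zero_pow (Nat.totient_pos.2 (pow_pos hp.out.pos _)).ne'] at h3
    exact inv_ne_zero (by exact_mod_cast hp.out.ne_zero) h3.symm

theorem irreducible_cyclotomic {z : PadicAlgCl p} {n : ℕ} (hz : IsPrimitiveRoot z (p ^ (n + 1))) :
    Irreducible (cyclotomic (p ^ (n + 1)) ℚ_[p]) := by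
  have hpos : 0 < p ^ (n + 1) := pow_pos hp.out.pos _
  have hint := isIntegral_root hz
  have hroot : aeval z (cyclotomic (p ^ (n + 1)) ℚ_[p]) = 0 := by
    rw [aeval_def, ← eval_map, map_cyclotomic]
    exact hz.isRoot_cyclotomic hpos
  have hdvd : minpoly ℚ_[p] z ∣ cyclotomic (p ^ (n + 1)) ℚ_[p] := minpoly.dvd _ _ hroot
  have hdeg : Nat.totient (p ^ (n + 1)) ≤ (minpoly ℚ_[p] z).natDegree := by
    by_contra hlt
    push Not at hlt
    exact aeval_ne_zero hz (minpoly.ne_zero hint) hlt (minpoly.aeval _ _)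
  have heq : cyclotomic (p ^ (n + 1)) ℚ_[p] = minpoly ℚ_[p] z :=
    Polynomial.eq_of_monic_of_dvd_of_natDegree_le (minpoly.monic hint) (cyclotomic.monic _ _) hdvd
      (by rw [natDegree_cyclotomic]; exact hdeg)
  rw [heq]
  exact minpoly.irreducible hint

theorem exists_expansion {z : PadicAlgCl p} {n : ℕ} (hz : IsPrimitiveRoot z (p ^ (n + 1)))
    {v : PadicAlgCl p} (hv : v ∈ ℚ_[p]⟮z⟯) :
    ∃ a : ℕ → ℚ_[p], v = ∑ j ∈ Finset.range (Nat.totient (p ^ (n + 1))),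
      algebraMap ℚ_[p] (PadicAlgCl p) (a j) * (z - 1) ^ j := by
  have hint := isIntegral_root hz
  have hv2 : v ∈ Algebra.adjoin ℚ_[p] {z} := by
    have := adjoin_simple_toSubalgebra_of_isAlgebraic (F := ℚ_[p]) (α := z) hint.isAlgebraic
    rw [← this]; exact hv
  rw [Algebra.adjoin_singleton_eq_range_aeval] at hv2
  obtain ⟨f, hf⟩ := hv2
  have hmon := cyclotomic.monic (p ^ (n + 1)) ℚ_[p]
  have hroot : aeval z (cyclotomic (p ^ (n + 1)) ℚ_[p]) = 0 := by
    rw [aeval_def, ← eval_map, map_cyclotomic]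
    exact hz.isRoot_cyclotomic (pow_pos hp.out.pos _)
  have h1 : aeval z (f %ₘ cyclotomic (p ^ (n + 1)) ℚ_[p]) = v := by
    rw [← hf]
    conv_rhs => rw [← modByMonic_add_div f (cyclotomic (p ^ (n + 1)) ℚ_[p])]
    simp [hroot]
  have h2 : (f %ₘ cyclotomic (p ^ (n + 1)) ℚ_[p]).natDegree < Nat.totient (p ^ (n + 1)) := by
    have := natDegree_modByMonic_lt f hmon (by
      intro h; have := congrArg natDegree h
      rw [natDegree_cyclotomic, natDegree_one] at this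
      exact (Nat.totient_pos.2 (pow_pos hp.out.pos _)).ne' this)
    rwa [natDegree_cyclotomic] at this
  exact ⟨_, by rw [← h1, aeval_eq_sum_taylor _ z h2]⟩

theorem norm_natCast_p_pow (m : ℕ) : ‖((p ^ m : ℕ) : PadicAlgCl p)‖ = (p : ℝ)⁻¹ ^ m := by
  rw [Nat.cast_pow, norm_pow, norm_natCast_alg, Padic.norm_p]

/-- The sum of the `i`-th powers of all `p ^ m`-th roots of unity is divisible by `p ^ m`. -/
theorem norm_sum_roots_le {z : PadicAlgCl p} {m : ℕ} (hz : IsPrimitiveRoot z (p ^ m)) (i : ℕ) :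
    ‖∑ μ ∈ nthRootsFinset (p ^ m) (1 : PadicAlgCl p), μ ^ i‖ ≤ (p : ℝ)⁻¹ ^ m := by
  have hpos : 0 < p ^ m := pow_pos hp.out.pos _
  have : NeZero (p ^ m) := ⟨hpos.ne'⟩
  have h1 : ∑ μ ∈ nthRootsFinset (p ^ m) (1 : PadicAlgCl p), μ ^ i =
      ∑ k ∈ Finset.range (p ^ m), (z ^ i) ^ k := by
    symm
    refine Finset.sum_bij (fun k _ => z ^ k) ?_ ?_ ?_ ?_
    · intro k _
      rw [mem_nthRootsFinset hpos, ← pow_mul, mul_comm, pow_mul, hz.pow_eq_one, one_pow]
    · intro a ha b hb hab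
      exact hz.pow_inj (Finset.mem_range.1 ha) (Finset.mem_range.1 hb) hab
    · intro μ hμ
      rw [mem_nthRootsFinset hpos] at hμ
      obtain ⟨k, hk, hk2⟩ := hz.eq_pow_of_pow_eq_one hμ
      exact ⟨k, Finset.mem_range.2 hk, hk2⟩
    · intro k _
      rw [← pow_mul, ← pow_mul, mul_comm]
  rw [h1]
  by_cases h : z ^ i = 1
  · simp only [h, one_pow, Finset.sum_const, Finset.card_range, nsmul_eq_mul, mul_one]
    rw [norm_natCast_p_pow]
  · have h2 : (∑ k ∈ Finset.range (p ^ m), (z ^ i) ^ k) * (z ^ i - 1) = 0 := by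
      rw [geom_sum_mul, ← pow_mul, mul_comm, pow_mul, hz.pow_eq_one, one_pow, sub_self]
    have h3 := (mul_eq_zero.1 h2).resolve_right (sub_ne_zero.2 h)
    rw [h3, norm_zero]
    positivity

theorem norm_sum_primitiveRoots_le {z : PadicAlgCl p} {n : ℕ}
    (hz : IsPrimitiveRoot z (p ^ (n + 1))) (i : ℕ) :
    ‖∑ μ ∈ primitiveRoots (p ^ (n + 1)) (PadicAlgCl p), μ ^ i‖ ≤ (p : ℝ)⁻¹ ^ n := by
  classical
  have hpos : ∀ m, 0 < p ^ m := fun m => pow_pos hp.out.pos _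
  have hsub : nthRootsFinset (p ^ n) (1 : PadicAlgCl p) ⊆
      nthRootsFinset (p ^ (n + 1)) (1 : PadicAlgCl p) := by
    intro μ hμ
    rw [mem_nthRootsFinset (hpos _)] at hμ ⊢
    rw [pow_succ, pow_mul, hμ, one_pow]
  have h1 : primitiveRoots (p ^ (n + 1)) (PadicAlgCl p) =
      nthRootsFinset (p ^ (n + 1)) (1 : PadicAlgCl p) \
        nthRootsFinset (p ^ n) (1 : PadicAlgCl p) := by
    ext μ
    rw [Finset.mem_sdiff, mem_primitiveRoots (hpos _), mem_nthRootsFinset (hpos _),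
      mem_nthRootsFinset (hpos _)]
    constructor
    · intro h
      refine ⟨h.pow_eq_one, fun h2 => ?_⟩
      have := h.dvd_of_pow_eq_one _ h2
      have := Nat.le_of_dvd (hpos _) this
      exact absurd this (not_le.2 (Nat.pow_lt_pow_right hp.out.one_lt (Nat.lt_succ_self n)))
    · rintro ⟨h2, h3⟩
      have h4 := orderOf_dvd_of_pow_eq_one h2
      rw [Nat.dvd_prime_pow hp.out] at h4
      obtain ⟨k, hk, hk2⟩ := h4
      have h5 := IsPrimitiveRoot.orderOf μ
      rcases Nat.lt_or_ge k (n + 1) with hlt | hge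
      · exfalso
        apply h3
        have : p ^ n = orderOf μ * p ^ (n - k) := by
          rw [hk2, ← pow_add]; congr 1; omega
        rw [this, pow_mul, pow_orderOf_eq_one, one_pow]
      · have : k = n + 1 := by omega
        rw [hk2, this] at h5
        exact h5
  rw [h1, Finset.sum_sdiff_eq_sub hsub, sub_eq_add_neg]
  have hzn : IsPrimitiveRoot (z ^ p) (p ^ n) := by
    refine hz.pow (hpos _) ?_
    rw [pow_succ, mul_comm]
  refine (IsUltrametricDist.norm_add_le_max _ _).trans (max_le ?_ ?_)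
  · refine (norm_sum_roots_le hz i).trans ?_
    have hpR : (1 : ℝ) < p := one_lt_p p
    rw [pow_succ]
    exact mul_le_of_le_one_right (by positivity) (inv_le_one_of_one_le₀ hpR.le)
  · rw [norm_neg]
    exact norm_sum_roots_le hzn i

theorem norm_trace_pow_le {z : PadicAlgCl p} {n : ℕ}
    (hz : IsPrimitiveRoot z (p ^ (n + 1))) (i : ℕ) :
    ‖Algebra.trace ℚ_[p] ℚ_[p]⟮z⟯ ((AdjoinSimple.gen ℚ_[p] z) ^ i)‖ ≤ (p : ℝ)⁻¹ ^ n := by
  have hne : NeZero (p ^ (n + 1)) := ⟨(pow_pos hp.out.pos _).ne'⟩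
  have : IsCyclotomicExtension {p ^ (n + 1)} ℚ_[p] ℚ_[p]⟮z⟯ :=
    hz.intermediateField_adjoin_isCyclotomicExtension ℚ_[p]
  have hgen : IsPrimitiveRoot (AdjoinSimple.gen ℚ_[p] z) (p ^ (n + 1)) := by
    refine IsPrimitiveRoot.of_map_of_injective (f := algebraMap ℚ_[p]⟮z⟯ (PadicAlgCl p)) ?_
      (FaithfulSMul.algebraMap_injective _ _)
    rw [AdjoinSimple.algebraMap_gen]
    exact hz
  have hirr := irreducible_cyclotomic hz
  have : FiniteDimensional ℚ_[p] ℚ_[p]⟮z⟯ := adjoin.finiteDimensional (isIntegral_root hz)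
  have h1 := trace_eq_sum_embeddings (K := ℚ_[p]) (L := ℚ_[p]⟮z⟯) (PadicAlgCl p)
    (x := (AdjoinSimple.gen ℚ_[p] z) ^ i)
  have h2 : ∑ σ : ℚ_[p]⟮z⟯ →ₐ[ℚ_[p]] PadicAlgCl p, σ ((AdjoinSimple.gen ℚ_[p] z) ^ i) =
      ∑ μ ∈ primitiveRoots (p ^ (n + 1)) (PadicAlgCl p), μ ^ i := by
    rw [← Finset.sum_coe_sort (primitiveRoots (p ^ (n + 1)) (PadicAlgCl p)) (fun μ => μ ^ i)]
    refine Fintype.sum_equiv (hgen.embeddingsEquivPrimitiveRoots (PadicAlgCl p) hirr) _ _ ?_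
    intro σ
    rw [map_pow, IsPrimitiveRoot.embeddingsEquivPrimitiveRoots_apply_coe]
  have h3 := PadicAlgCl.norm_extends p
    (Algebra.trace ℚ_[p] ℚ_[p]⟮z⟯ ((AdjoinSimple.gen ℚ_[p] z) ^ i))
  rw [← h3]
  change ‖algebraMap ℚ_[p] (PadicAlgCl p) _‖ ≤ _
  rw [h1, h2]
  exact norm_sum_primitiveRoots_le hz i

end Pool.Agent.W292.FM
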