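import Mathlib
import Pool.Agent.W292.FM.Trace

/-!
The key estimate in the cyclotomic tower: a nonzero constant is not approximately a coboundary.
-/

set_option linter.unusedSectionVars false

namespace Pool.Agent.W292.FM

open Polynomial IntermediateField

variable {p : ℕ} [hp : Fact p.Prime]

theorem norm_trace_sub_pow_le {z : PadicAlgCl p} {n : ℕ}
    (hz : IsPrimitiveRoot z (p ^ (n + 1))) (j : ℕ) :
    ‖Algebra.trace ℚ_[p] ℚ_[p]⟮z⟯ ((AdjoinSimple.gen ℚ_[p] z - 1) ^ j)‖ ≤ (p : ℝ)⁻¹ ^ n := by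
  rw [sub_eq_add_neg, add_pow, map_sum]
  have hnn : (0 : ℝ) ≤ (p : ℝ)⁻¹ ^ n := by positivity
  refine IsUltrametricDist.norm_sum_le_of_forall_le_of_nonneg hnn ?_
  intro i _
  have h : (AdjoinSimple.gen ℚ_[p] z) ^ i * (-1) ^ (j - i) * ((j.choose i : ℕ) : ℚ_[p]⟮z⟯) =
      (((-1) ^ (j - i) * (j.choose i : ℕ) : ℤ) : ℚ_[p]) • (AdjoinSimple.gen ℚ_[p] z) ^ i := by
    rw [Algebra.smul_def, map_intCast]
    push_cast
    ring
  rw [h, map_smul, smul_eq_mul, norm_mul]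
  exact (mul_le_of_le_one_left (norm_nonneg _) (Padic.norm_int_le_one _)).trans
    (norm_trace_pow_le hz i)

theorem norm_const_le {z : PadicAlgCl p} {n : ℕ} (hz : IsPrimitiveRoot z (p ^ (n + 1)))
    (γ : Gal(PadicAlgCl p/ℚ_[p])) {w : PadicAlgCl p} (hw : w ∈ ℚ_[p]⟮z⟯) (c : ℚ_[p]) :
    ‖c‖ ≤ p * ‖γ w - w - algebraMap ℚ_[p] (PadicAlgCl p) c‖ := by
  have hne : NeZero (p ^ (n + 1)) := ⟨(pow_pos hp.out.pos _).ne'⟩
  have : IsCyclotomicExtension {p ^ (n + 1)} ℚ_[p] ℚ_[p]⟮z⟯ :=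
    hz.intermediateField_adjoin_isCyclotomicExtension ℚ_[p]
  have hgal : IsGalois ℚ_[p] ℚ_[p]⟮z⟯ := IsCyclotomicExtension.isGalois {p ^ (n + 1)} _ _
  have hnorm : Normal ℚ_[p] ℚ_[p]⟮z⟯ := hgal.to_normal
  have hirr := irreducible_cyclotomic hz
  have hfd : FiniteDimensional ℚ_[p] ℚ_[p]⟮z⟯ := adjoin.finiteDimensional (isIntegral_root hz)
  have hpR : (1 : ℝ) < p := one_lt_p p
  have hp0 : (0 : ℝ) < p := by linarith
  set e := Nat.totient (p ^ (n + 1)) with he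
  have hepos : 0 < e := Nat.totient_pos.2 (pow_pos hp.out.pos _)
  -- the element `v`
  let w' : ℚ_[p]⟮z⟯ := ⟨w, hw⟩
  let γ' := γ.restrictNormal ℚ_[p]⟮z⟯
  let v' : ℚ_[p]⟮z⟯ := γ' w' - w' - algebraMap ℚ_[p] _ c
  have hv' : algebraMap ℚ_[p]⟮z⟯ (PadicAlgCl p) v' =
      γ w - w - algebraMap ℚ_[p] (PadicAlgCl p) c := by
    simp only [v', map_sub]
    rw [AlgEquiv.restrictNormal_commutes]
    rfl
  have htr : Algebra.trace ℚ_[p] ℚ_[p]⟮z⟯ v' = -((e : ℚ_[p]) * c) := by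
    simp only [v', map_sub]
    rw [Algebra.trace_eq_of_algEquiv γ' w', Algebra.trace_algebraMap, sub_self, zero_sub,
      IsCyclotomicExtension.finrank (n := p ^ (n + 1)) _ hirr, nsmul_eq_mul]
  obtain ⟨a, ha⟩ := exists_expansion hz (v := γ w - w - algebraMap ℚ_[p] (PadicAlgCl p) c)
    (by rw [← hv']; exact v'.2)
  set V := γ w - w - algebraMap ℚ_[p] (PadicAlgCl p) c with hV
  have hπ := norm_sub_one_pow_totient hz
  rw [← he] at hπ
  have hπ1 : ‖z - 1‖ ≤ 1 := by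
    by_contra hcon
    push Not at hcon
    have := one_lt_pow₀ hcon hepos.ne'
    rw [hπ] at this
    exact absurd this (not_lt.2 (inv_le_one_of_one_le₀ hpR.le))
  have hcoef : ∀ j < e, ‖a j‖ ≤ p * ‖V‖ := by
    intro j hj
    have h1 := norm_term_le hz a hj
    rw [← ha, norm_mul, norm_pow] at h1
    have h2 : ‖algebraMap ℚ_[p] (PadicAlgCl p) (a j)‖ = ‖a j‖ := PadicAlgCl.norm_extends p _
    rw [h2] at h1
    have h3 : (p : ℝ)⁻¹ ≤ ‖z - 1‖ ^ j := by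
      rw [← hπ]
      exact pow_le_pow_of_le_one (norm_nonneg _) hπ1 hj.le
    have h4 : ‖a j‖ * (p : ℝ)⁻¹ ≤ ‖V‖ :=
      (mul_le_mul_of_nonneg_left h3 (norm_nonneg _)).trans h1
    calc ‖a j‖ = p * (‖a j‖ * (p : ℝ)⁻¹) := by field_simp
      _ ≤ p * ‖V‖ := mul_le_mul_of_nonneg_left h4 hp0.le
  have hv2 : v' = ∑ j ∈ Finset.range e, a j • (AdjoinSimple.gen ℚ_[p] z - 1) ^ j := by
    apply FaithfulSMul.algebraMap_injective ℚ_[p]⟮z⟯ (PadicAlgCl p)
    rw [hv', ha, map_sum]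
    refine Finset.sum_congr rfl fun j _ => ?_
    rw [Algebra.smul_def, map_mul, map_pow, map_sub, map_one, AdjoinSimple.algebraMap_gen,
      ← IsScalarTower.algebraMap_apply]
  have hbound : ‖Algebra.trace ℚ_[p] ℚ_[p]⟮z⟯ v'‖ ≤ p * ‖V‖ * (p : ℝ)⁻¹ ^ n := by
    rw [hv2, map_sum]
    refine IsUltrametricDist.norm_sum_le_of_forall_le_of_nonneg (by positivity) ?_
    intro j hj
    rw [map_smul, smul_eq_mul, norm_mul]
    exact mul_le_mul (hcoef j (Finset.mem_range.1 hj)) (norm_trace_sub_pow_le hz j)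
      (norm_nonneg _) (by positivity)
  rw [htr, norm_neg, norm_mul] at hbound
  have he2 : ‖(e : ℚ_[p])‖ = (p : ℝ)⁻¹ ^ n := by
    rw [he, Nat.totient_prime_pow_succ hp.out, Nat.cast_mul, norm_mul, Nat.cast_pow, norm_pow,
      Padic.norm_p]
    have h5 : ‖((p - 1 : ℕ) : ℚ_[p])‖ = 1 := by
      rw [Padic.norm_natCast_eq_one_iff]
      have h6 := hp.out.two_le
      refine (Nat.Prime.coprime_iff_not_dvd hp.out).2 fun h => ?_
      have := Nat.le_of_dvd (by omega) h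
      omega
    rw [h5, mul_one]
  rw [he2] at hbound
  have hpn : (0 : ℝ) < (p : ℝ)⁻¹ ^ n := by positivity
  have : ‖c‖ * (p : ℝ)⁻¹ ^ n ≤ p * ‖V‖ * (p : ℝ)⁻¹ ^ n := by linarith
  exact le_of_mul_le_mul_right this hpn

end Pool.Agent.W292.FM
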