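import Mathlib
import Pool.Agent.W292.FM.Key

/-!
The cyclotomic character of `Gal(Q_p^alg / Q_p)` and the field generated by all roots of unity of
`p`-power order.
-/

set_option linter.unusedSectionVars false

namespace Pool.Agent.W292.FM

open Polynomial IntermediateField

variable {p : ℕ} [hp : Fact p.Prime]

/-- The `p`-adic cyclotomic character of `Gal(Q_p^alg / Q_p)`. -/
noncomputable def chiL (g : Gal(PadicAlgCl p/ℚ_[p])) : ℤ_[p]ˣ :=
  cyclotomicCharacter (PadicAlgCl p) p (g : PadicAlgCl p ≃+* PadicAlgCl p)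

theorem chiL_mul (g h : Gal(PadicAlgCl p/ℚ_[p])) : chiL (g * h) = chiL g * chiL h :=
  map_mul (cyclotomicCharacter (PadicAlgCl p) p) (g : PadicAlgCl p ≃+* PadicAlgCl p)
    (h : PadicAlgCl p ≃+* PadicAlgCl p)

theorem exists_primitive (m : ℕ) : ∃ z : PadicAlgCl p, IsPrimitiveRoot z (p ^ m) := by
  have : NeZero (p ^ m) := ⟨pow_ne_zero _ hp.out.ne_zero⟩
  exact HasEnoughRootsOfUnity.exists_primitiveRoot (PadicAlgCl p) (p ^ m)

instance (i : ℕ) : HasEnoughRootsOfUnity (PadicAlgCl p) (p ^ i) := by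
  have : NeZero (p ^ i) := ⟨pow_ne_zero _ hp.out.ne_zero⟩
  infer_instance

theorem chiL_spec (g : Gal(PadicAlgCl p/ℚ_[p])) {m : ℕ} {t : PadicAlgCl p} (ht : t ^ p ^ m = 1) :
    g t = t ^ ((chiL g : ℤ_[p]).toZModPow m).val :=
  cyclotomicCharacter.spec p (g : PadicAlgCl p ≃+* PadicAlgCl p) t ht

theorem chiL_toZModPow_of_apply (g : Gal(PadicAlgCl p/ℚ_[p])) {m : ℕ} {z : PadicAlgCl p}
    (hz : IsPrimitiveRoot z (p ^ m)) {a : ℕ} (h : g z = z ^ a) :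
    (chiL g : ℤ_[p]).toZModPow m = (a : ZMod (p ^ m)) := by
  have : NeZero (p ^ m) := ⟨pow_ne_zero _ hp.out.ne_zero⟩
  have h1 := chiL_spec g (m := m) hz.pow_eq_one
  rw [h] at h1
  have h2 : a ≡ ((chiL g : ℤ_[p]).toZModPow m).val [MOD p ^ m] := by
    have hpos : 0 < p ^ m := pow_pos hp.out.pos _
    rw [pow_eq_pow_mod a hz.pow_eq_one,
      pow_eq_pow_mod ((chiL g : ℤ_[p]).toZModPow m).val hz.pow_eq_one] at h1
    exact hz.pow_inj (Nat.mod_lt _ hpos) (Nat.mod_lt _ hpos) h1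
  have h3 := (ZMod.natCast_eq_natCast_iff _ _ _).2 h2
  rw [ZMod.natCast_zmod_val] at h3
  exact h3.symm

theorem chiL_eq_one (g : Gal(PadicAlgCl p/ℚ_[p]))
    (h : ∀ (m : ℕ) (t : PadicAlgCl p), t ^ p ^ m = 1 → g t = t) : chiL g = 1 := by
  apply Units.ext
  rw [Units.val_one]
  refine PadicInt.ext_of_toZModPow.1 fun m => ?_
  obtain ⟨z, hz⟩ := exists_primitive (p := p) m
  rw [chiL_toZModPow_of_apply g hz (a := 1) (by rw [pow_one]; exact h m z hz.pow_eq_one)]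
  simp

/-- There are elements of the Galois group with prescribed cyclotomic character modulo `p ^ m`. -/
theorem exists_chiL (m a : ℕ) (ha : ¬ p ∣ a) : ∃ g : Gal(PadicAlgCl p/ℚ_[p]),
    (chiL g : ℤ_[p]).toZModPow (m + 1) = (a : ZMod (p ^ (m + 1))) := by
  obtain ⟨z, hz⟩ := exists_primitive (p := p) (m + 1)
  have hcop : a.Coprime (p ^ (m + 1)) :=
    Nat.Coprime.pow_right _ ((Nat.Prime.coprime_iff_not_dvd hp.out).2 ha).symm
  have hz2 := hz.pow_of_coprime a hcop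
  have hpos : 0 < p ^ (m + 1) := pow_pos hp.out.pos _
  have hmin : ∀ w : PadicAlgCl p, IsPrimitiveRoot w (p ^ (m + 1)) →
      cyclotomic (p ^ (m + 1)) ℚ_[p] = minpoly ℚ_[p] w := by
    intro w hw
    refine minpoly.eq_of_irreducible_of_monic (irreducible_cyclotomic hw) ?_ (cyclotomic.monic _ _)
    rw [aeval_def, ← eval_map, map_cyclotomic]
    exact hw.isRoot_cyclotomic hpos
  have hc : IsConjRoot ℚ_[p] (z ^ a) z := by
    rw [IsConjRoot, ← hmin _ hz, ← hmin _ hz2]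
  obtain ⟨σ, hσ⟩ := (isConjRoot_iff_exists_algEquiv (K := ℚ_[p]) (L := PadicAlgCl p)).1 hc
  exact ⟨σ, chiL_toZModPow_of_apply σ hz hσ⟩

/-- The field generated by all roots of unity of `p`-power order. -/
noncomputable def Kinf (p : ℕ) [hp : Fact p.Prime] : IntermediateField ℚ_[p] (PadicAlgCl p) :=
  adjoin ℚ_[p] {t | ∃ m : ℕ, t ^ p ^ m = 1}

theorem mem_Kinf {t : PadicAlgCl p} {m : ℕ} (h : t ^ p ^ m = 1) : t ∈ Kinf p :=
  subset_adjoin _ _ ⟨m, h⟩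

theorem exists_level {w : PadicAlgCl p} (hw : w ∈ Kinf p) :
    ∃ (n : ℕ) (z : PadicAlgCl p), IsPrimitiveRoot z (p ^ (n + 1)) ∧ w ∈ ℚ_[p]⟮z⟯ := by
  obtain ⟨T, hT, hwT⟩ := exists_finset_of_mem_adjoin hw
  have hex : ∀ t ∈ T, ∃ m : ℕ, t ^ p ^ m = 1 := fun t ht => hT ht
  obtain ⟨M, hM⟩ : ∃ M : ℕ, ∀ t ∈ T, t ^ p ^ (M + 1) = 1 := by
    choose! m hm using hex
    refine ⟨T.sup m, fun t ht => ?_⟩
    have h1 : m t ≤ T.sup m + 1 := (Finset.le_sup ht).trans (Nat.le_succ _)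
    obtain ⟨k, hk⟩ := Nat.exists_eq_add_of_le h1
    rw [hk, pow_add, pow_mul, hm t ht, one_pow]
  obtain ⟨z, hz⟩ := exists_primitive (p := p) (M + 1)
  refine ⟨M, z, hz, ?_⟩
  have hle : adjoin ℚ_[p] (T : Set (PadicAlgCl p)) ≤ ℚ_[p]⟮z⟯ := by
    rw [adjoin_le_iff]
    intro t ht
    have : NeZero (p ^ (M + 1)) := ⟨pow_ne_zero _ hp.out.ne_zero⟩
    obtain ⟨k, _, hk⟩ := hz.eq_pow_of_pow_eq_one (hM t ht)
    rw [← hk]
    exact pow_mem (mem_adjoin_simple_self _ _) k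
  exact hle hwT

end Pool.Agent.W292.FM
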