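import Mathlib
import Pool.Agent.W292.FM.Chi

/-!
Tate's vanishing theorem: no nonzero element of `ℂ_[p]` is multiplied by a nonzero power of the
cyclotomic character by an open subgroup of the Galois group.
-/

set_option linter.unusedSectionVars false

namespace Pool.Agent.W292.FM

open Polynomial IntermediateField

section Ultra

variable {p : ℕ} [hp : Fact p.Prime] {E : Type*} [NormedField E] [IsUltrametricDist E]

theorem norm_eq_one_of_sub {u : E} (hu : ‖u - 1‖ < 1) : ‖u‖ = 1 := by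
  have : u = (u - 1) + 1 := by ring
  rw [this, IsUltrametricDist.norm_add_eq_max_of_norm_ne_norm (by rw [norm_one]; exact hu.ne),
    norm_one, max_eq_right hu.le]

theorem norm_pow_sub_one_le' {u : E} (hu : ‖u - 1‖ < 1) (k : ℕ) : ‖u ^ k - 1‖ ≤ ‖u - 1‖ := by
  have h : u ^ k - 1 = (∑ i ∈ Finset.range k, u ^ i) * (u - 1) := (geom_sum_mul u k).symm
  rw [h, norm_mul]
  have h1 : ‖∑ i ∈ Finset.range k, u ^ i‖ ≤ 1 := by
    refine IsUltrametricDist.norm_sum_le_of_forall_le_of_nonneg zero_le_one ?_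
    intro i _
    rw [norm_pow, norm_eq_one_of_sub hu, one_pow]
  exact mul_le_of_le_one_left (norm_nonneg _) h1

theorem pow_p_sub_one (u : E) :
    u ^ p - 1 = ((p : E) + ∑ i ∈ Finset.range p, (u ^ i - 1)) * (u - 1) := by
  have h : u ^ p - 1 = (∑ i ∈ Finset.range p, u ^ i) * (u - 1) := (geom_sum_mul u p).symm
  rw [h]
  congr 1
  rw [Finset.sum_sub_distrib]
  simp

theorem norm_sum_small {u : E} (hu : ‖u - 1‖ < 1) :
    ‖∑ i ∈ Finset.range p, (u ^ i - 1)‖ ≤ ‖u - 1‖ :=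
  IsUltrametricDist.norm_sum_le_of_forall_le_of_nonneg (norm_nonneg _)
    fun i _ => norm_pow_sub_one_le' hu i

theorem norm_pow_p_le (hpE : ‖(p : E)‖ = (p : ℝ)⁻¹) {u : E} (hu : ‖u - 1‖ < 1) {θ : ℝ}
    (h1 : (p : ℝ)⁻¹ ≤ θ) (h2 : ‖u - 1‖ ≤ θ) : ‖u ^ p - 1‖ ≤ θ * ‖u - 1‖ := by
  rw [pow_p_sub_one, norm_mul]
  refine mul_le_mul_of_nonneg_right ?_ (norm_nonneg _)
  refine (IsUltrametricDist.norm_add_le_max _ _).trans (max_le ?_ ?_)
  · rw [hpE]; exact h1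
  · exact (norm_sum_small hu).trans h2

theorem norm_pow_ppow_le (hpE : ‖(p : E)‖ = (p : ℝ)⁻¹) {u : E} (hu : ‖u - 1‖ < 1) {θ : ℝ}
    (h1 : (p : ℝ)⁻¹ ≤ θ) (h2 : ‖u - 1‖ ≤ θ) (N : ℕ) :
    ‖u ^ p ^ N - 1‖ ≤ θ ^ N * ‖u - 1‖ := by
  have hθ0 : 0 ≤ θ := le_trans (by positivity) h1
  induction N with
  | zero => simp
  | succ N ih =>
    have h3 : ‖u ^ p ^ N - 1‖ ≤ ‖u - 1‖ := norm_pow_sub_one_le' hu _
    have h4 := norm_pow_p_le hpE (u := u ^ p ^ N) (lt_of_le_of_lt h3 hu) h1 (h3.trans h2)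
    rw [pow_succ, pow_mul]
    refine h4.trans ?_
    rw [pow_succ']
    calc θ * ‖u ^ p ^ N - 1‖ ≤ θ * (θ ^ N * ‖u - 1‖) := mul_le_mul_of_nonneg_left ih hθ0
      _ = _ := by ring

theorem norm_pow_p_eq (hpE : ‖(p : E)‖ = (p : ℝ)⁻¹) {u : E} (hu : ‖u - 1‖ < (p : ℝ)⁻¹) :
    ‖u ^ p - 1‖ = (p : ℝ)⁻¹ * ‖u - 1‖ := by
  have hp1 : (1 : ℝ) < p := by exact_mod_cast hp.out.one_lt
  have hu1 : ‖u - 1‖ < 1 := hu.trans_le (inv_le_one_of_one_le₀ hp1.le)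
  have h1 : ‖∑ i ∈ Finset.range p, (u ^ i - 1)‖ < ‖(p : E)‖ := by
    rw [hpE]; exact lt_of_le_of_lt (norm_sum_small hu1) hu
  rw [pow_p_sub_one, norm_mul,
    IsUltrametricDist.norm_add_eq_max_of_norm_ne_norm h1.ne', max_eq_left h1.le, hpE]

theorem norm_pow_ppow_eq (hpE : ‖(p : E)‖ = (p : ℝ)⁻¹) {u : E} (hu : ‖u - 1‖ < (p : ℝ)⁻¹)
    (N : ℕ) : ‖u ^ p ^ N - 1‖ = (p : ℝ)⁻¹ ^ N * ‖u - 1‖ := by
  have hp1 : (1 : ℝ) < p := by exact_mod_cast hp.out.one_lt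
  have hu1 : ‖u - 1‖ < 1 := hu.trans_le (inv_le_one_of_one_le₀ hp1.le)
  induction N with
  | zero => simp
  | succ N ih =>
    have h3 : ‖u ^ p ^ N - 1‖ ≤ ‖u - 1‖ := norm_pow_sub_one_le' hu1 _
    rw [pow_succ, pow_mul, norm_pow_p_eq hpE (lt_of_le_of_lt h3 hu), ih, pow_succ]
    ring

end Ultra

variable {p : ℕ} [hp : Fact p.Prime]

/-- The cyclotomic character with values in `ℚ_[p]`. -/
noncomputable def chiQ (g : Gal(PadicAlgCl p/ℚ_[p])) : ℚ_[p] := ((chiL g : ℤ_[p]) : ℚ_[p])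

theorem chiQ_mul (g h : Gal(PadicAlgCl p/ℚ_[p])) : chiQ (g * h) = chiQ g * chiQ h := by
  simp [chiQ, chiL_mul]

theorem chiQ_ne_zero (g : Gal(PadicAlgCl p/ℚ_[p])) : chiQ g ≠ 0 := by
  rw [chiQ, Ne, PadicInt.coe_eq_zero]
  exact (chiL g).ne_zero

theorem norm_chiQ (g : Gal(PadicAlgCl p/ℚ_[p])) : ‖chiQ g‖ = 1 := by
  rw [chiQ, ← PadicInt.norm_def]
  exact PadicInt.norm_units _

/-- There is `γ` such that `χ(γ) ^ k` is close to but different from `1`. -/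
theorem exists_gamma {k : ℕ} (hk : k ≠ 0) : ∃ γ : Gal(PadicAlgCl p/ℚ_[p]),
    ‖chiQ γ ^ k - 1‖ < (p : ℝ)⁻¹ ∧ chiQ γ ^ k ≠ 1 := by
  have hp1 := hp.out.one_lt
  set a : ℕ := 1 + p ^ 2 with ha
  obtain ⟨m, hm, hm1⟩ : ∃ m, a ^ k < p ^ (m + 1) ∧ 1 ≤ m := by
    refine ⟨a ^ k, ?_, Nat.one_le_pow _ _ (by omega)⟩
    exact (Nat.lt_pow_self hp1).trans (Nat.pow_lt_pow_right hp1 (Nat.lt_succ_self _))
  have hpa : ¬ p ∣ a := by
    intro h
    have h2 : p ∣ p ^ 2 := dvd_pow_self p two_ne_zero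
    have := (Nat.dvd_add_left h2).1 h
    exact absurd (Nat.le_of_dvd one_pos this) (not_le.2 hp1)
  obtain ⟨g, hg⟩ := exists_chiL (p := p) m a hpa
  have h1 : (chiL g : ℤ_[p]) - (a : ℤ_[p]) ∈ RingHom.ker (PadicInt.toZModPow (p := p) (m + 1)) := by
    rw [RingHom.mem_ker, map_sub, hg, map_natCast, sub_self]
  rw [PadicInt.ker_toZModPow, ← PadicInt.norm_le_pow_iff_mem_span_pow] at h1
  have hpR : (1 : ℝ) < p := one_lt_p p
  have hp0 : (0 : ℝ) < p := by linarith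
  have h2 : ‖chiQ g - 1‖ < (p : ℝ)⁻¹ := by
    have e : chiQ g - 1 = (((chiL g : ℤ_[p]) - (a : ℤ_[p]) : ℤ_[p]) : ℚ_[p]) + (p : ℚ_[p]) ^ 2 := by
      rw [chiQ, ha]; push_cast; ring
    rw [e]
    refine lt_of_le_of_lt (IsUltrametricDist.norm_add_le_max _ _) (max_lt ?_ ?_)
    · rw [← PadicInt.norm_def]
      refine lt_of_le_of_lt h1 ?_
      rw [← zpow_neg_one]
      exact zpow_lt_zpow_right₀ hpR (by push_cast; omega)
    · rw [norm_pow, Padic.norm_p, pow_two]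
      have h3 : (p : ℝ)⁻¹ < 1 := inv_lt_one_of_one_lt₀ hpR
      have h4 : (0 : ℝ) < (p : ℝ)⁻¹ := inv_pos.2 hp0
      nlinarith
  have h2' : ‖chiQ g - 1‖ < 1 := h2.trans_le (inv_le_one_of_one_le₀ hpR.le)
  refine ⟨g, lt_of_le_of_lt (norm_pow_sub_one_le' h2' k) h2, ?_⟩
  intro h3
  have h4 : (chiL g : ℤ_[p]) ^ k = 1 := by
    apply PadicInt.ext; push_cast; exact h3
  have h5 := congrArg (PadicInt.toZModPow (p := p) (m + 1)) h4
  rw [map_pow, hg, map_one] at h5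
  have h6 : ((a ^ k : ℕ) : ZMod (p ^ (m + 1))) = ((1 : ℕ) : ZMod (p ^ (m + 1))) := by
    push_cast; exact h5
  rw [ZMod.natCast_eq_natCast_iff] at h6
  have h7 : 1 < a ^ k := Nat.one_lt_pow hk (by
    rw [ha]; have := pow_pos hp.out.pos 2; omega)
  have h8 := Nat.ModEq.eq_of_lt_of_lt h6 hm (h7.trans hm)
  omega

/-- The basic case of Tate's vanishing theorem. -/
theorem tate_principal {k : ℕ} (hk : k ≠ 0) {z : ℂ_[p]} (hz : ‖z - 1‖ < 1)
    (h : ∀ g : Gal(PadicAlgCl p/ℚ_[p]), cpMap p g z = algebraMap ℚ_[p] ℂ_[p] (chiQ g ^ k) * z) :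
    False := by
  have hpR : (1 : ℝ) < p := one_lt_p p
  have hp0 : (0 : ℝ) < p := by linarith
  have hpC : ‖(p : ℂ_[p])‖ = (p : ℝ)⁻¹ := norm_p p
  have hpQ : ‖(p : ℚ_[p])‖ = (p : ℝ)⁻¹ := Padic.norm_p
  have hz1 : ‖z‖ = 1 := norm_eq_one_of_sub hz
  have hz0 : z ≠ 0 := by rw [← norm_pos_iff, hz1]; exact one_pos
  obtain ⟨γ, hγ1, hγ2⟩ := exists_gamma (p := p) hk
  set r : ℝ := ‖chiQ γ ^ k - 1‖ with hr
  have hr0 : 0 < r := norm_pos_iff.2 (sub_ne_zero.2 hγ2)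
  -- all `χ(g)^k` are principal units
  have hug : ∀ g : Gal(PadicAlgCl p/ℚ_[p]), ‖chiQ g ^ k - 1‖ ≤ (p : ℝ)⁻¹ := by
    intro g
    have h1 : ‖chiQ g ^ k - 1‖ < 1 := by
      have e : algebraMap ℚ_[p] ℂ_[p] (chiQ g ^ k - 1) * z = cpMap p g (z - 1) - (z - 1) := by
        rw [map_sub, map_sub, h g, map_one, map_one]; ring
      have h2 := congrArg norm e
      rw [norm_mul, hz1, mul_one] at h2
      have h3 : ‖algebraMap ℚ_[p] ℂ_[p] (chiQ g ^ k - 1)‖ = ‖chiQ g ^ k - 1‖ :=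
        PadicComplex.norm_extends' p _
      rw [h3] at h2
      rw [h2, sub_eq_add_neg]
      refine lt_of_le_of_lt (IsUltrametricDist.norm_add_le_max _ _) (max_lt ?_ ?_)
      · rw [norm_cpMap]; exact hz
      · rw [norm_neg]; exact hz
    have h4 := (Padic.norm_le_pow_iff_norm_lt_pow_add_one (chiQ g ^ k - 1) (-1)).2
      (by simpa using h1)
    rwa [zpow_neg_one] at h4
  -- choice of `N`
  set θ : ℝ := max (p : ℝ)⁻¹ ‖z - 1‖ with hθ
  have hθ1 : θ < 1 := max_lt (inv_lt_one_of_one_lt₀ hpR) hz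
  have hθ0 : 0 ≤ θ := le_trans (by positivity) (le_max_left _ _)
  set η : ℝ := r / (p : ℝ) ^ 4 with hη
  have hη0 : 0 < η := by positivity
  obtain ⟨N, hN⟩ := exists_pow_lt_of_lt_one hη0 hθ1
  have hzN : ‖z ^ p ^ N - 1‖ ≤ η := by
    refine (norm_pow_ppow_le hpC hz (le_max_left _ _) (le_max_right _ _) N).trans ?_
    exact (mul_le_of_le_one_right (pow_nonneg hθ0 _) hz.le).trans hN.le
  -- the elements `lam` and `c g`
  have hP0 : ((p : ℂ_[p]) ^ N) ≠ 0 := pow_ne_zero _ (p_ne_zero p)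
  have hP0' : ((p : ℚ_[p]) ^ N) ≠ 0 := pow_ne_zero _ (by exact_mod_cast hp.out.ne_zero)
  set lam : ℂ_[p] := (z ^ p ^ N - 1) / (p : ℂ_[p]) ^ N with hlam
  let c : Gal(PadicAlgCl p/ℚ_[p]) → ℚ_[p] := fun g =>
    ((chiQ g ^ k) ^ p ^ N - 1) / (p : ℚ_[p]) ^ N
  have hc1 : ∀ g, ‖c g‖ ≤ 1 := by
    intro g
    have h1 := norm_pow_ppow_le hpQ (u := chiQ g ^ k) (lt_of_le_of_lt (hug g)
      (inv_lt_one_of_one_lt₀ hpR)) (le_refl (p : ℝ)⁻¹) (hug g) N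
    simp only [c]
    rw [norm_div, norm_pow, hpQ, div_le_one (by positivity)]
    exact h1.trans (mul_le_of_le_one_right (by positivity)
      ((hug g).trans (inv_le_one_of_one_le₀ hpR.le)))
  have hcγ : ‖c γ‖ = r := by
    simp only [c]
    rw [norm_div, norm_pow, hpQ, norm_pow_ppow_eq hpQ hγ1]
    field_simp
    exact hr.symm
  have hkey : ∀ g, cpMap p g lam - lam - algebraMap ℚ_[p] ℂ_[p] (c g) =
      algebraMap ℚ_[p] ℂ_[p] (c g) * (z ^ p ^ N - 1) := by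
    intro g
    have hcg : algebraMap ℚ_[p] ℂ_[p] (c g) =
        ((algebraMap ℚ_[p] ℂ_[p] (chiQ g ^ k)) ^ p ^ N - 1) / (p : ℂ_[p]) ^ N := by
      simp only [c]
      rw [map_div₀, map_sub, map_one, map_pow _ (chiQ g ^ k), map_pow _ (p : ℚ_[p]), map_natCast]
    have hlg : cpMap p g lam =
        ((algebraMap ℚ_[p] ℂ_[p] (chiQ g ^ k) * z) ^ p ^ N - 1) / (p : ℂ_[p]) ^ N := by
      rw [hlam, map_div₀, map_sub, map_one, map_pow, h g, map_pow _ (p : ℂ_[p]), map_natCast]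
    rw [hcg, hlg, hlam, mul_pow]
    field_simp
    ring
  have hkey2 : ∀ g, ‖cpMap p g lam - lam - algebraMap ℚ_[p] ℂ_[p] (c g)‖ ≤ η := by
    intro g
    rw [hkey, norm_mul]
    have h3 : ‖algebraMap ℚ_[p] ℂ_[p] (c g)‖ = ‖c g‖ := PadicComplex.norm_extends' p _
    rw [h3]
    exact (mul_le_of_le_one_left (norm_nonneg _) (hc1 g)).trans hzN
  -- algebraic approximation
  obtain ⟨l0, hl0⟩ : ∃ l0 : PadicAlgCl p, ‖(l0 : ℂ_[p]) - lam‖ ≤ η := by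
    obtain ⟨x, hx⟩ := (UniformSpace.Completion.denseRange_coe
      (α := PadicAlgCl p)).exists_dist_lt lam hη0
    refine ⟨x, ?_⟩
    rw [dist_comm, dist_eq_norm] at hx
    exact hx.le
  have happ : ∀ g : Gal(PadicAlgCl p/ℚ_[p]),
      ‖g l0 - l0 - algebraMap ℚ_[p] (PadicAlgCl p) (c g)‖ ≤ η := by
    intro g
    rw [← PadicComplex.norm_extends]
    have e : ((g l0 - l0 - algebraMap ℚ_[p] (PadicAlgCl p) (c g) : PadicAlgCl p) : ℂ_[p]) =
        (cpMap p g ((l0 : ℂ_[p]) - lam) + -((l0 : ℂ_[p]) - lam)) +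
          (cpMap p g lam - lam - algebraMap ℚ_[p] ℂ_[p] (c g)) := by
      rw [map_sub, cpMap_coe]
      have e2 : algebraMap ℚ_[p] ℂ_[p] (c g) =
        ((algebraMap ℚ_[p] (PadicAlgCl p) (c g) : PadicAlgCl p) : ℂ_[p]) := rfl
      rw [e2, UniformSpace.Completion.coe_sub, UniformSpace.Completion.coe_sub]
      ring
    rw [e]
    refine (IsUltrametricDist.norm_add_le_max _ _).trans (max_le ?_ (hkey2 g))
    refine (IsUltrametricDist.norm_add_le_max _ _).trans (max_le ?_ ?_)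
    · rw [norm_cpMap]; exact hl0
    · rw [norm_neg]; exact hl0
  have hax : ∀ σ : Gal(PadicAlgCl p/ℚ_[p]), (∀ x ∈ Kinf p, σ x = x) → ‖σ l0 - l0‖ ≤ η := by
    intro σ hσ
    have h1 : chiL σ = 1 := chiL_eq_one σ (fun m t ht => hσ t (mem_Kinf ht))
    have h2 : c σ = 0 := by
      simp only [c, chiQ, h1]
      simp
    have h3 := happ σ
    rwa [h2, map_zero, sub_zero] at h3
  obtain ⟨w, hw, hw2⟩ := ax p (Kinf p) l0 η hη0.le hax
  obtain ⟨n, ζ, hζ, hwζ⟩ := exists_level hw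
  have h1 := norm_const_le hζ γ hwζ (c γ)
  have h2 : ‖γ w - w - algebraMap ℚ_[p] (PadicAlgCl p) (c γ)‖ ≤ (p : ℝ) ^ 2 * η := by
    have e : γ w - w - algebraMap ℚ_[p] (PadicAlgCl p) (c γ) =
        ((l0 - w) + -γ (l0 - w)) + (γ l0 - l0 - algebraMap ℚ_[p] (PadicAlgCl p) (c γ)) := by
      rw [map_sub]; ring
    rw [e]
    refine (IsUltrametricDist.norm_add_le_max _ _).trans (max_le ?_ ?_)
    · refine (IsUltrametricDist.norm_add_le_max _ _).trans (max_le hw2 ?_)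
      rw [norm_neg, norm_gal]; exact hw2
    · refine (happ γ).trans ?_
      have : (1 : ℝ) ≤ (p : ℝ) ^ 2 := one_le_pow₀ hpR.le
      nlinarith
  rw [hcγ] at h1
  have h3 : r ≤ p * ((p : ℝ) ^ 2 * η) := h1.trans (mul_le_mul_of_nonneg_left h2 hp0.le)
  have h4 : p * ((p : ℝ) ^ 2 * η) = r / p := by
    rw [hη]; field_simp
  rw [h4, le_div_iff₀ hp0] at h3
  nlinarith

end Pool.Agent.W292.FM
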