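import Mathlib
import Pool.Agent.W292.FM.KerTheta
import Pool.Agent.W292.FM.Tate

/-!
The elements `[ε^a] - 1` of `A_inf` and the action of the Galois group on `ker θ / (ker θ)^2`.
-/

set_option linter.unusedSectionVars false

namespace Pool.Agent.W292.FM

open Ideal WittVector

variable {p : ℕ} [hp : Fact p.Prime]

theorem exists_next (n : ℕ) (z : {z : PadicAlgCl p // IsPrimitiveRoot z (p ^ n)}) :
    ∃ w : {w : PadicAlgCl p // IsPrimitiveRoot w (p ^ (n + 1))}, w.1 ^ p = z.1 := by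
  obtain ⟨v, hv⟩ := exists_primitive (p := p) (n + 1)
  have hpos : 0 < p ^ (n + 1) := pow_pos hp.out.pos _
  have hvp : IsPrimitiveRoot (v ^ p) (p ^ n) := hv.pow hpos (by rw [pow_succ, mul_comm])
  rcases Nat.eq_zero_or_pos n with rfl | hn
  · refine ⟨⟨v, hv⟩, ?_⟩
    have h1 := z.2.pow_eq_one
    have h2 := hvp.pow_eq_one
    simp only [pow_zero, pow_one] at h1 h2
    rw [h1, h2]
  · have : NeZero (p ^ n) := ⟨pow_ne_zero _ hp.out.ne_zero⟩
    obtain ⟨i, _, hi, hi2⟩ := (hvp.isPrimitiveRoot_iff (k := p ^ n)).1 z.2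
    have hi3 : i.Coprime (p ^ (n + 1)) := by
      rw [Nat.coprime_pow_right_iff hn] at hi
      exact Nat.Coprime.pow_right _ hi
    refine ⟨⟨v ^ i, hv.pow_of_coprime i hi3⟩, ?_⟩
    rw [← hi2, ← pow_mul, ← pow_mul, mul_comm]

variable (p) in
/-- A compatible sequence of primitive `p ^ n`-th roots of unity. -/
noncomputable def zetaSeq : (n : ℕ) → {z : PadicAlgCl p // IsPrimitiveRoot z (p ^ n)}
  | 0 => ⟨1, by rw [pow_zero]; exact IsPrimitiveRoot.one⟩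
  | n + 1 => (exists_next n (zetaSeq n)).choose

theorem zetaSeq_succ (n : ℕ) : (zetaSeq p (n + 1)).1 ^ p = (zetaSeq p n).1 := by
  rw [zetaSeq]
  exact (exists_next n (zetaSeq p n)).choose_spec

theorem zetaSeq_pow (n : ℕ) : (zetaSeq p n).1 ^ p ^ n = 1 := (zetaSeq p n).2.pow_eq_one

variable (p) in
/-- The roots of unity as elements of the ring of integers. -/
noncomputable def zO (n : ℕ) : 𝓞_ℂ_[p] := ⟨((zetaSeq p n).1 : ℂ_[p]), by
  rw [mem_int_iff, PadicComplex.norm_extends,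
    norm_rootOfUnity (pow_ne_zero n hp.out.ne_zero) (zetaSeq_pow n)]⟩

theorem coe_zO (n : ℕ) : ((zO p n : 𝓞_ℂ_[p]) : ℂ_[p]) = ((zetaSeq p n).1 : ℂ_[p]) := rfl

theorem coe_alg_pow (x : PadicAlgCl p) (m : ℕ) : ((x ^ m : PadicAlgCl p) : ℂ_[p]) = (x : ℂ_[p]) ^ m :=
  map_pow (algebraMap (PadicAlgCl p) ℂ_[p]) x m

theorem zO_succ (n : ℕ) : (zO p (n + 1)) ^ p = zO p n := by
  apply Subtype.ext
  change ((zetaSeq p (n + 1)).1 : ℂ_[p]) ^ p = ((zetaSeq p n).1 : ℂ_[p])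
  rw [← coe_alg_pow, zetaSeq_succ]

theorem zO_pow (n : ℕ) : (zO p n) ^ p ^ n = 1 := by
  apply Subtype.ext
  change ((zetaSeq p n).1 : ℂ_[p]) ^ p ^ n = 1
  rw [← coe_alg_pow, zetaSeq_pow]
  rfl

theorem zO_zero : zO p 0 = 1 := by
  have := zO_pow (p := p) 0
  simpa using this

/-- Powers of `zO n` only depend on the exponent modulo `p ^ n`. -/
theorem zO_pow_congr {n a b : ℕ} (h : (a : ZMod (p ^ n)) = (b : ZMod (p ^ n))) :
    (zO p n) ^ a = (zO p n) ^ b := by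
  rw [ZMod.natCast_eq_natCast_iff] at h
  rw [pow_eq_pow_mod a (zO_pow n), pow_eq_pow_mod b (zO_pow n), h]

/-- The exponents of `ε ^ a`. -/
noncomputable def ex (a : ℤ_[p]) (n : ℕ) : ℕ := (PadicInt.toZModPow n a).val

theorem ex_cast (a : ℤ_[p]) (n : ℕ) : ((ex a n : ℕ) : ZMod (p ^ n)) = PadicInt.toZModPow n a := by
  have : NeZero (p ^ n) := ⟨pow_ne_zero _ hp.out.ne_zero⟩
  exact ZMod.natCast_zmod_val _

theorem ex_cast_succ (a : ℤ_[p]) (n : ℕ) :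
    ((ex a (n + 1) : ℕ) : ZMod (p ^ n)) = PadicInt.toZModPow n a := by
  have h := PadicInt.cast_toZModPow n (n + 1) (Nat.le_succ n) a
  rw [← h, ← ex_cast a (n + 1)]
  rw [ZMod.cast_natCast (pow_dvd_pow p (Nat.le_succ n))]

/-- The element `ε ^ a` of the tilt. -/
noncomputable def epsPow (a : ℤ_[p]) : TT p :=
  mkT (fun n => (zO p n) ^ (ex a n)) (fun n => by
    rw [← pow_mul, mul_comm, pow_mul, zO_succ]
    apply zO_pow_congr
    rw [ex_cast_succ, ex_cast])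

theorem untilt_epsPow (a : ℤ_[p]) : (epsPow a).untilt = 1 := by
  rw [epsPow, untilt_mkT, zO_zero, one_pow]

theorem epsPow_add (a b : ℤ_[p]) : epsPow (a + b) = epsPow a * epsPow b := by
  refine Perfection.ext fun n => ?_
  change PreTilt.coeff n _ = PreTilt.coeff n _
  rw [map_mul, epsPow, epsPow, epsPow, coeff_mkT, coeff_mkT, coeff_mkT, ← map_mul, ← pow_add]
  congr 1
  apply zO_pow_congr
  rw [Nat.cast_add, ex_cast, ex_cast, ex_cast, map_add]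

theorem intMap_zO (g : Gal(PadicAlgCl p/ℚ_[p])) (n : ℕ) :
    intMap p g (zO p n) = (zO p n) ^ (ex (chiL g : ℤ_[p]) n) := by
  apply Subtype.ext
  rw [coe_intMap, coe_zO, cpMap_coe]
  change _ = ((zetaSeq p n).1 : ℂ_[p]) ^ _
  rw [← coe_alg_pow, chiL_spec g (zetaSeq_pow n)]
  rfl

theorem tiltMap_epsPow (g : Gal(PadicAlgCl p/ℚ_[p])) (a : ℤ_[p]) :
    tiltMap p (intMap p g) (epsPow a) = epsPow ((chiL g : ℤ_[p]) * a) := by
  refine Perfection.ext fun n => ?_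
  change PreTilt.coeff n _ = PreTilt.coeff n _
  rw [coeff_tiltMap, epsPow, epsPow, coeff_mkT, coeff_mkT, modPMap_mk, map_pow, intMap_zO,
    ← pow_mul]
  congr 1
  apply zO_pow_congr
  rw [Nat.cast_mul, ex_cast, ex_cast, ex_cast, map_mul]

/-- The element `[ε^a] - 1`. -/
noncomputable def om (a : ℤ_[p]) : AI p := teichmuller p (epsPow a) - 1

theorem th_om (a : ℤ_[p]) : th p (om a) = 0 := by
  rw [om, map_sub, fontaineTheta_teichmuller, untilt_epsPow, map_one, sub_self]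

/-- The quotient of `[ε^a] - 1` by `ξ`. -/
noncomputable def dq (a : ℤ_[p]) : AI p := (xi_dvd (th_om a)).choose

theorem om_eq (a : ℤ_[p]) : om a = xi p * dq a := (xi_dvd (th_om a)).choose_spec

theorem om_add (a b : ℤ_[p]) : om (a + b) = teichmuller p (epsPow a) * om b + om a := by
  rw [om, om, om, epsPow_add, map_mul]; ring

theorem dq_add (a b : ℤ_[p]) : dq (a + b) = teichmuller p (epsPow a) * dq b + dq a := by
  apply mul_left_cancel₀ (xi_ne_zero (p := p))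
  rw [← om_eq, om_add, om_eq, om_eq]
  ring

/-- The residue of `([ε^a] - 1) / ξ`. -/
noncomputable def dd (a : ℤ_[p]) : 𝓞_ℂ_[p] := th p (dq a)

theorem dd_add (a b : ℤ_[p]) : dd (a + b) = dd a + dd b := by
  unfold dd
  rw [dq_add, map_add, map_mul, fontaineTheta_teichmuller, untilt_epsPow, one_mul, add_comm]

/-- `dd` as an additive map. -/
noncomputable def ddHom : ℤ_[p] →+ 𝓞_ℂ_[p] := AddMonoidHom.mk' dd dd_add

theorem dd_eq (a : ℤ_[p]) : ((dd a : 𝓞_ℂ_[p]) : ℂ_[p]) =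
    algebraMap ℚ_[p] ℂ_[p] (a : ℚ_[p]) * ((dd 1 : 𝓞_ℂ_[p]) : ℂ_[p]) := by
  rw [← sub_eq_zero, ← norm_le_zero_iff]
  refine ge_of_tendsto' (tendsto_norm_p_pow p) fun n => ?_
  -- write `a = m + p ^ n b`
  obtain ⟨b, hb⟩ : ∃ b : ℤ_[p], a = (ex a n : ℤ_[p]) + (p : ℤ_[p]) ^ n * b := by
    have h1 : a - (ex a n : ℤ_[p]) ∈ RingHom.ker (PadicInt.toZModPow (p := p) n) := by
      rw [RingHom.mem_ker, map_sub, map_natCast, ex_cast, sub_self]
    rw [PadicInt.ker_toZModPow, Ideal.mem_span_singleton] at h1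
    obtain ⟨b, hb⟩ := h1
    exact ⟨b, by rw [← hb]; ring⟩
  set m := ex a n with hm
  have h2 : dd a = (m : 𝓞_ℂ_[p]) * dd 1 + (p : 𝓞_ℂ_[p]) ^ n * dd b := by
    have h3 : ddHom ((m : ℤ_[p]) + (p : ℤ_[p]) ^ n * b) =
        m • ddHom (1 : ℤ_[p]) + (p ^ n) • ddHom b := by
      rw [← map_nsmul, ← map_nsmul, ← map_add]
      congr 1
      simp [nsmul_eq_mul]
    rw [← hb] at h3
    have h4 : ∀ x : ℤ_[p], ddHom x = dd x := fun x => rfl
    rw [h4, h4, h4, nsmul_eq_mul, nsmul_eq_mul] at h3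
    rw [h3]; push_cast; ring
  have h5 : ((dd a : 𝓞_ℂ_[p]) : ℂ_[p]) = (m : ℂ_[p]) * ((dd 1 : 𝓞_ℂ_[p]) : ℂ_[p]) +
      (p : ℂ_[p]) ^ n * ((dd b : 𝓞_ℂ_[p]) : ℂ_[p]) := by
    rw [h2]; simp
  have h6 : algebraMap ℚ_[p] ℂ_[p] (a : ℚ_[p]) = (m : ℂ_[p]) +
      (p : ℂ_[p]) ^ n * algebraMap ℚ_[p] ℂ_[p] (b : ℚ_[p]) := by
    rw [hb, PadicInt.coe_add, PadicInt.coe_mul, PadicInt.coe_pow, PadicInt.coe_natCast,
      PadicInt.coe_natCast, map_add, map_mul, map_pow, map_natCast, map_natCast]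
  have h7 : ((dd a : 𝓞_ℂ_[p]) : ℂ_[p]) -
      algebraMap ℚ_[p] ℂ_[p] (a : ℚ_[p]) * ((dd 1 : 𝓞_ℂ_[p]) : ℂ_[p]) =
      (p : ℂ_[p]) ^ n * (((dd b : 𝓞_ℂ_[p]) : ℂ_[p]) -
        algebraMap ℚ_[p] ℂ_[p] (b : ℚ_[p]) * ((dd 1 : 𝓞_ℂ_[p]) : ℂ_[p])) := by
    rw [h5, h6]; ring
  rw [h7, norm_mul, norm_pow]
  refine mul_le_of_le_one_right (by positivity) ?_
  rw [sub_eq_add_neg]
  refine (IsUltrametricDist.norm_add_le_max _ _).trans (max_le (norm_int_le p _) ?_)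
  rw [norm_neg, norm_mul]
  have h8 : ‖algebraMap ℚ_[p] ℂ_[p] (b : ℚ_[p])‖ = ‖(b : ℚ_[p])‖ := PadicComplex.norm_extends' p _
  rw [h8]
  exact mul_le_one₀ (PadicInt.norm_le_one b) (norm_nonneg _) (norm_int_le p _)

/-- The `p`-th root of `ε` in the tilt. -/
noncomputable def epsRoot : TT p := mkT (fun n => zO p (n + 1)) (fun n => zO_succ (n + 1))

theorem epsRoot_pow : (epsRoot : TT p) ^ p = epsPow 1 := by
  refine Perfection.ext fun n => ?_
  change PreTilt.coeff n _ = PreTilt.coeff n _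
  rw [map_pow, epsRoot, epsPow, coeff_mkT, coeff_mkT, ← map_pow, zO_succ]
  congr 1
  conv_lhs => rw [← pow_one (zO p n)]
  apply zO_pow_congr
  rw [ex_cast, map_one, Nat.cast_one]

theorem norm_zO (n : ℕ) : ‖(zO p n : ℂ_[p])‖ = 1 := by
  rw [coe_zO, PadicComplex.norm_extends,
    norm_rootOfUnity (pow_ne_zero n hp.out.ne_zero) (zetaSeq_pow n)]

/-- `‖ζ_{n+1} - 1‖ ^ (p ^ n (p - 1)) = 1 / p`. -/
theorem norm_zO_sub_one (n : ℕ) : ‖(zO p (n + 1) : ℂ_[p]) - 1‖ ^ (p ^ n * (p - 1)) = (p : ℝ)⁻¹ := by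
  have h := norm_sub_one_pow_totient (zetaSeq p (n + 1)).2
  rw [Nat.totient_prime_pow_succ hp.out] at h
  rw [coe_zO, ← h, ← PadicComplex.norm_extends, UniformSpace.Completion.coe_sub,
    UniformSpace.Completion.coe_one]

/-- The crucial nonvanishing: `[ε] - 1` does not lie in `(ker θ)^2`. -/
theorem dd_one_ne_zero : ((dd (1 : ℤ_[p]) : 𝓞_ℂ_[p]) : ℂ_[p]) ≠ 0 := by
  intro h0
  have hd : th p (dq 1) = 0 := Subtype.ext h0
  obtain ⟨η, hη⟩ := xi_dvd hd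
  have hp2 := hp.out.two_le
  -- `S = 1 + [ε^{1/p}] + ... `
  set t : AI p := teichmuller p (epsRoot : TT p) with ht
  set S : AI p := ∑ i ∈ Finset.range p, t ^ i with hS
  have hSt : S * (t - 1) = om 1 := by
    rw [hS, geom_sum_mul, om, ht, ← map_pow, epsRoot_pow]
  have htht : th p t = zO p 1 := by
    rw [ht, fontaineTheta_teichmuller, epsRoot, untilt_mkT]
  have hz1 : (zO p 1 : ℂ_[p]) - 1 ≠ 0 := by
    intro h
    have h1 := norm_zO_sub_one (p := p) 0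
    rw [zero_add, h, norm_zero, zero_pow (by simp; omega)] at h1
    exact inv_ne_zero (by exact_mod_cast hp.out.ne_zero) h1.symm
  have hz1' : zO p 1 - 1 ≠ 0 := by
    intro h
    apply hz1
    have := congrArg (fun x : 𝓞_ℂ_[p] => (x : ℂ_[p])) h
    simpa using this
  have hthS : th p S = 0 := by
    have h1 := congrArg (th p) hSt
    rw [map_mul, map_sub, map_one, htht, th_om] at h1
    exact (mul_eq_zero.1 h1).resolve_right hz1'
  obtain ⟨σ, hσ⟩ := xi_dvd hthS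
  have h1 : σ * (t - 1) = xi p * η := by
    apply mul_left_cancel₀ (xi_ne_zero (p := p))
    rw [← mul_assoc, ← hσ, hSt, om_eq, hη]
  have h2 : th p σ = 0 := by
    have h3 := congrArg (th p) h1
    rw [map_mul, map_sub, map_one, htht, map_mul, th_xi, zero_mul] at h3
    exact (mul_eq_zero.1 h3).resolve_right hz1'
  obtain ⟨τ, hτ⟩ := xi_dvd h2
  -- reduce modulo `p`
  have h3 : ∑ i ∈ Finset.range p, (epsRoot : TT p) ^ i =
      (pflat p) ^ 2 * (constantCoeff : AI p →+* TT p) τ := by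
    have h4 := congrArg (constantCoeff : AI p →+* TT p) hσ
    rw [hτ, map_mul, map_mul, constantCoeff_xi, hS, map_sum] at h4
    have h5 : ∀ i, (constantCoeff : AI p →+* TT p) (t ^ i) = (epsRoot : TT p) ^ i := by
      intro i
      rw [map_pow]
      congr 1
    simp only [h5] at h4
    rw [h4]; ring
  obtain ⟨b, hb⟩ := Ideal.Quotient.mk_surjective
    (PreTilt.coeff 1 ((constantCoeff : AI p →+* TT p) τ))
  have h4 := congrArg (PreTilt.coeff 1) h3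
  rw [map_sum, map_mul, map_pow, ← hb, pflat, coeff_mkT] at h4
  have h5 : ∀ i, PreTilt.coeff 1 ((epsRoot : TT p) ^ i) =
      Ideal.Quotient.mk (span {(p : 𝓞_ℂ_[p])}) ((zO p 2) ^ i) := by
    intro i
    rw [map_pow, epsRoot, coeff_mkT, map_pow]
  simp only [h5] at h4
  rw [← map_sum, ← map_pow, ← map_mul, ← sub_eq_zero, ← map_sub, mk_eq_zero_iff] at h4
  -- norms
  have hpR : (1 : ℝ) < p := one_lt_p p
  have hp0 : (0 : ℝ) < p := by linarith
  set s : ℝ := ‖(pseq p 1 : ℂ_[p])‖ with hs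
  have hs0 : 0 < s := norm_pseq_pos 1
  have hsp : s ^ p = (p : ℝ)⁻¹ := by
    have := norm_pseq_pow (p := p) 1
    rwa [pow_one, norm_p] at this
  have hs1 : s < 1 := by
    by_contra h
    push Not at h
    have := one_le_pow₀ h (n := p)
    rw [hsp] at this
    exact absurd this (not_le.2 (inv_lt_one_of_one_lt₀ hpR))
  set W : ℂ_[p] := ∑ i ∈ Finset.range p, (zO p 2 : ℂ_[p]) ^ i with hW
  have hW1 : W * ((zO p 2 : ℂ_[p]) - 1) = (zO p 1 : ℂ_[p]) - 1 := by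
    rw [hW, geom_sum_mul]
    congr 1
    have := congrArg (fun x : 𝓞_ℂ_[p] => (x : ℂ_[p])) (zO_succ (p := p) 1)
    simpa using this
  obtain ⟨q, hq⟩ : ∃ q, p - 1 = q + 1 := ⟨p - 2, by omega⟩
  have hpq : p = q + 2 := by omega
  have hinv0 : (0 : ℝ) < (p : ℝ)⁻¹ := inv_pos.2 hp0
  have hW2 : ‖W‖ = s := by
    have h6 := congrArg (fun x => ‖x‖ ^ (p * (p - 1))) hW1
    simp only [norm_mul, mul_pow] at h6
    have h7 := norm_zO_sub_one (p := p) 1
    have h8 := norm_zO_sub_one (p := p) 0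
    rw [pow_one] at h7
    rw [pow_zero, one_mul, zero_add] at h8
    have h9 : ‖(zO p 1 : ℂ_[p]) - 1‖ ^ (p * (p - 1)) = (p : ℝ)⁻¹ ^ p := by
      rw [mul_comm, pow_mul, h8]
    change ‖W‖ ^ (p * (p - 1)) * ‖(zO p (1 + 1) : ℂ_[p]) - 1‖ ^ (p * (p - 1)) = _ at h6
    rw [h7, h9, pow_mul] at h6
    have h10 : (‖W‖ ^ p) ^ (p - 1) = ((p : ℝ)⁻¹) ^ (p - 1) := by
      have h11 : (p : ℝ)⁻¹ ^ p = (p : ℝ)⁻¹ ^ (p - 1) * (p : ℝ)⁻¹ := by
        rw [← pow_succ]; congr 1; omega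
      rw [h11] at h6
      exact mul_right_cancel₀ hinv0.ne' h6
    have h12 : ‖W‖ ^ p = (p : ℝ)⁻¹ :=
      (pow_left_inj₀ (by positivity) hinv0.le (by omega)).1 h10
    exact (pow_left_inj₀ (norm_nonneg _) hs0.le hp.out.ne_zero).1 (h12.trans hsp.symm)
  have h13 : ((∑ x ∈ Finset.range p, zO p 2 ^ x - pseq p 1 ^ 2 * b : 𝓞_ℂ_[p]) : ℂ_[p]) =
      W - (pseq p 1 : ℂ_[p]) ^ 2 * (b : ℂ_[p]) := by
    rw [hW]; simp
  rw [h13, norm_p, ← hsp] at h4
  have h14 : ‖(pseq p 1 : ℂ_[p]) ^ 2 * (b : ℂ_[p])‖ ≤ s ^ 2 := by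
    rw [norm_mul, norm_pow]
    exact mul_le_of_le_one_right (by positivity) (norm_int_le p b)
  have h15 : s ^ 2 < s := by nlinarith
  have h16 : s ^ p ≤ s ^ 2 := pow_le_pow_of_le_one hs0.le hs1.le hp2
  have h17 : ‖W‖ ≤ s ^ 2 := by
    have e : W = (W - (pseq p 1 : ℂ_[p]) ^ 2 * (b : ℂ_[p])) +
      (pseq p 1 : ℂ_[p]) ^ 2 * (b : ℂ_[p]) := by ring
    rw [e]
    exact (IsUltrametricDist.norm_add_le_max _ _).trans (max_le (h4.trans h16) h14)
  rw [hW2] at h17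
  linarith

end Pool.Agent.W292.FM
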