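import Mathlib
import Pool.Agent.W292.FM.Tate

/-!
Tate's vanishing theorem for open subgroups.
-/

set_option linter.unusedSectionVars false

namespace Pool.Agent.W292.FM

open Polynomial IntermediateField

variable {p : ℕ} [hp : Fact p.Prime]

theorem finiteIndex_stabilizer (x : PadicAlgCl p) :
    (MulAction.stabilizer (Gal(PadicAlgCl p/ℚ_[p])) x).FiniteIndex := by
  classical
  have h1 : (MulAction.orbit (Gal(PadicAlgCl p/ℚ_[p])) x).Finite := by
    refine Set.Finite.subset (((minpoly ℚ_[p] x).aroots (PadicAlgCl p)).toFinset.finite_toSet) ?_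
    rintro _ ⟨g, rfl⟩
    simp only [Finset.mem_coe, Multiset.mem_toFinset]
    rw [mem_aroots]
    refine ⟨minpoly.ne_zero (Algebra.IsIntegral.isIntegral x), ?_⟩
    have : aeval (g x) (minpoly ℚ_[p] x) = g (aeval x (minpoly ℚ_[p] x)) := aeval_algHom_apply _ _ _
    change aeval (g x) (minpoly ℚ_[p] x) = 0
    rw [this, minpoly.aeval, map_zero]
  have h2 : Finite (Gal(PadicAlgCl p/ℚ_[p]) ⧸ MulAction.stabilizer (Gal(PadicAlgCl p/ℚ_[p])) x) := by
    have := h1.to_subtype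
    exact Finite.of_equiv _ (MulAction.orbitEquivQuotientStabilizer _ x)
  exact Subgroup.finiteIndex_of_finite_quotient

theorem norm_padic_sub_one {u : ℚ_[p]} (hu : ‖u‖ = 1) : ‖u ^ (p - 1) - 1‖ < 1 := by
  let u' : ℤ_[p] := ⟨u, hu.le⟩
  have h1 : ‖u' ^ (p - 1) - 1‖ < 1 := by
    rw [← PadicInt.mem_nonunits, ← IsLocalRing.mem_maximalIdeal, ← PadicInt.ker_toZMod,
      RingHom.mem_ker, map_sub, map_pow, map_one, sub_eq_zero]
    apply ZMod.pow_card_sub_one_eq_one
    intro h0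
    have h2 : u' ∈ RingHom.ker (PadicInt.toZMod (p := p)) := h0
    rw [PadicInt.ker_toZMod, IsLocalRing.mem_maximalIdeal, PadicInt.mem_nonunits] at h2
    have : ‖u'‖ = 1 := hu
    linarith
  have h3 : ‖u' ^ (p - 1) - 1‖ = ‖u ^ (p - 1) - 1‖ := by
    rw [PadicInt.norm_def]; push_cast; rfl
  rwa [h3] at h1

/-- **Tate's vanishing theorem** for a subgroup of finite index. -/
theorem tate_vanish (H : Subgroup (Gal(PadicAlgCl p/ℚ_[p]))) [H.FiniteIndex] {k : ℕ} (hk : k ≠ 0)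
    {z : ℂ_[p]} (h : ∀ g ∈ H, cpMap p g z = algebraMap ℚ_[p] ℂ_[p] (chiQ g ^ k) * z) : z = 0 := by
  by_contra hz
  have hzpos : 0 < ‖z‖ := norm_pos_iff.2 hz
  -- approximate `z` by an algebraic number
  obtain ⟨x, hx⟩ : ∃ x : PadicAlgCl p, ‖z - (x : ℂ_[p])‖ < ‖z‖ := by
    obtain ⟨x, hx⟩ := (UniformSpace.Completion.denseRange_coe
      (α := PadicAlgCl p)).exists_dist_lt z hzpos
    exact ⟨x, by rwa [dist_eq_norm] at hx⟩
  have hxz : ‖(x : ℂ_[p])‖ = ‖z‖ := by
    have e : (x : ℂ_[p]) = z + -(z - (x : ℂ_[p])) := by ring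
    rw [e, IsUltrametricDist.norm_add_eq_max_of_norm_ne_norm (by rw [norm_neg]; exact hx.ne'),
      norm_neg, max_eq_left hx.le]
  have hx0 : (x : ℂ_[p]) ≠ 0 := by rw [← norm_pos_iff, hxz]; exact hzpos
  set y : ℂ_[p] := z / (x : ℂ_[p]) with hy
  have hy1 : ‖y - 1‖ < 1 := by
    have e : y - 1 = (z - (x : ℂ_[p])) / (x : ℂ_[p]) := by rw [hy]; field_simp
    rw [e, norm_div, hxz, div_lt_one hzpos]
    exact hx
  have hy0 : y ≠ 0 := div_ne_zero hz hx0
  -- the subgroup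
  set S := H ⊓ MulAction.stabilizer (Gal(PadicAlgCl p/ℚ_[p])) x with hS
  have : (MulAction.stabilizer (Gal(PadicAlgCl p/ℚ_[p])) x).FiniteIndex := finiteIndex_stabilizer x
  have hSf : S.FiniteIndex := inferInstance
  have hSy : ∀ g ∈ S, cpMap p g y = algebraMap ℚ_[p] ℂ_[p] (chiQ g ^ k) * y := by
    intro g hg
    have h1 : g x = x := (Subgroup.mem_inf.1 hg).2
    rw [hy, map_div₀, h g (Subgroup.mem_inf.1 hg).1, cpMap_coe, h1, mul_div_assoc]
  -- the function on the group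
  let q := p - 1
  have hq : q ≠ 0 := by have := hp.out.two_le; simp only [q]; omega
  let f : Gal(PadicAlgCl p/ℚ_[p]) → ℂ_[p] := fun s =>
    (algebraMap ℚ_[p] ℂ_[p] (chiQ s ^ (k * q)))⁻¹ * (cpMap p s y) ^ q
  have hne : ∀ s : Gal(PadicAlgCl p/ℚ_[p]), algebraMap ℚ_[p] ℂ_[p] (chiQ s ^ (k * q)) ≠ 0 := by
    intro s
    rw [_root_.map_ne_zero]
    exact pow_ne_zero _ (chiQ_ne_zero s)
  have hf : ∀ s t : Gal(PadicAlgCl p/ℚ_[p]), t ∈ S → f (s * t) = f s := by
    intro s t ht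
    simp only [f]
    rw [cpMap_mul, hSy t ht, map_mul, cpMap_algebraMap, chiQ_mul, mul_pow, mul_pow, map_mul,
      ← map_pow, ← pow_mul]
    have h1 := hne s
    have h2 := hne t
    field_simp
  have hgf : ∀ g s : Gal(PadicAlgCl p/ℚ_[p]), cpMap p g (f s) =
      algebraMap ℚ_[p] ℂ_[p] (chiQ g ^ (k * q)) * f (g * s) := by
    intro g s
    simp only [f]
    rw [map_mul, map_inv₀, cpMap_algebraMap, map_pow (cpMap p g), cpMap_mul, chiQ_mul, mul_pow,
      map_mul]
    have h1 := hne s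
    have h2 := hne g
    field_simp
  have hf1 : ∀ s : Gal(PadicAlgCl p/ℚ_[p]), ‖f s - 1‖ < 1 := by
    intro s
    have h1 : ‖cpMap p s y - 1‖ < 1 := by
      have e : cpMap p s y - 1 = cpMap p s (y - 1) := by rw [map_sub, map_one]
      rw [e, norm_cpMap]; exact hy1
    have h2 : ‖(cpMap p s y) ^ q - 1‖ < 1 := lt_of_le_of_lt (norm_pow_sub_one_le' h1 q) h1
    have h3 : ‖chiQ s ^ (k * q) - 1‖ < 1 := by
      have h4 : ‖chiQ s ^ k‖ = 1 := by rw [norm_pow, norm_chiQ, one_pow]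
      rw [pow_mul]
      exact norm_padic_sub_one h4
    have h4 : ‖algebraMap ℚ_[p] ℂ_[p] (chiQ s ^ (k * q)) - 1‖ < 1 := by
      have e : algebraMap ℚ_[p] ℂ_[p] (chiQ s ^ (k * q)) - 1 =
        algebraMap ℚ_[p] ℂ_[p] (chiQ s ^ (k * q) - 1) := by rw [map_sub, map_one]
      rw [e]
      have h5 : ‖algebraMap ℚ_[p] ℂ_[p] (chiQ s ^ (k * q) - 1)‖ = ‖chiQ s ^ (k * q) - 1‖ :=
        PadicComplex.norm_extends' p _
      rw [h5]; exact h3
    have h5 : ‖algebraMap ℚ_[p] ℂ_[p] (chiQ s ^ (k * q))‖ = 1 := norm_eq_one_of_sub h4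
    have e : f s - 1 = (algebraMap ℚ_[p] ℂ_[p] (chiQ s ^ (k * q)))⁻¹ *
        (((cpMap p s y) ^ q - 1) + -(algebraMap ℚ_[p] ℂ_[p] (chiQ s ^ (k * q)) - 1)) := by
      simp only [f]
      have h1 := hne s
      field_simp
      ring
    rw [e, norm_mul, norm_inv, h5, inv_one, one_mul]
    refine lt_of_le_of_lt (IsUltrametricDist.norm_add_le_max _ _) (max_lt h2 ?_)
    rw [norm_neg]; exact h4
  -- the product over the cosets
  let F : Gal(PadicAlgCl p/ℚ_[p]) ⧸ S → ℂ_[p] := Quotient.lift f (by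
    intro a b hab
    have h1 : a⁻¹ * b ∈ S := QuotientGroup.leftRel_apply.1 hab
    have h2 := hf a (a⁻¹ * b) h1
    rw [mul_inv_cancel_left] at h2
    exact h2.symm)
  have hFmk : ∀ s : Gal(PadicAlgCl p/ℚ_[p]), F (QuotientGroup.mk s) = f s := fun s => rfl
  have hfin : Finite (Gal(PadicAlgCl p/ℚ_[p]) ⧸ S) := Subgroup.finite_quotient_of_finiteIndex
  have : Fintype (Gal(PadicAlgCl p/ℚ_[p]) ⧸ S) := Fintype.ofFinite _
  set M := Fintype.card (Gal(PadicAlgCl p/ℚ_[p]) ⧸ S) with hM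
  have hM0 : M ≠ 0 := Fintype.card_ne_zero
  refine tate_principal (p := p) (k := k * q * M) (by positivity) (z := ∏ c, F c) ?_ ?_
  · -- principal unit
    have : ∀ (T : Finset (Gal(PadicAlgCl p/ℚ_[p]) ⧸ S)), ‖(∏ c ∈ T, F c) - 1‖ < 1 := by
      intro T
      induction T using Finset.cons_induction with
      | empty => simp
      | cons a T ha ih =>
        rw [Finset.prod_cons]
        have e : F a * ∏ c ∈ T, F c - 1 = (F a - 1) * (∏ c ∈ T, F c) + ((∏ c ∈ T, F c) - 1) := by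
          ring
        rw [e]
        refine lt_of_le_of_lt (IsUltrametricDist.norm_add_le_max _ _) (max_lt ?_ ih)
        rw [norm_mul, norm_eq_one_of_sub ih, mul_one]
        induction a using QuotientGroup.induction_on with
        | H s => rw [hFmk]; exact hf1 s
    exact this Finset.univ
  · intro g
    rw [map_prod]
    have h1 : ∀ c : Gal(PadicAlgCl p/ℚ_[p]) ⧸ S, cpMap p g (F c) =
        algebraMap ℚ_[p] ℂ_[p] (chiQ g ^ (k * q)) * F (g • c) := by
      intro c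
      induction c using QuotientGroup.induction_on with
      | H s =>
        have : g • (QuotientGroup.mk s : Gal(PadicAlgCl p/ℚ_[p]) ⧸ S) = QuotientGroup.mk (g * s) := rfl
        rw [this, hFmk, hFmk, hgf]
    rw [Finset.prod_congr rfl (fun c _ => h1 c), Finset.prod_mul_distrib, Finset.prod_const,
      Finset.card_univ, ← hM, ← map_pow, ← pow_mul]
    congr 1
    exact Fintype.prod_bijective (fun c => g • c) (MulAction.bijective g) _ _ (fun c => rfl)

end Pool.Agent.W292.FM
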