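import Mathlib
import Pool.Agent.W292.FM.Eps
import Pool.Agent.W292.FM.TateH

/-!
The action of the Galois group on `W(O♭)[1/p]`, its generator `ξ` of `ker θ`, and the map
`θ : W(O♭)[1/p] → ℂ_[p]`.
-/

set_option linter.unusedSectionVars false

namespace Pool.Agent.W292.FM

open Ideal WittVector

variable {p : ℕ} [hp : Fact p.Prime]

/-- The action of the Galois group on `A_inf`. -/
noncomputable abbrev gA (g : Gal(PadicAlgCl p/ℚ_[p])) : AI p →+* AI p :=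
  WittVector.map (tiltMap p (intMap p g))

theorem th_gA (g : Gal(PadicAlgCl p/ℚ_[p])) (x : AI p) : th p (gA g x) = intMap p g (th p x) :=
  theta_map p (intMap p g) x

theorem gA_om (g : Gal(PadicAlgCl p/ℚ_[p])) (a : ℤ_[p]) :
    gA g (om a) = om ((chiL g : ℤ_[p]) * a) := by
  rw [om, om, map_sub, map_one, WittVector.map_teichmuller, tiltMap_epsPow]

theorem xi_dvd_gA_xi (g : Gal(PadicAlgCl p/ℚ_[p])) : xi p ∣ gA g (xi p) :=
  xi_dvd (by rw [th_gA, th_xi, map_zero])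

/-- The factor by which `g` multiplies `ξ`. -/
noncomputable def gam (g : Gal(PadicAlgCl p/ℚ_[p])) : AI p := (xi_dvd_gA_xi g).choose

theorem gA_xi (g : Gal(PadicAlgCl p/ℚ_[p])) : gA g (xi p) = xi p * gam g :=
  (xi_dvd_gA_xi g).choose_spec

/-- The residue of `g ξ / ξ`. -/
noncomputable def tg (g : Gal(PadicAlgCl p/ℚ_[p])) : ℂ_[p] := ((th p (gam g) : 𝓞_ℂ_[p]) : ℂ_[p])

theorem tg_spec (g : Gal(PadicAlgCl p/ℚ_[p])) :
    tg g * cpMap p g ((dd (1 : ℤ_[p]) : 𝓞_ℂ_[p]) : ℂ_[p]) =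
      algebraMap ℚ_[p] ℂ_[p] (chiQ g) * ((dd (1 : ℤ_[p]) : 𝓞_ℂ_[p]) : ℂ_[p]) := by
  have h1 : dq ((chiL g : ℤ_[p])) = gam g * gA g (dq 1) := by
    apply mul_left_cancel₀ (xi_ne_zero (p := p))
    rw [← om_eq, ← mul_assoc, ← gA_xi, ← map_mul, ← om_eq, gA_om, mul_one]
  have h2 := congrArg (th p) h1
  rw [map_mul, th_gA] at h2
  have h3 := congrArg (fun x : 𝓞_ℂ_[p] => (x : ℂ_[p])) h2
  have h4 := dd_eq (p := p) (chiL g : ℤ_[p])
  unfold dd at h4 ⊢
  rw [← coe_intMap]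
  change _ = algebraMap ℚ_[p] ℂ_[p] ((chiL g : ℤ_[p]) : ℚ_[p]) * _
  rw [← h4, h3, tg]
  simp

variable (p) in
/-- The ring `A_inf[1/p]`. -/
abbrev LA := Localization.Away (p : AI p)

theorem isUnit_p_C : IsUnit (((algebraMap 𝓞_ℂ_[p] ℂ_[p]).comp (th p)) (p : AI p)) := by
  rw [map_natCast]
  exact (p_ne_zero p).isUnit

variable (p) in
/-- The map `θ` with values in `ℂ_[p]`. -/
noncomputable def thC : LA p →+* ℂ_[p] :=
  IsLocalization.Away.lift (p : AI p) (g := (algebraMap 𝓞_ℂ_[p] ℂ_[p]).comp (th p)) isUnit_p_C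

theorem thC_algebraMap (x : AI p) : thC p (algebraMap _ _ x) = ((th p x : 𝓞_ℂ_[p]) : ℂ_[p]) :=
  IsLocalization.Away.lift_eq _ _ _

theorem powers_le : Submonoid.powers (p : AI p) ≤ nonZeroDivisors (AI p) :=
  powers_le_nonZeroDivisors_of_noZeroDivisors p_ne_zero_AI

instance isDomain_LA : IsDomain (LA p) :=
  IsLocalization.isDomain_localization powers_le

theorem algebraMap_LA_injective : Function.Injective (algebraMap (AI p) (LA p)) :=
  IsLocalization.injective (LA p) powers_le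

theorem exists_num (x : LA p) : ∃ (n : ℕ) (a : AI p),
    x * algebraMap (AI p) (LA p) (p : AI p) ^ n = algebraMap (AI p) (LA p) a :=
  IsLocalization.Away.surj (p : AI p) x

theorem p_LA_ne_zero : algebraMap (AI p) (LA p) (p : AI p) ≠ 0 := by
  intro h
  rw [map_eq_zero_iff _ algebraMap_LA_injective] at h
  exact p_ne_zero_AI h

variable (p) in
/-- The generator of the kernel of `θ` in `A_inf[1/p]`. -/
noncomputable def xiL : LA p := algebraMap (AI p) (LA p) (xi p)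

theorem xiL_ne_zero : xiL p ≠ 0 := by
  intro h
  rw [xiL, map_eq_zero_iff _ algebraMap_LA_injective] at h
  exact xi_ne_zero h

theorem thC_eq_zero_iff (x : LA p) : thC p x = 0 ↔ xiL p ∣ x := by
  constructor
  · intro h
    obtain ⟨n, a, ha⟩ := exists_num x
    have h1 := congrArg (thC p) ha
    rw [map_mul, h, zero_mul, thC_algebraMap] at h1
    have h2 : th p a = 0 := Subtype.ext h1.symm
    obtain ⟨b, rfl⟩ := xi_dvd h2
    have hu : IsUnit (algebraMap (AI p) (LA p) (p : AI p) ^ n) :=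
      (IsLocalization.Away.algebraMap_isUnit (p : AI p)).pow n
    rw [← hu.dvd_mul_right (b := x), ha, map_mul]
    exact dvd_mul_right _ _
  · rintro ⟨y, rfl⟩
    rw [map_mul, xiL, thC_algebraMap, th_xi]
    simp

theorem mem_kerT_iff (x : LA p) : x ∈ kerT 𝓞_ℂ_[p] p ↔ thC p x = 0 := by
  obtain ⟨n, a, ha⟩ := exists_num x
  have h1 := congrArg (thC p) ha
  have h2 := congrArg (fontaineThetaInvertP 𝓞_ℂ_[p] p) ha
  rw [map_mul, map_pow, thC_algebraMap, thC_algebraMap] at h1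
  rw [map_mul, map_pow, thetaInvertP_algebraMap, thetaInvertP_algebraMap] at h2
  have hinj : Function.Injective (algebraMap 𝓞_ℂ_[p] (Localization.Away (p : 𝓞_ℂ_[p]))) :=
    IsLocalization.injective _ (powers_le_nonZeroDivisors_of_noZeroDivisors p_ne_zero_int)
  have : IsDomain (Localization.Away (p : 𝓞_ℂ_[p])) :=
    IsLocalization.isDomain_localization
      (powers_le_nonZeroDivisors_of_noZeroDivisors p_ne_zero_int)
  have h3 : ((th p (p : AI p) : 𝓞_ℂ_[p]) : ℂ_[p]) ≠ 0 := by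
    rw [map_natCast]
    simpa using p_ne_zero p
  have h4 : algebraMap 𝓞_ℂ_[p] (Localization.Away (p : 𝓞_ℂ_[p])) (th p (p : AI p)) ≠ 0 := by
    intro h
    rw [map_eq_zero_iff _ hinj, map_natCast] at h
    exact p_ne_zero_int h
  rw [RingHom.mem_ker]
  constructor
  · intro h
    rw [h, zero_mul] at h2
    have h5 : th p a = 0 := (map_eq_zero_iff _ hinj).1 h2.symm
    rw [h5] at h1
    have h6 : thC p x * ((th p (p : AI p) : 𝓞_ℂ_[p]) : ℂ_[p]) ^ n = 0 := by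
      rw [h1]; rfl
    exact (mul_eq_zero.1 h6).resolve_right (pow_ne_zero _ h3)
  · intro h
    rw [h, zero_mul] at h1
    have h5 : th p a = 0 := Subtype.ext h1.symm
    rw [h5, map_zero] at h2
    exact (mul_eq_zero.1 h2).resolve_right (pow_ne_zero _ h4)

theorem mem_kerT_pow_iff (n : ℕ) (x : LA p) : x ∈ kerT 𝓞_ℂ_[p] p ^ n ↔ xiL p ^ n ∣ x := by
  have h : kerT 𝓞_ℂ_[p] p = Ideal.span {xiL p} := by
    ext y
    rw [mem_kerT_iff, thC_eq_zero_iff, Ideal.mem_span_singleton]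
  rw [h, Ideal.span_singleton_pow, Ideal.mem_span_singleton]

theorem kerT_eq_span : kerT 𝓞_ℂ_[p] p = Ideal.span {xiL p} := by
  ext y
  rw [mem_kerT_iff, thC_eq_zero_iff, Ideal.mem_span_singleton]

/-- The action of the Galois group on `A_inf[1/p]`. -/
noncomputable abbrev gL (g : Gal(PadicAlgCl p/ℚ_[p])) : LA p →+* LA p := locMap p (intMap p g)

theorem gL_xiL (g : Gal(PadicAlgCl p/ℚ_[p])) :
    gL g (xiL p) = xiL p * algebraMap (AI p) (LA p) (gam g) := by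
  rw [xiL, gL, locMap_algebraMap, gA_xi, map_mul]

theorem thC_gL (g : Gal(PadicAlgCl p/ℚ_[p])) (x : LA p) :
    thC p (gL g x) = cpMap p g (thC p x) := by
  have key : (thC p).comp (gL g) = ((cpMap p g : ℂ_[p] ≃+* ℂ_[p]) : ℂ_[p] →+* ℂ_[p]).comp (thC p) := by
    refine IsLocalization.ringHom_ext (Submonoid.powers (p : AI p)) ?_
    ext x
    simp only [RingHom.comp_apply]
    rw [locMap_algebraMap, thC_algebraMap, thC_algebraMap, th_gA]
    rfl
  exact congrArg (fun f : LA p →+* ℂ_[p] => f x) key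

theorem ringHom_zp_unique (f : ℤ_[p] →+* 𝓞_ℂ_[p]) (x : ℤ_[p]) :
    ((f x : 𝓞_ℂ_[p]) : ℂ_[p]) = algebraMap ℚ_[p] ℂ_[p] (x : ℚ_[p]) := by
  rw [← sub_eq_zero, ← norm_le_zero_iff]
  refine ge_of_tendsto' (tendsto_norm_p_pow p) fun n => ?_
  obtain ⟨b, hb⟩ : ∃ b : ℤ_[p], x = (ex x n : ℤ_[p]) + (p : ℤ_[p]) ^ n * b := by
    have h1 : x - (ex x n : ℤ_[p]) ∈ RingHom.ker (PadicInt.toZModPow (p := p) n) := by
      rw [RingHom.mem_ker, map_sub, map_natCast, ex_cast, sub_self]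
    rw [PadicInt.ker_toZModPow, Ideal.mem_span_singleton] at h1
    obtain ⟨b, hb⟩ := h1
    exact ⟨b, by rw [← hb]; ring⟩
  set m := ex x n with hm
  have h5 : ((f x : 𝓞_ℂ_[p]) : ℂ_[p]) = (m : ℂ_[p]) + (p : ℂ_[p]) ^ n * ((f b : 𝓞_ℂ_[p]) : ℂ_[p]) := by
    rw [hb, map_add, map_mul, map_pow, map_natCast, map_natCast]
    simp
  have h6 : algebraMap ℚ_[p] ℂ_[p] (x : ℚ_[p]) = (m : ℂ_[p]) +
      (p : ℂ_[p]) ^ n * algebraMap ℚ_[p] ℂ_[p] (b : ℚ_[p]) := by
    rw [hb, PadicInt.coe_add, PadicInt.coe_mul, PadicInt.coe_pow, PadicInt.coe_natCast,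
      PadicInt.coe_natCast, map_add, map_mul, map_pow, map_natCast, map_natCast]
  have h7 : ((f x : 𝓞_ℂ_[p]) : ℂ_[p]) - algebraMap ℚ_[p] ℂ_[p] (x : ℚ_[p]) =
      (p : ℂ_[p]) ^ n * (((f b : 𝓞_ℂ_[p]) : ℂ_[p]) - algebraMap ℚ_[p] ℂ_[p] (b : ℚ_[p])) := by
    rw [h5, h6]; ring
  rw [h7, norm_mul, norm_pow]
  refine mul_le_of_le_one_right (by positivity) ?_
  rw [sub_eq_add_neg]
  refine (IsUltrametricDist.norm_add_le_max _ _).trans (max_le (norm_int_le p _) ?_)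
  rw [norm_neg]
  have h8 : ‖algebraMap ℚ_[p] ℂ_[p] (b : ℚ_[p])‖ = ‖(b : ℚ_[p])‖ := PadicComplex.norm_extends' p _
  rw [h8]
  exact PadicInt.norm_le_one b

theorem thC_qpMap (c : ℚ_[p]) : thC p (qpMap 𝓞_ℂ_[p] p c) = algebraMap ℚ_[p] ℂ_[p] c := by
  have key : (thC p).comp (qpMap 𝓞_ℂ_[p] p) = algebraMap ℚ_[p] ℂ_[p] := by
    refine IsLocalization.ringHom_ext (nonZeroDivisors ℤ_[p]) ?_
    ext x
    simp only [RingHom.comp_apply]
    rw [qpMap_coe, thC_algebraMap]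
    exact ringHom_zp_unique ((th p).comp (zpMap 𝓞_ℂ_[p] p)) x
  exact congrArg (fun f : ℚ_[p] →+* ℂ_[p] => f c) key

end Pool.Agent.W292.FM
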