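import Mathlib
import Pool.Agent.W292.FM.Graded

/-!
A character whose `2c`-th power is the inverse of the `c`-th power of the cyclotomic character
has no periods in the field of de Rham periods.
-/

set_option linter.unusedSectionVars false

namespace Pool.Agent.W292.FM

open Ideal WittVector

variable {p : ℕ} [hp : Fact p.Prime]

theorem evalP_of_le {x : BDeRhamPlus 𝓞_ℂ_[p] p} {N : ℕ} {X : LA p}
    (hX : Ideal.Quotient.mk _ X = evalP p N x) {a : ℕ} (ha : a ≤ N) :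
    evalP p a x = Ideal.Quotient.mk _ X := by
  rw [← factorPow_evalP p ha, ← hX]
  rfl

theorem evalP_zero (x : BDeRhamPlus 𝓞_ℂ_[p] p) : evalP p 0 x = 0 := by
  obtain ⟨y, hy⟩ := Ideal.Quotient.mk_surjective (evalP p 0 x)
  rw [← hy, Ideal.Quotient.eq_zero_iff_mem, pow_zero, Ideal.one_eq_top]
  trivial

theorem exists_first {x : BDeRhamPlus 𝓞_ℂ_[p] p} (hx : x ≠ 0) :
    ∃ m, evalP p (m + 1) x ≠ 0 ∧ evalP p m x = 0 := by
  by_contra h
  push Not at h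
  have h1 : ∀ n, evalP p n x = 0 := by
    intro n
    induction n with
    | zero => exact evalP_zero x
    | succ n ih =>
      by_contra h2
      exact h n h2 ih
  exact hx (evalP_ext p fun n => by rw [h1 n, map_zero])

theorem exists_rep {x : BDeRhamPlus 𝓞_ℂ_[p] p} {m : ℕ} (hm1 : evalP p (m + 1) x ≠ 0)
    (hm2 : evalP p m x = 0) {N : ℕ} (hN : m + 1 ≤ N) : ∃ w : LA p, thC p w ≠ 0 ∧
      Ideal.Quotient.mk _ (xiL p ^ m * w) = evalP p N x := by
  obtain ⟨X, hX⟩ := Ideal.Quotient.mk_surjective (evalP p N x)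
  have h4 : xiL p ^ m ∣ X := by
    rw [← mem_kerT_pow_iff, ← Ideal.Quotient.eq_zero_iff_mem, ← evalP_of_le hX (by omega), hm2]
  obtain ⟨w, rfl⟩ := h4
  refine ⟨w, ?_, hX⟩
  intro h5
  apply hm1
  rw [evalP_of_le hX hN, Ideal.Quotient.eq_zero_iff_mem, mem_kerT_pow_iff, pow_succ]
  exact mul_dvd_mul_left _ ((thC_eq_zero_iff w).1 h5)

theorem thC_eq_of_mk_eq {m : ℕ} {w w0 : LA p}
    (h : Ideal.Quotient.mk (kerT 𝓞_ℂ_[p] p ^ (m + 1)) (xiL p ^ m * w0) =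
      Ideal.Quotient.mk (kerT 𝓞_ℂ_[p] p ^ (m + 1)) (xiL p ^ m * w)) : thC p w0 = thC p w := by
  have h1 : xiL p ^ m * w0 - xiL p ^ m * w ∈ kerT 𝓞_ℂ_[p] p ^ (m + 1) := Ideal.Quotient.eq.1 h
  rw [mem_kerT_pow_iff] at h1
  obtain ⟨c, hc⟩ := h1
  have h2 : xiL p ^ m * (w0 - w) = xiL p ^ m * (xiL p * c) := by
    rw [mul_sub, hc]; ring
  have h3 : w0 - w = xiL p * c := mul_left_cancel₀ (pow_ne_zero m xiL_ne_zero) h2
  have h4 : thC p (w0 - w) = 0 := (thC_eq_zero_iff _).2 ⟨c, h3⟩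
  rwa [map_sub, sub_eq_zero] at h4

/-- The leading term of a nonzero element of the completed ring. -/
theorem exists_leading {x : BDeRhamPlus 𝓞_ℂ_[p] p} (hx : x ≠ 0) :
    ∃ (m : ℕ) (z : ℂ_[p]), z ≠ 0 ∧ ∀ N, m + 1 ≤ N → ∃ w : LA p, thC p w = z ∧
      Ideal.Quotient.mk _ (xiL p ^ m * w) = evalP p N x := by
  obtain ⟨m, hm1, hm2⟩ := exists_first hx
  obtain ⟨w0, hw0, hw0'⟩ := exists_rep hm1 hm2 (N := m + 1) le_rfl
  refine ⟨m, thC p w0, hw0, fun N hN => ?_⟩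
  obtain ⟨w, _, hw'⟩ := exists_rep hm1 hm2 hN
  refine ⟨w, ?_, hw'⟩
  have h6 := evalP_of_le hw' hN
  rw [← hw0'] at h6
  exact (thC_eq_of_mk_eq h6).symm

theorem genSub_form {s : BDeRhamPlus 𝓞_ℂ_[p] p} (hs : s ∈ genSub 𝓞_ℂ_[p] p) :
    ∃ (k : ℕ) (u : LA p), thC p u ≠ 0 ∧ s = toPlus p (xiL p ^ k * u) := by
  induction hs using Submonoid.closure_induction with
  | mem x hx =>
    obtain ⟨a, ha, rfl⟩ := hx
    have h1 : xiL p ∣ a := by
      rw [← thC_eq_zero_iff, ← mem_kerT_iff, ha]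
      exact Ideal.mem_span_singleton_self a
    have h2 : a ∣ xiL p := by
      have : xiL p ∈ kerT 𝓞_ℂ_[p] p := by
        rw [kerT_eq_span]; exact Ideal.mem_span_singleton_self _
      rw [ha, Ideal.mem_span_singleton] at this
      exact this
    obtain ⟨c, rfl⟩ := h1
    obtain ⟨d, hd⟩ := h2
    have h3 : c * d = 1 := by
      apply mul_left_cancel₀ (xiL_ne_zero (p := p))
      rw [← mul_assoc, ← hd, mul_one]
    refine ⟨1, c, ?_, ?_⟩
    · intro h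
      have h4 := congrArg (thC p) h3
      rw [map_mul, h, zero_mul, map_one] at h4
      exact zero_ne_one h4
    · rw [pow_one]; rfl
  | one => exact ⟨0, 1, by rw [map_one]; exact one_ne_zero, by simp⟩
  | mul x y _ _ hx hy =>
    obtain ⟨k, u, hu, rfl⟩ := hx
    obtain ⟨m, v, hv, rfl⟩ := hy
    refine ⟨k + m, u * v, ?_, ?_⟩
    · rw [map_mul]; exact mul_ne_zero hu hv
    · rw [← map_mul]; congr 1; ring

theorem cpMap_ne_zero (g : Gal(PadicAlgCl p/ℚ_[p])) {z : ℂ_[p]} (hz : z ≠ 0) : cpMap p g z ≠ 0 := by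
  intro h
  have h1 := norm_cpMap p g z
  rw [h, norm_zero] at h1
  exact hz (norm_eq_zero.1 h1.symm)

/-- Clearing denominators in the equation of a period. -/
theorem eq_in_plus {y : Localization (genSub 𝓞_ℂ_[p] p)} {x s : BDeRhamPlus 𝓞_ℂ_[p] p}
    (hxs : y * algebraMap (BDeRhamPlus 𝓞_ℂ_[p] p) (Localization (genSub 𝓞_ℂ_[p] p)) s =
      algebraMap (BDeRhamPlus 𝓞_ℂ_[p] p) (Localization (genSub 𝓞_ℂ_[p] p)) x)
    (g : Gal(PadicAlgCl p/ℚ_[p])) (c : ℚ_[p]) (hg : c • bdrMap p (intMap p g) y = y) :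
    ∃ t ∈ genSub 𝓞_ℂ_[p] p,
      t * (toPlus p (qpMap 𝓞_ℂ_[p] p c) * plusMap p (intMap p g) x * s) =
      t * (x * plusMap p (intMap p g) s) := by
  have h1 : algebraMap (BDeRhamPlus 𝓞_ℂ_[p] p) (Localization (genSub 𝓞_ℂ_[p] p))
      (toPlus p (qpMap 𝓞_ℂ_[p] p c) * plusMap p (intMap p g) x * s) =
      algebraMap (BDeRhamPlus 𝓞_ℂ_[p] p) (Localization (genSub 𝓞_ℂ_[p] p))
      (x * plusMap p (intMap p g) s) := by
    have h2 := congrArg (bdrMap p (intMap p g)) hxs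
    rw [map_mul, bdrMap_algebraMap, bdrMap_algebraMap] at h2
    rw [Algebra.smul_def, algebraMap_bdr] at hg
    rw [map_mul, map_mul, map_mul, ← h2, ← hxs]
    have h3 : ∀ a b c d e : Localization (genSub 𝓞_ℂ_[p] p), a * b = e → a * (b * c) * d = e * d * c := by
      rintro a b c d _ rfl
      ring
    exact h3 _ _ _ _ _ hg
  obtain ⟨t, ht⟩ := (IsLocalization.eq_iff_exists (genSub 𝓞_ℂ_[p] p) (Localization (genSub 𝓞_ℂ_[p] p))).1 h1
  exact ⟨t, t.2, ht⟩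

theorem evalP_plusMap_mk (g : Gal(PadicAlgCl p/ℚ_[p])) {N : ℕ} {x : BDeRhamPlus 𝓞_ℂ_[p] p}
    {X : LA p} (hX : Ideal.Quotient.mk _ X = evalP p N x) :
    Ideal.Quotient.mk _ (gL g X) = evalP p N (plusMap p (intMap p g) x) := by
  rw [evalP_plusMap, ← hX]
  rfl

theorem level_aux {A B C : Type*} [CommRing A] [CommRing B] [CommRing C] (t : A →+* B)
    (e : B →+* C) (m : A →+* C) (het : ∀ a, e (t a) = m a) {T c S gS X gX : A} {x gx : B}
    (hX : m X = e x) (hgX : m gX = e gx)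
    (h : t T * (t c * gx * t S) = t T * (x * t gS)) :
    m (T * (c * gX * S)) = m (T * (X * gS)) := by
  have h1 := congrArg e h
  simp only [map_mul, het, ← hX, ← hgX] at h1 ⊢
  exact h1

theorem level_eq (g : Gal(PadicAlgCl p/ℚ_[p])) (c : LA p) {x : BDeRhamPlus 𝓞_ℂ_[p] p}
    {X S T : LA p} {N : ℕ} (hX : Ideal.Quotient.mk _ X = evalP p N x)
    (h : toPlus p T * (toPlus p c * plusMap p (intMap p g) x * toPlus p S) =
      toPlus p T * (x * plusMap p (intMap p g) (toPlus p S))) :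
    T * (c * gL g X * S) - T * (X * gL g S) ∈ kerT 𝓞_ℂ_[p] p ^ N := by
  rw [plusMap_toPlus] at h
  exact Ideal.Quotient.eq.1 (level_aux (toPlus p) (evalP p N)
    (Ideal.Quotient.mk (kerT 𝓞_ℂ_[p] p ^ N)) (evalP_toPlus p N) hX (evalP_plusMap_mk g hX) h)

/-- The equation satisfied by the leading coefficient of a period. -/
theorem leading_eq {y : Localization (genSub 𝓞_ℂ_[p] p)} (hy : y ≠ 0) :
    ∃ (k m : ℕ) (Z : ℂ_[p]), Z ≠ 0 ∧ ∀ (g : Gal(PadicAlgCl p/ℚ_[p])) (c : ℚ_[p]),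
      c • bdrMap p (intMap p g) y = y →
      algebraMap ℚ_[p] ℂ_[p] c * algebraMap ℚ_[p] ℂ_[p] (chiQ g) ^ m * cpMap p g Z =
        algebraMap ℚ_[p] ℂ_[p] (chiQ g) ^ k * Z := by
  obtain ⟨⟨x, s⟩, hxs⟩ := IsLocalization.surj (genSub 𝓞_ℂ_[p] p) y
  have hx0 : x ≠ 0 := by
    rintro rfl
    simp only [map_zero] at hxs
    exact hy (((IsLocalization.map_units (Localization (genSub 𝓞_ℂ_[p] p)) s).mul_left_eq_zero).1 hxs)
  obtain ⟨k, u, hu, hs⟩ := genSub_form s.2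
  obtain ⟨m, z, hz, hN⟩ := exists_leading hx0
  set D : ℂ_[p] := ((dd (1 : ℤ_[p]) : 𝓞_ℂ_[p]) : ℂ_[p]) with hD
  have hD0 : D ≠ 0 := dd_one_ne_zero
  refine ⟨k, m, z / thC p u * D ^ k / D ^ m, ?_, ?_⟩
  · exact div_ne_zero (mul_ne_zero (div_ne_zero hz hu) (pow_ne_zero _ hD0)) (pow_ne_zero _ hD0)
  intro g c hg
  obtain ⟨t, htm, ht⟩ := eq_in_plus hxs g c hg
  obtain ⟨j, v, hv, rfl⟩ := genSub_form htm
  obtain ⟨w, hw, hxw⟩ := hN (j + m + k + 1) (by omega)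
  rw [hs] at ht
  have h3 := level_eq g (qpMap 𝓞_ℂ_[p] p c) hxw ht
  rw [mem_kerT_pow_iff] at h3
  obtain ⟨q, hq⟩ := h3
  rw [map_mul, map_mul, map_pow, map_pow, gL_xiL] at hq
  have h4 : v * (qpMap 𝓞_ℂ_[p] p c * algebraMap (AI p) (LA p) (gam g) ^ m * gL g w * u) -
      v * (w * algebraMap (AI p) (LA p) (gam g) ^ k * gL g u) = xiL p * q := by
    apply mul_left_cancel₀ (pow_ne_zero (j + m + k) (xiL_ne_zero (p := p)))
    linear_combination hq
  have h5 := congrArg (thC p) h4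
  simp only [map_mul, map_sub, map_pow, thC_gL, thC_algebraMap, thC_qpMap, hw] at h5
  have h6 : thC p (xiL p) = 0 := by rw [xiL, thC_algebraMap, th_xi]; rfl
  rw [h6, zero_mul, ← mul_sub] at h5
  have h7 := (mul_eq_zero.1 h5).resolve_left hv
  rw [sub_eq_zero] at h7
  have h8 := tg_spec g
  have hgD : cpMap p g D ≠ 0 := cpMap_ne_zero g hD0
  have hgu : cpMap p g (thC p u) ≠ 0 := cpMap_ne_zero g hu
  rw [← hD] at h8
  change _ * tg g ^ m * _ * _ = _ * tg g ^ k * _ at h7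
  have h9 : tg g = algebraMap ℚ_[p] ℂ_[p] (chiQ g) * D / cpMap p g D := by
    rw [← h8]; field_simp
  rw [h9] at h7
  simp only [map_div₀, map_mul, map_pow]
  rw [div_pow, div_pow, mul_pow, mul_pow] at h7
  field_simp at h7 ⊢
  linear_combination h7

/-- A character whose `2c`-th power is the inverse of the `c`-th power of the cyclotomic
character has no nonzero period in the field of de Rham periods. -/
theorem no_period (H : Subgroup (Gal(PadicAlgCl p/ℚ_[p]))) [H.FiniteIndex] {c : ℕ} (hc : c ≠ 0)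
    (ψ : Gal(PadicAlgCl p/ℚ_[p]) → ℚ_[p]) (hψ : ∀ g ∈ H, ψ g ^ (2 * c) * chiQ g ^ c = 1)
    {y : Localization (genSub 𝓞_ℂ_[p] p)} (hy : ∀ g ∈ H, ψ g • bdrMap p (intMap p g) y = y) : y = 0 := by
  by_contra hy0
  obtain ⟨k, m, Z, hZ, h⟩ := leading_eq hy0
  have hT : Z ^ (2 * c) ≠ 0 := pow_ne_zero _ hZ
  have key : ∀ g ∈ H, algebraMap ℚ_[p] ℂ_[p] (chiQ g) ^ (2 * c * m) * cpMap p g (Z ^ (2 * c)) =
      algebraMap ℚ_[p] ℂ_[p] (chiQ g) ^ (2 * c * k + c) * Z ^ (2 * c) := by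
    intro g hg
    have h1 := congrArg (fun x => x ^ (2 * c) * algebraMap ℚ_[p] ℂ_[p] (chiQ g) ^ c)
      (h g (ψ g) (hy g hg))
    have h2 := congrArg (algebraMap ℚ_[p] ℂ_[p]) (hψ g hg)
    rw [map_mul, map_pow, map_pow, map_one] at h2
    simp only [mul_pow] at h1
    rw [map_pow]
    have e1 : ∀ a b c d e : ℂ_[p], e * d = 1 → e * a * b * d = c → a * b = c := by
      intro a b c d e h1 h2
      linear_combination h2 - a * b * h1
    have h3 := e1 _ _ _ _ _ h2 h1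
    rw [← pow_mul, ← pow_mul] at h3
    rw [mul_comm (2 * c) m, h3, pow_add, mul_comm (2 * c) k]
    ring
  have hchi : ∀ g, algebraMap ℚ_[p] ℂ_[p] (chiQ g) ≠ 0 := by
    intro g
    rw [_root_.map_ne_zero]
    exact chiQ_ne_zero g
  rcases le_or_gt m k with hmk | hmk
  · obtain ⟨d, rfl⟩ := Nat.exists_eq_add_of_le hmk
    have hn : c * (2 * d + 1) ≠ 0 := mul_ne_zero hc (by omega)
    refine hT (tate_vanish H hn fun g hg => ?_)
    have h1 := key g hg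
    rw [map_pow (algebraMap ℚ_[p] ℂ_[p])]
    apply mul_left_cancel₀ (pow_ne_zero (2 * c * m) (hchi g))
    rw [h1, ← mul_assoc, ← pow_add]
    congr 2
    ring
  · obtain ⟨d, rfl⟩ := Nat.exists_eq_add_of_lt hmk
    have hn : c * (2 * d + 1) ≠ 0 := mul_ne_zero hc (by omega)
    have h2 : (Z ^ (2 * c))⁻¹ = 0 := by
      refine tate_vanish H hn fun g hg => ?_
      have h1 := key g hg
      rw [map_pow (algebraMap ℚ_[p] ℂ_[p]), map_inv₀]
      have h3 : algebraMap ℚ_[p] ℂ_[p] (chiQ g) ^ (c * (2 * d + 1)) * cpMap p g (Z ^ (2 * c)) =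
          Z ^ (2 * c) := by
        apply mul_left_cancel₀ (pow_ne_zero (2 * c * k + c) (hchi g))
        rw [← h1, ← mul_assoc, ← pow_add]
        congr 2
        ring
      have h4 : cpMap p g (Z ^ (2 * c)) ≠ 0 := cpMap_ne_zero g hT
      have e2 : ∀ a b c : ℂ_[p], a ≠ 0 → b ≠ 0 → a * b = c → b⁻¹ = a * c⁻¹ := by
        rintro a b _ ha hb rfl
        field_simp
      exact e2 _ _ _ (pow_ne_zero _ (hchi g)) h4 h3
    exact inv_ne_zero hT h2

end Pool.Agent.W292.FM
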