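import Mathlib
import Pool.Agent.W292.FM.Scalars
import Pool.Agent.W292.FM.Galois

/-!
Definitions for `l`-adic representations of the absolute Galois group of a number field `F`:
Frobenius elements, Weil groups, Weil-Deligne representations at the places not above `l`,
de Rham representations and Hodge-Tate weights at the places above `l`.
-/

namespace Pool.Agent.W292.FM

open NumberField TensorProduct

universe u v

/-! ### Weil-Deligne representations -/

section WD

variable {G : Type u} [Group G] {l : ℕ} [Fact l.Prime] {n : ℕ}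

/-- Let `W` be the Weil group, `I` the inertia group and `Fr` the set of arithmetic Frobenius
elements of a local Galois group of residue characteristic not `l`, realised in the topological
group `G`. Then `(r, N)` is the Weil-Deligne representation attached to `ρ` by Grothendieck's
monodromy theorem; `r` is a function on `G` of which only the values on `W` matter. -/
structure IsWeilDeligne [TopologicalSpace G] (W I : Subgroup G) (Fr : Set G)
    (ρ r : G → Matrix (Fin n) (Fin n) (PadicAlgCl l))
    (N : Matrix (Fin n) (Fin n) (PadicAlgCl l)) : Prop where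
  /-- `r` is a representation of `W`. -/
  one : r 1 = 1
  mul : ∀ a ∈ W, ∀ b ∈ W, r (a * b) = r a * r b
  /-- `N` is nilpotent. -/
  nilpotent : IsNilpotent N
  /-- `r` is trivial on an open subgroup of the inertia group. -/
  smooth : ∃ U : Subgroup G, IsOpen (U : Set G) ∧ ∀ σ ∈ I, σ ∈ U → r σ = 1
  /-- There are a geometric Frobenius element `Φ` and a continuous homomorphism `t` from the
  inertia group to `ℚ_l`, nonzero unless `N = 0`, such that for all integers `a` and all `σ` in the
  inertia group `ρ (Φ ^ a σ) = r (Φ ^ a σ) exp (t (σ) N)`. -/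
  formula : ∃ Φ : G, Φ⁻¹ ∈ Fr ∧ ∃ t : G → ℚ_[l], ContinuousOn t I ∧
    (∀ a ∈ I, ∀ b ∈ I, t (a * b) = t a + t b) ∧ (N = 0 ∨ ∃ a ∈ I, t a ≠ 0) ∧
      ∀ (a : ℤ), ∀ σ ∈ I, ρ (Φ ^ a * σ) =
        r (Φ ^ a * σ) * IsNilpotent.exp (algebraMap ℚ_[l] (PadicAlgCl l) (t σ) • N)

/-- Every eigenvalue of a geometric Frobenius element under `r` is an algebraic integer. -/
def IsIntegralWD (Fr : Set G) (r : G → Matrix (Fin n) (Fin n) (PadicAlgCl l)) : Prop :=
  ∀ Φ : G, Φ⁻¹ ∈ Fr → ∀ (α : PadicAlgCl l) (x : Fin n → PadicAlgCl l), x ≠ 0 →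
    (r Φ).mulVec x = α • x → IsIntegral ℤ α

/-- `M` is the monodromy filtration of the nilpotent endomorphism `N`: an increasing exhaustive
and separated filtration with `N M_j ⊆ M_(j-2)` such that `N ^ j` induces an isomorphism
from `M_j / M_(j-1)` to `M_(-j) / M_(-j-1)` for `j ≥ 0`. -/
structure IsMonodromyFiltration {K : Type u} {V : Type v} [Field K] [AddCommGroup V] [Module K V]
    (N : V →ₗ[K] V) (M : ℤ → Submodule K V) : Prop where
  mono : Monotone M
  bot : ∃ a, M a = ⊥
  top : ∃ b, M b = ⊤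
  map : ∀ j, ∀ x ∈ M j, N x ∈ M (j - 2)
  inj : ∀ j : ℕ, ∀ x ∈ M j, (N ^ j) x ∈ M (-j - 1) → x ∈ M (j - 1)
  surj : ∀ j : ℕ, ∀ y ∈ M (-j), ∃ x ∈ M j, y - (N ^ j) x ∈ M (-j - 1)

/-- `α` is an algebraic number all of whose complex conjugates have absolute value
`q ^ (k / 2)`. -/
def IsWeilNumber (q : ℕ) (k : ℤ) (α : PadicAlgCl l) : Prop :=
  IsAlgebraic ℚ α ∧
    ∀ z : ℂ, Polynomial.aeval z (minpoly ℚ α) = 0 → ‖z‖ = (q : ℝ) ^ ((k : ℝ) / 2)

/-- For the monodromy filtration `M` of `N` and all `T` satisfying `Tr` the eigenvalues `α` of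
`T` on the `j`-th graded piece of `M` satisfy `Q j α`. -/
def GradedEigen {K : Type u} {V : Type v} [Field K] [AddCommGroup V] [Module K V]
    (N : V →ₗ[K] V) (Tr : (V →ₗ[K] V) → Prop) (Q : ℤ → K → Prop) : Prop :=
  ∃ M : ℤ → Submodule K V, IsMonodromyFiltration N M ∧ ∀ T, Tr T → ∀ (j : ℤ) (α : K) (x : V),
    x ∈ M j → x ∉ M (j - 1) → T x - α • x ∈ M (j - 1) → Q j α

/-- `(r, N)` is pure of weight `w`, for a residue field with `q` elements: the eigenvalues of the
geometric Frobenius elements on the `j`-th graded piece of the monodromy filtration of `N` are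
algebraic numbers all of whose complex conjugates have absolute value `q ^ ((w + j) / 2)`. -/
def IsPureWD (Fr : Set G) (q : ℕ) (r : G → Matrix (Fin n) (Fin n) (PadicAlgCl l))
    (N : Matrix (Fin n) (Fin n) (PadicAlgCl l)) (w : ℤ) : Prop :=
  GradedEigen (Matrix.mulVecLin N) (fun T => ∃ Φ : G, Φ⁻¹ ∈ Fr ∧ T = Matrix.mulVecLin (r Φ))
    (fun j α => IsWeilNumber q (w + j) α)

/-- The representation of `G` on column vectors given by `ρ` is irreducible. -/
def IsIrred (ρ : G →* GL (Fin n) (PadicAlgCl l)) : Prop :=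
  0 < n ∧ ∀ V : Submodule (PadicAlgCl l) (Fin n → PadicAlgCl l),
    (∀ σ, ∀ x ∈ V, (ρ σ : Matrix (Fin n) (Fin n) (PadicAlgCl l)).mulVec x ∈ V) → V = ⊥ ∨ V = ⊤

end WD

/-! ### Places not above `l` -/

section Away

variable (F : Type u) [Field F]

/-- The number of elements of the residue field of the place of `F` below the prime `P` of the
ring of all algebraic integers of `AlgebraicClosure F`. -/
noncomputable def resCard (P : Ideal (𝓞 (AlgebraicClosure F))) : ℕ :=
  Nat.card (𝓞 F ⧸ P.under (𝓞 F))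

/-- The arithmetic Frobenius elements at `P`: they act on the residue ring of `P` as
`x ↦ x ^ q`, where `q` is the number of elements of the residue field of `F` below `P`. -/
def frobs (P : Ideal (𝓞 (AlgebraicClosure F))) : Set (Gal(AlgebraicClosure F/F)) :=
  {σ | ∀ x : 𝓞 (AlgebraicClosure F), σ • x - x ^ resCard F P ∈ P}

/-- The Weil group at `P`: the subgroup generated by the Frobenius elements at `P`. -/
noncomputable def weil (P : Ideal (𝓞 (AlgebraicClosure F))) :
    Subgroup (Gal(AlgebraicClosure F/F)) :=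
  Subgroup.closure (frobs F P)

/-- The inertia group at `P`. -/
noncomputable def inert (P : Ideal (𝓞 (AlgebraicClosure F))) :
    Subgroup (Gal(AlgebraicClosure F/F)) :=
  P.inertia (Gal(AlgebraicClosure F/F))

variable {F} {l : ℕ} [Fact l.Prime] {n : ℕ}

/-- `ρ` is unramified outside a finite set of places of `F`. -/
def UnramifiedAE (ρ : Gal(AlgebraicClosure F/F) →* GL (Fin n) (PadicAlgCl l)) : Prop :=
  ∃ S : Set (Ideal (𝓞 F)), S.Finite ∧ ∀ P : Ideal (𝓞 (AlgebraicClosure F)), P.IsPrime → P ≠ ⊥ →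
    P.under (𝓞 F) ∉ S → ∀ σ ∈ inert F P, ρ σ = 1

/-- Condition 2: there is an integer `w` such that at every finite place not above `l` the attached
Weil-Deligne representation is integral and pure of weight `w`. -/
def PureIntegral (ρ : Gal(AlgebraicClosure F/F) →* GL (Fin n) (PadicAlgCl l)) : Prop :=
  ∃ w : ℤ, ∀ P : Ideal (𝓞 (AlgebraicClosure F)), P.IsPrime → P ≠ ⊥ →
    (l : 𝓞 (AlgebraicClosure F)) ∉ P →
      ∃ (r : Gal(AlgebraicClosure F/F) → Matrix (Fin n) (Fin n) (PadicAlgCl l))
        (N : Matrix (Fin n) (Fin n) (PadicAlgCl l)),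
        IsWeilDeligne (weil F P) (inert F P) (frobs F P) (fun σ => (ρ σ).val) r N ∧
          IsIntegralWD (frobs F P) r ∧ IsPureWD (frobs F P) (resCard F P) r N w

end Away

/-! ### Places above `l` -/

section Periods

variable {k : Type*} {K : Type*} {V : Type*} {B : Type*} {B' : Type*} [Field k] [Field K]
  [Algebra k K] [AddCommGroup V] [Module k V] [Module K V] [IsScalarTower k K V]
  [CommRing B] [Algebra k B] [CommRing B'] [Algebra k B']

/-- The elements of `V ⊗ B` (tensor product over `k`) fixed by `A ⊗ g` for all pairs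
`(A, g)` satisfying `S`. -/
noncomputable def fixedPart (S : (V →ₗ[K] V) → (B →ₐ[k] B) → Prop) : Submodule K (V ⊗[k] B) :=
  ⨅ (A : V →ₗ[K] V) (g : B →ₐ[k] B) (_ : S A g), LinearMap.eqLocus
    (TensorProduct.AlgebraTensorModule.map A g.toLinearMap) LinearMap.id

/-- The dimension over `K` of the fixed part. -/
noncomputable def fixedDim (S : (V →ₗ[K] V) → (B →ₐ[k] B) → Prop) : ℕ :=
  Module.finrank K (fixedPart S)

/-- The fixed part is contained in the image of `V ⊗ B'`. -/
def FixedIn (j : B' →ₐ[k] B) (S : (V →ₗ[K] V) → (B →ₐ[k] B) → Prop) : Prop :=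
  fixedPart S ≤ LinearMap.range (TensorProduct.AlgebraTensorModule.map
    (LinearMap.id : V →ₗ[K] V) j.toLinearMap)

end Periods

section DeRham

variable (R : Type u) [CommRing R] (p : ℕ) [Fact p.Prime] [Fact (¬ IsUnit (p : R))]
  [IsAdicComplete (Ideal.span {(p : R)}) R] {K V : Type*} [Field K] [Algebra ℚ_[p] K]
  [AddCommGroup V] [Module ℚ_[p] V] [Module K V] [IsScalarTower ℚ_[p] K V]

/-- Let the automorphisms of `R` act on the field of de Rham periods
`BDeRham R p = Localization (genSub R p)` by functoriality. -/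
def PeriodRel (S : (V →ₗ[K] V) → (R ≃+* R) → Prop) (A : V →ₗ[K] V)
    (g : Localization (genSub R p) →ₐ[ℚ_[p]] Localization (genSub R p)) : Prop :=
  ∃ e : R ≃+* R, S A e ∧ g = bdrAlg p e

/-- The dimension over `K` of the space of elements of `V ⊗ B_dR` fixed by `S`. -/
noncomputable def dRDim (S : (V →ₗ[K] V) → (R ≃+* R) → Prop) : ℕ :=
  fixedDim (PeriodRel R p S)

/-- The elements of `V ⊗ B_dR` fixed by `S` lie in `V ⊗ B_dR^+`. -/
def DRInPlus (S : (V →ₗ[K] V) → (R ≃+* R) → Prop) : Prop :=
  FixedIn (IsScalarTower.toAlgHom ℚ_[p] (BDeRhamPlus R p) (Localization (genSub R p)))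
    (PeriodRel R p S)

end DeRham

section Above

variable {F : Type u} [Field F] {l : ℕ} [Fact l.Prime] {n : ℕ}

/-- The pairs `(ρ σ, g)`, where `g` runs through the decomposition group attached to the embedding
`ι` of `AlgebraicClosure F` into the algebraic closure of `ℚ_l`, i.e. the Galois
group of the completion of `F`, and `σ` is the corresponding element of the absolute Galois
group of `F`: `ι ∘ σ = g ∘ ι`. Here `g` acts on the ring of integers of `ℂ_[l]`. -/
inductive DecPair (ρ : Gal(AlgebraicClosure F/F) →* GL (Fin n) (PadicAlgCl l))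
    (ι : AlgebraicClosure F →+* PadicAlgCl l) :
    ((Fin n → PadicAlgCl l) →ₗ[PadicAlgCl l] (Fin n → PadicAlgCl l)) →
      (𝓞_ℂ_[l] ≃+* 𝓞_ℂ_[l]) → Prop
  | mk (g : Gal(PadicAlgCl l/ℚ_[l])) (σ : Gal(AlgebraicClosure F/F))
      (h : ∀ a, ι (σ a) = g (ι a)) : DecPair ρ ι (Matrix.mulVecLin (ρ σ).val) (intMap l g)

/-- The degree over `ℚ_l` of the completion of `F` at the place defined by `ι`. -/
noncomputable def locDeg (ι : AlgebraicClosure F →+* PadicAlgCl l) : ℕ :=
  Module.finrank ℚ_[l] (IntermediateField.adjoin ℚ_[l]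
    (Set.range fun a : F => ι (algebraMap F (AlgebraicClosure F) a)))

/-- `ρ` is de Rham at the place defined by `ι`. -/
def IsDeRhamAt (ρ : Gal(AlgebraicClosure F/F) →* GL (Fin n) (PadicAlgCl l))
    (ι : AlgebraicClosure F →+* PadicAlgCl l) : Prop :=
  dRDim 𝓞_ℂ_[l] l (DecPair ρ ι) = n * locDeg ι

/-- The filtration of `D_dR` has no jump in negative degree: all Hodge-Tate weights, normalised so
that the cyclotomic character has weight `-1`, are nonnegative. -/
def HTNonneg (ρ : Gal(AlgebraicClosure F/F) →* GL (Fin n) (PadicAlgCl l))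
    (ι : AlgebraicClosure F →+* PadicAlgCl l) : Prop :=
  DRInPlus 𝓞_ℂ_[l] l (DecPair ρ ι)

/-- Condition 1: at every place above `l` the representation is de Rham with nonnegative
Hodge-Tate weights. -/
def DeRhamNonneg (ρ : Gal(AlgebraicClosure F/F) →* GL (Fin n) (PadicAlgCl l)) : Prop :=
  ∀ ι : AlgebraicClosure F →+* PadicAlgCl l, IsDeRhamAt ρ ι ∧ HTNonneg ρ ι

end Above

end Pool.Agent.W292.FM
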