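import Mathlib
import Pool.Agent.W292.FM.Defs

/-!
Existence of Frobenius elements in the absolute Galois group of a number field.
-/

set_option linter.unusedSectionVars false

namespace Pool.Agent.W292.FM

open NumberField

universe u

/-- The absolute Galois group of `F`. -/
abbrev GF (F : Type u) [Field F] := Gal(AlgebraicClosure F/F)

variable {F : Type u} [Field F]

theorem coe_smul_int (σ : GF F) (x : 𝓞 (AlgebraicClosure F)) :
    ((σ • x : 𝓞 (AlgebraicClosure F)) : AlgebraicClosure F) = σ (x : AlgebraicClosure F) := rfl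

theorem coe_algebraMap_int (a : 𝓞 F) :
    ((algebraMap (𝓞 F) (𝓞 (AlgebraicClosure F)) a : 𝓞 (AlgebraicClosure F)) : AlgebraicClosure F) =
      algebraMap F (AlgebraicClosure F) (a : F) := rfl

instance smulComm : SMulCommClass (GF F) (𝓞 F) (𝓞 (AlgebraicClosure F)) := by
  constructor
  intro σ a x
  rw [Algebra.smul_def, Algebra.smul_def, MulSemiringAction.smul_mul]
  congr 1
  apply RingOfIntegers.ext
  rw [coe_smul_int, coe_algebraMap_int, AlgEquiv.commutes]

variable [NumberField F]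

instance isInv : Algebra.IsInvariant (𝓞 F) (𝓞 (AlgebraicClosure F)) (GF F) := by
  constructor
  intro b hb
  have h1 : ∀ σ : GF F, σ (b : AlgebraicClosure F) = b := by
    intro σ
    rw [← coe_smul_int, hb σ]
  have h2 := (InfiniteGalois.mem_range_algebraMap_iff_fixed (k := F) (K := AlgebraicClosure F)
    (b : AlgebraicClosure F)).2 h1
  obtain ⟨a, ha⟩ := h2
  have h3 : IsIntegral ℤ a := by
    have h4 : IsIntegral ℤ (b : AlgebraicClosure F) := RingOfIntegers.isIntegral_coe b
    rw [← ha] at h4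
    exact (isIntegral_algebraMap_iff (FaithfulSMul.algebraMap_injective F (AlgebraicClosure F))).1 h4
  exact ⟨⟨a, h3⟩, RingOfIntegers.ext ha⟩

theorem isIntegral_int : Algebra.IsIntegral (𝓞 F) (𝓞 (AlgebraicClosure F)) := by
  constructor
  intro x
  have h : IsIntegral ℤ x := RingOfIntegers.isIntegral x
  exact h.tower_top

theorem under_ne_bot {P : Ideal (𝓞 (AlgebraicClosure F))} (h0 : P ≠ ⊥) :
    P.under (𝓞 F) ≠ ⊥ := by
  have := isIntegral_int (F := F)
  exact Ideal.IsIntegral.comap_ne_bot (𝓞 F) h0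

attribute [local instance] Ideal.Quotient.field in
theorem exists_frobEquiv {P : Ideal (𝓞 (AlgebraicClosure F))} (hP : P.IsPrime) (h0 : P ≠ ⊥) :
    ∃ e : (𝓞 (AlgebraicClosure F) ⧸ P) ≃ₐ[𝓞 F ⧸ P.under (𝓞 F)] (𝓞 (AlgebraicClosure F) ⧸ P),
      ∀ x, e x = x ^ resCard F P := by
  have hp : (P.under (𝓞 F)).IsPrime := inferInstance
  have hp0 := under_ne_bot h0
  have hmax : (P.under (𝓞 F)).IsMaximal := hp.isMaximal hp0
  have hfin : Finite (𝓞 F ⧸ P.under (𝓞 F)) := inferInstance
  cases nonempty_fintype (𝓞 F ⧸ P.under (𝓞 F))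
  obtain ⟨p, hc⟩ := CharP.exists (𝓞 F ⧸ P.under (𝓞 F))
  obtain ⟨k, hpp, hk⟩ := FiniteField.card (𝓞 F ⧸ P.under (𝓞 F)) p
  have hcP := CharP.of_ringHom_of_ne_zero
    (algebraMap (𝓞 F ⧸ P.under (𝓞 F)) (𝓞 (AlgebraicClosure F) ⧸ P)) p hpp.ne_zero
  have hexp : ExpChar (𝓞 (AlgebraicClosure F) ⧸ P) p := .prime hpp
  have hq : resCard F P = p ^ (k : ℕ) := by
    rw [resCard, Nat.card_eq_fintype_card, hk]
  have hq0 : resCard F P ≠ 0 := by rw [hq]; exact pow_ne_zero _ hpp.ne_zero
  let f : (𝓞 (AlgebraicClosure F) ⧸ P) →+* (𝓞 (AlgebraicClosure F) ⧸ P) := iterateFrobenius _ p k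
  have hf : ∀ x, f x = x ^ resCard F P := by
    intro x
    rw [hq]
    exact iterateFrobenius_def p k x
  have hbij : Function.Bijective f := by
    constructor
    · rw [injective_iff_map_eq_zero]
      intro x hx
      rw [hf] at hx
      exact eq_zero_of_pow_eq_zero hx
    · intro y
      obtain ⟨b, rfl⟩ := Ideal.Quotient.mk_surjective y
      obtain ⟨c, hc⟩ := IsAlgClosed.exists_pow_nat_eq (b : AlgebraicClosure F)
        (Nat.pos_of_ne_zero hq0)
      have hci : IsIntegral ℤ c := by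
        have : IsIntegral ℤ (c ^ resCard F P) := by rw [hc]; exact RingOfIntegers.isIntegral_coe b
        exact IsIntegral.of_pow (Nat.pos_of_ne_zero hq0) this
      obtain ⟨c', hc'⟩ : ∃ c' : 𝓞 (AlgebraicClosure F), (c' : AlgebraicClosure F) = c := ⟨⟨c, hci⟩, rfl⟩
      refine ⟨Ideal.Quotient.mk P c', ?_⟩
      rw [hf, ← map_pow]
      congr 1
      apply RingOfIntegers.ext
      rw [← hc, ← hc']
      exact map_pow (algebraMap (𝓞 (AlgebraicClosure F)) (AlgebraicClosure F)) c' _
  refine ⟨AlgEquiv.ofRingEquiv (f := RingEquiv.ofBijective f hbij) ?_, hf⟩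
  intro r
  change f _ = _
  rw [hf, ← map_pow, resCard, Nat.card_eq_fintype_card, FiniteField.pow_card]

theorem exists_frob {P : Ideal (𝓞 (AlgebraicClosure F))} (hP : P.IsPrime) (h0 : P ≠ ⊥) :
    ∃ σ : GF F, σ ∈ frobs F P := by
  obtain ⟨e, he⟩ := exists_frobEquiv hP h0
  let _ : TopologicalSpace (𝓞 (AlgebraicClosure F)) := ⊥
  have _ : DiscreteTopology (𝓞 (AlgebraicClosure F)) := ⟨rfl⟩
  have hcs : ContinuousSMul (GF F) (𝓞 (AlgebraicClosure F)) := by
    rw [continuousSMul_iff_stabilizer_isOpen]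
    intro x
    have h := stabilizer_isOpen_of_isIntegral (K := F) (L := AlgebraicClosure F)
      (x : AlgebraicClosure F)
    convert h using 1
    ext σ
    simp only [SetLike.mem_coe, MulAction.mem_stabilizer_iff]
    constructor
    · intro h; exact congrArg (fun y : 𝓞 (AlgebraicClosure F) => (y : AlgebraicClosure F)) h
    · intro h; exact RingOfIntegers.ext h
  obtain ⟨σ, hσ⟩ := Ideal.Quotient.stabilizerHom_surjective_of_profinite (G := GF F)
    (P.under (𝓞 F)) P e
  refine ⟨σ, fun x => ?_⟩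
  rw [← Ideal.Quotient.eq, map_pow, ← he, ← hσ]
  rfl

end Pool.Agent.W292.FM
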