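import Mathlib
import Pool.Agent.W292.FM.Frob
import Pool.Agent.W292.FM.Chi

/-!
The `l`-adic cyclotomic character of the absolute Galois group of a number field: its values at
Frobenius elements and on inertia groups, and its restriction to decomposition groups above `l`.
-/

set_option linter.unusedSectionVars false

namespace Pool.Agent.W292.FM

open NumberField

universe u

section General
variable {L : Type*} [Field L] {p : ℕ} [hp : Fact p.Prime] [∀ i, HasEnoughRootsOfUnity L (p ^ i)]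

theorem cyc_toZModPow_of_apply (g : L ≃+* L) {m : ℕ} {z : L}
    (hz : IsPrimitiveRoot z (p ^ m)) {a : ℕ} (h : g z = z ^ a) :
    (cyclotomicCharacter L p g : ℤ_[p]).toZModPow m = (a : ZMod (p ^ m)) := by
  have : NeZero (p ^ m) := ⟨pow_ne_zero _ hp.out.ne_zero⟩
  have h1 := cyclotomicCharacter.spec p g z hz.pow_eq_one
  rw [h] at h1
  have h2 : a ≡ ((cyclotomicCharacter L p g : ℤ_[p]).toZModPow m).val [MOD p ^ m] := by
    have hpos : 0 < p ^ m := pow_pos hp.out.pos _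
    rw [pow_eq_pow_mod a hz.pow_eq_one,
      pow_eq_pow_mod ((cyclotomicCharacter L p g : ℤ_[p]).toZModPow m).val hz.pow_eq_one] at h1
    exact hz.pow_inj (Nat.mod_lt _ hpos) (Nat.mod_lt _ hpos) h1
  have h3 := (ZMod.natCast_eq_natCast_iff _ _ _).2 h2
  rw [ZMod.natCast_zmod_val] at h3
  exact h3.symm

theorem cyc_eq_natCast (g : L ≃+* L) (a : ℕ)
    (h : ∀ (m : ℕ) (t : L), t ^ p ^ m = 1 → g t = t ^ a) :
    (cyclotomicCharacter L p g : ℤ_[p]) = (a : ℤ_[p]) := by
  refine PadicInt.ext_of_toZModPow.1 fun m => ?_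
  have : NeZero (p ^ m) := ⟨pow_ne_zero _ hp.out.ne_zero⟩
  obtain ⟨z, hz⟩ := HasEnoughRootsOfUnity.exists_primitiveRoot L (p ^ m)
  rw [cyc_toZModPow_of_apply g hz (h m z hz.pow_eq_one), map_natCast]

end General

variable {F : Type u} [Field F] [NumberField F] {l : ℕ} [hl : Fact l.Prime]

instance enoughF (i : ℕ) : HasEnoughRootsOfUnity (AlgebraicClosure F) (l ^ i) := by
  have : NeZero (l ^ i) := ⟨pow_ne_zero _ hl.out.ne_zero⟩
  infer_instance

variable (F l) in
/-- The `l`-adic cyclotomic character of the absolute Galois group of `F`. -/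
noncomputable def chiF : GF F →* ℤ_[l]ˣ :=
  (cyclotomicCharacter (AlgebraicClosure F) l).comp
    (MulSemiringAction.toRingAut (GF F) (AlgebraicClosure F))

theorem continuous_chiF : Continuous (chiF F l) :=
  cyclotomicCharacter.continuous l F (AlgebraicClosure F)

theorem chiF_frob {P : Ideal (𝓞 (AlgebraicClosure F))} (hP : P.IsPrime)
    (hlP : (l : 𝓞 (AlgebraicClosure F)) ∉ P) {σ : GF F} (hσ : σ ∈ frobs F P) :
    (chiF F l σ : ℤ_[l]) = (resCard F P : ℤ_[l]) := by
  refine cyc_eq_natCast _ _ fun m t ht => ?_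
  have hti : IsIntegral ℤ t :=
    IsIntegral.of_pow (pow_pos hl.out.pos m) (by rw [ht]; exact isIntegral_one)
  obtain ⟨t', rfl⟩ : ∃ t' : 𝓞 (AlgebraicClosure F), (t' : AlgebraicClosure F) = t :=
    ⟨⟨t, hti⟩, rfl⟩
  have ht' : t' ^ l ^ m = 1 := by
    apply RingOfIntegers.ext
    exact ((map_pow (algebraMap (𝓞 (AlgebraicClosure F)) (AlgebraicClosure F)) t' _).trans ht).trans
      (map_one (algebraMap (𝓞 (AlgebraicClosure F)) (AlgebraicClosure F))).symm
  have hmem : ((l ^ m : ℕ) : 𝓞 (AlgebraicClosure F)) ∉ P := by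
    rw [Nat.cast_pow]
    exact fun h => hlP (hP.mem_of_pow_mem m h)
  have hA : (MulSemiringAction.toAlgHom (𝓞 F) (𝓞 (AlgebraicClosure F)) σ).IsArithFrobAt P := hσ
  have h := hA.apply_of_pow_eq_one ht' hmem
  have h2 := congrArg (fun y : 𝓞 (AlgebraicClosure F) => (y : AlgebraicClosure F)) h
  exact h2.trans (map_pow (algebraMap (𝓞 (AlgebraicClosure F)) (AlgebraicClosure F)) t' _)

theorem isFrob_mul_inertia {P : Ideal (𝓞 (AlgebraicClosure F))} {Φ σ : GF F}
    (hΦ : Φ ∈ frobs F P) (hσ : σ ∈ inert F P) : Φ * σ ∈ frobs F P := by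
  intro x
  have h1 := hΦ (σ • x)
  have h2 : Ideal.Quotient.mk P (σ • x) = Ideal.Quotient.mk P x :=
    Ideal.Quotient.eq.2 (hσ x)
  rw [← Ideal.Quotient.eq] at h1 ⊢
  rw [mul_smul, h1, map_pow, h2, map_pow]

theorem chiF_inertia {P : Ideal (𝓞 (AlgebraicClosure F))} (hP : P.IsPrime) (h0 : P ≠ ⊥)
    (hlP : (l : 𝓞 (AlgebraicClosure F)) ∉ P) {σ : GF F} (hσ : σ ∈ inert F P) :
    chiF F l σ = 1 := by
  obtain ⟨Φ, hΦ⟩ := exists_frob hP h0
  have h1 := chiF_frob hP hlP hΦ
  have h2 := chiF_frob hP hlP (isFrob_mul_inertia hΦ hσ)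
  have h3 : chiF F l (Φ * σ) = chiF F l Φ := Units.ext (h2.trans h1.symm)
  rw [map_mul] at h3
  exact mul_eq_left.1 h3

theorem chiF_eq_chiL (ι : AlgebraicClosure F →+* PadicAlgCl l) {g : Gal(PadicAlgCl l/ℚ_[l])}
    {σ : GF F} (h : ∀ a, ι (σ a) = g (ι a)) : chiF F l σ = chiL g := by
  apply Units.ext
  refine PadicInt.ext_of_toZModPow.1 fun m => ?_
  have : NeZero (l ^ m) := ⟨pow_ne_zero _ hl.out.ne_zero⟩
  obtain ⟨z, hz⟩ := HasEnoughRootsOfUnity.exists_primitiveRoot (AlgebraicClosure F) (l ^ m)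
  have hz2 : IsPrimitiveRoot (ι z) (l ^ m) := hz.map_of_injective ι.injective
  have h1 : σ z = z ^ ((chiF F l σ : ℤ_[l]).toZModPow m).val :=
    cyclotomicCharacter.spec l (MulSemiringAction.toRingAut (GF F) (AlgebraicClosure F) σ) z
      hz.pow_eq_one
  have h2 : g (ι z) = (ι z) ^ ((chiF F l σ : ℤ_[l]).toZModPow m).val := by
    rw [← h, h1, map_pow]
  rw [chiL_toZModPow_of_apply g hz2 h2, ZMod.natCast_zmod_val]

end Pool.Agent.W292.FM
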