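import Mathlib

/-!
A continuous character `κ` of the unit group of `ℤ_l` with values in the algebraic closure
of `ℚ_l` whose square is the identity on an open subgroup.
-/

set_option linter.unusedSectionVars false

namespace Pool.Agent.W292.FM

variable {l : ℕ} [hl : Fact l.Prime]

theorem two_ne_zero_zl : (2 : ℤ_[l]) ≠ 0 := by
  have : CharZero ℤ_[l] := inferInstance
  exact two_ne_zero

theorem norm_two_pos : 0 < ‖(2 : ℤ_[l])‖ := norm_pos_iff.2 two_ne_zero_zl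

theorem norm_two_le : ‖(2 : ℤ_[l])‖ ≤ 1 := PadicInt.norm_le_one _

theorem exists_sqrt {x : ℤ_[l]} (hx : ‖x - 1‖ < ‖(2 : ℤ_[l])‖ ^ 2) :
    ∃ z : ℤ_[l], z ^ 2 = x ∧ ‖z - 1‖ < ‖(2 : ℤ_[l])‖ := by
  have h1 : Polynomial.aeval (1 : ℤ_[l])
      (Polynomial.derivative (Polynomial.X ^ 2 - Polynomial.C x : Polynomial ℤ_[l])) = 2 := by
    simp
    norm_num
  have h2 : Polynomial.aeval (1 : ℤ_[l]) (Polynomial.X ^ 2 - Polynomial.C x : Polynomial ℤ_[l]) =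
      1 - x := by simp
  obtain ⟨z, hz, hz1, _⟩ := hensels_lemma (p := l) (R := ℤ_[l])
    (F := (Polynomial.X ^ 2 - Polynomial.C x : Polynomial ℤ_[l])) (a := 1) (by
      rw [h1, h2, norm_sub_rev]; exact hx)
  refine ⟨z, ?_, ?_⟩
  · have : z ^ 2 - x = 0 := by simpa using hz
    exact sub_eq_zero.1 this
  · rw [h1] at hz1; exact hz1

theorem norm_add_eq {z z' : ℤ_[l]} (hz : ‖z - 1‖ < ‖(2 : ℤ_[l])‖) (hz' : ‖z' - 1‖ < ‖(2 : ℤ_[l])‖) :
    ‖z + z'‖ = ‖(2 : ℤ_[l])‖ := by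
  have e : z + z' = 2 + ((z - 1) + (z' - 1)) := by ring
  have h : ‖(z - 1) + (z' - 1)‖ < ‖(2 : ℤ_[l])‖ :=
    lt_of_le_of_lt (PadicInt.nonarchimedean _ _) (max_lt hz hz')
  rw [e, PadicInt.norm_add_eq_max_of_ne h.ne', max_eq_left h.le]

theorem sqrt_unique {z z' : ℤ_[l]} (h : z ^ 2 = z' ^ 2) (hz : ‖z - 1‖ < ‖(2 : ℤ_[l])‖)
    (hz' : ‖z' - 1‖ < ‖(2 : ℤ_[l])‖) : z = z' := by
  have h1 : (z - z') * (z + z') = 0 := by linear_combination h
  have h2 : z + z' ≠ 0 := by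
    rw [← norm_pos_iff, norm_add_eq hz hz']; exact norm_two_pos
  exact sub_eq_zero.1 ((mul_eq_zero.1 h1).resolve_right h2)

theorem norm_unit (x : ℤ_[l]ˣ) : ‖(x : ℤ_[l])‖ = 1 := PadicInt.norm_units x

theorem norm_mul_sub_one {x y : ℤ_[l]} {r : ℝ} (hx : ‖x - 1‖ < r) (hy : ‖y - 1‖ < r) :
    ‖x * y - 1‖ < r := by
  have e : x * y - 1 = x * (y - 1) + (x - 1) := by ring
  rw [e]
  refine lt_of_le_of_lt (PadicInt.nonarchimedean _ _) (max_lt ?_ hx)
  rw [norm_mul]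
  exact lt_of_le_of_lt (mul_le_of_le_one_left (norm_nonneg _) (PadicInt.norm_le_one _)) hy

variable (l) in
/-- The units close to `1`. -/
def US : Subgroup ℤ_[l]ˣ where
  carrier := {x | ‖(x : ℤ_[l]) - 1‖ < ‖(2 : ℤ_[l])‖ ^ 2}
  mul_mem' {x y} hx hy := by
    simp only [Set.mem_ofPred_eq, Units.val_mul] at *
    exact norm_mul_sub_one hx hy
  one_mem' := by
    simp only [Set.mem_ofPred_eq, Units.val_one, sub_self, norm_zero]
    exact pow_pos norm_two_pos 2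
  inv_mem' {x} hx := by
    simp only [Set.mem_ofPred_eq] at *
    have e : ((x⁻¹ : ℤ_[l]ˣ) : ℤ_[l]) - 1 = -(((x⁻¹ : ℤ_[l]ˣ) : ℤ_[l]) * ((x : ℤ_[l]) - 1)) := by
      rw [mul_sub, Units.inv_mul]; ring
    rw [e, norm_neg, norm_mul, norm_unit, one_mul]
    exact hx

theorem mem_US {x : ℤ_[l]ˣ} : x ∈ US l ↔ ‖(x : ℤ_[l]) - 1‖ < ‖(2 : ℤ_[l])‖ ^ 2 := Iff.rfl

theorem isOpen_US : IsOpen (US l : Set ℤ_[l]ˣ) := by
  have h : Continuous fun x : ℤ_[l]ˣ => ‖(x : ℤ_[l]) - 1‖ :=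
    (Units.continuous_val.sub continuous_const).norm
  exact isOpen_lt h continuous_const

theorem exists_sqrt_unit (x : US l) : ∃ z : ℤ_[l]ˣ, z ^ 2 = (x : ℤ_[l]ˣ) ∧
    ‖(z : ℤ_[l]) - 1‖ < ‖(2 : ℤ_[l])‖ := by
  obtain ⟨z, hz, hz1⟩ := exists_sqrt (mem_US.1 x.2)
  have hu : IsUnit z := by
    have : IsUnit (z ^ 2) := by rw [hz]; exact Units.isUnit _
    exact (isUnit_pow_iff two_ne_zero).1 this
  obtain ⟨u, rfl⟩ := hu
  exact ⟨u, Units.ext (by simpa using hz), hz1⟩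

/-- The square root on `US l`. -/
noncomputable def sqU (x : US l) : ℤ_[l]ˣ := (exists_sqrt_unit x).choose

theorem sqU_sq (x : US l) : sqU x ^ 2 = (x : ℤ_[l]ˣ) := (exists_sqrt_unit x).choose_spec.1

theorem sqU_near (x : US l) : ‖(sqU x : ℤ_[l]) - 1‖ < ‖(2 : ℤ_[l])‖ :=
  (exists_sqrt_unit x).choose_spec.2

theorem sqU_mul (x y : US l) : sqU (x * y) = sqU x * sqU y := by
  apply Units.ext
  refine sqrt_unique ?_ (sqU_near _) ?_
  · have h1 := sqU_sq (x * y)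
    have h2 : (sqU x * sqU y) ^ 2 = ((x * y : US l) : ℤ_[l]ˣ) := by
      rw [mul_pow, sqU_sq, sqU_sq]; rfl
    have h3 := congrArg (fun u : ℤ_[l]ˣ => (u : ℤ_[l])) (h1.trans h2.symm)
    simpa using h3
  · rw [Units.val_mul]
    exact norm_mul_sub_one (sqU_near x) (sqU_near y)

variable (l) in
/-- The square root as a homomorphism. -/
noncomputable def sqHom : US l →* ℤ_[l]ˣ := MonoidHom.mk' sqU sqU_mul

theorem norm_sqU (x : US l) :
    ‖(sqU x : ℤ_[l]) - 1‖ * ‖(2 : ℤ_[l])‖ = ‖((x : ℤ_[l]ˣ) : ℤ_[l]) - 1‖ := by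
  have h1 : ‖(sqU x : ℤ_[l]) + 1‖ = ‖(2 : ℤ_[l])‖ :=
    norm_add_eq (sqU_near x) (by simp)
  rw [← h1, ← norm_mul]
  congr 1
  have h2 := congrArg (fun u : ℤ_[l]ˣ => (u : ℤ_[l])) (sqU_sq x)
  simp only [Units.val_pow_eq_pow_val] at h2
  rw [← h2]; ring

variable (l) in
/-- The inclusion of `ℤ_l` in the algebraic closure of `ℚ_l`. -/
noncomputable def incl : ℤ_[l] →+* PadicAlgCl l :=
  (algebraMap ℚ_[l] (PadicAlgCl l)).comp (algebraMap ℤ_[l] ℚ_[l])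

theorem norm_incl (x : ℤ_[l]) : ‖incl l x‖ = ‖x‖ := by
  change ‖algebraMap ℚ_[l] (PadicAlgCl l) (x : ℚ_[l])‖ = ‖x‖
  rw [norm_algebraMap', PadicInt.norm_def]

noncomputable instance divisible_units : DivisibleBy (Additive (PadicAlgCl l)ˣ) ℤ := by
  have h : RootableBy (PadicAlgCl l)ˣ ℕ := rootableByOfPowLeftSurj _ _ (fun {n} hn x => by
    obtain ⟨z, hz⟩ := IsAlgClosed.exists_pow_nat_eq (x : PadicAlgCl l) (Nat.pos_of_ne_zero hn)
    have hz0 : z ≠ 0 := by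
      rintro rfl
      rw [zero_pow hn] at hz
      exact x.ne_zero hz.symm
    exact ⟨Units.mk0 z hz0, Units.ext (by simpa using hz)⟩)
  have h2 : RootableBy (PadicAlgCl l)ˣ ℤ := Group.rootableByIntOfRootableByNat _
  exact
    { div := fun a n => Additive.ofMul (RootableBy.root a.toMul n)
      div_zero := fun a => congrArg Additive.ofMul (RootableBy.root_zero (a.toMul))
      div_cancel := fun a hn => congrArg Additive.ofMul (RootableBy.root_cancel (a.toMul) hn) }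

theorem exists_kappa : ∃ κ : ℤ_[l]ˣ →* (PadicAlgCl l)ˣ,
    ∀ x : US l, κ x = Units.map (incl l : ℤ_[l] →* PadicAlgCl l) (sqU x) := by
  let f : US l →* (PadicAlgCl l)ˣ := (Units.map (incl l : ℤ_[l] →* PadicAlgCl l)).comp (sqHom l)
  obtain ⟨h, hh⟩ := (Module.Baer.of_divisible (Additive (PadicAlgCl l)ˣ)).extension_property_addMonoidHom
    (MonoidHom.toAdditive (US l).subtype) (by
      intro a b hab
      exact Subtype.ext hab) (MonoidHom.toAdditive f)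
  refine ⟨MonoidHom.toAdditive.symm h, fun x => ?_⟩
  have := congrArg (fun φ : Additive (US l) →+ Additive (PadicAlgCl l)ˣ => φ (Additive.ofMul x)) hh
  exact this

variable (l) in
/-- The character `κ`. -/
noncomputable def kap : ℤ_[l]ˣ →* (PadicAlgCl l)ˣ := exists_kappa.choose

theorem kap_eq (x : US l) : kap l x = Units.map (incl l : ℤ_[l] →* PadicAlgCl l) (sqU x) :=
  exists_kappa.choose_spec x

theorem kap_sq (x : US l) : (kap l x : PadicAlgCl l) ^ 2 = incl l ((x : ℤ_[l]ˣ) : ℤ_[l]) := by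
  rw [kap_eq]
  have h2 := congrArg (fun u : ℤ_[l]ˣ => (u : ℤ_[l])) (sqU_sq x)
  simp only [Units.val_pow_eq_pow_val] at h2
  rw [← h2, map_pow]
  rfl

theorem continuous_kap : Continuous (kap l) := by
  apply continuous_of_continuousAt_one
  rw [Units.isEmbedding_val₀.continuousAt_iff]
  rw [ContinuousAt, Metric.tendsto_nhds]
  intro ε hε
  have h1 : Filter.Tendsto (fun x : ℤ_[l]ˣ => ‖(x : ℤ_[l]) - 1‖) (nhds 1) (nhds 0) := by
    have : Continuous fun x : ℤ_[l]ˣ => ‖(x : ℤ_[l]) - 1‖ :=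
      (Units.continuous_val.sub continuous_const).norm
    have h := this.tendsto 1
    simpa using h
  have h2 : ∀ᶠ x : ℤ_[l]ˣ in nhds 1, ‖(x : ℤ_[l]) - 1‖ < ε * ‖(2 : ℤ_[l])‖ :=
    h1.eventually (gt_mem_nhds (mul_pos hε norm_two_pos))
  have h3 : ∀ᶠ x : ℤ_[l]ˣ in nhds 1, x ∈ US l := isOpen_US.mem_nhds (US l).one_mem
  filter_upwards [h2, h3] with x hx hxU
  have e : ((Units.val ∘ (kap l)) x : PadicAlgCl l) = incl l (sqU ⟨x, hxU⟩ : ℤ_[l]) := by
    have := kap_eq (⟨x, hxU⟩ : US l)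
    change (kap l x : PadicAlgCl l) = _
    rw [this]
    rfl
  rw [e]
  have e2 : ((Units.val ∘ (kap l)) 1 : PadicAlgCl l) = 1 := by simp
  rw [e2, dist_eq_norm]
  have e3 : incl l (sqU ⟨x, hxU⟩ : ℤ_[l]) - 1 = incl l ((sqU ⟨x, hxU⟩ : ℤ_[l]) - 1) := by
    rw [map_sub, map_one]
  rw [e3, norm_incl]
  have h4 := norm_sqU (⟨x, hxU⟩ : US l)
  rw [← h4] at hx
  exact lt_of_mul_lt_mul_right hx norm_two_pos.le

instance finiteIndex_US : (US l).FiniteIndex := by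
  have : Finite (ℤ_[l]ˣ ⧸ US l) := Subgroup.quotient_finite_of_isOpen _ isOpen_US
  exact Subgroup.finiteIndex_of_finite_quotient

variable (l) in
/-- The index of `US l`. -/
noncomputable def ix : ℕ := (US l).index

theorem ix_ne_zero : ix l ≠ 0 := Subgroup.FiniteIndex.index_ne_zero

theorem pow_ix_mem (x : ℤ_[l]ˣ) : x ^ ix l ∈ US l := Subgroup.pow_index_mem (US l) x

theorem kap_pow (x : ℤ_[l]ˣ) :
    (kap l x : PadicAlgCl l) ^ (2 * ix l) = incl l (x : ℤ_[l]) ^ ix l := by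
  have h := kap_sq (⟨x ^ ix l, pow_ix_mem x⟩ : US l)
  simp only [map_pow, Units.val_pow_eq_pow_val] at h
  rw [← h, ← pow_mul, mul_comm]

end Pool.Agent.W292.FM
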