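import Mathlib
import Pool.Agent.W292.FM.ChiF
import Pool.Agent.W292.FM.Kappa

/-!
The representation `ρ`: the inverse of the square root of the cyclotomic character. Its properties
at the places not above `l`.
-/

set_option linter.unusedSectionVars false

namespace Pool.Agent.W292.FM

open NumberField

universe u

variable {F : Type u} [Field F] [NumberField F] {l : ℕ} [hl : Fact l.Prime]

variable (l) in
/-- Scalar matrices of size one. -/
noncomputable def scal : (PadicAlgCl l)ˣ →* GL (Fin 1) (PadicAlgCl l) :=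
  Units.map (Matrix.scalar (Fin 1) : PadicAlgCl l →+* Matrix (Fin 1) (Fin 1) (PadicAlgCl l)).toMonoidHom

theorem continuous_scal : Continuous (scal l) := by
  apply Continuous.units_map
  refine continuous_matrix fun i j => ?_
  have hi := Subsingleton.elim i 0
  have hj := Subsingleton.elim j 0
  subst hi; subst hj
  simpa using continuous_id'

theorem coe_scal (c : (PadicAlgCl l)ˣ) :
    (scal l c : Matrix (Fin 1) (Fin 1) (PadicAlgCl l)) = Matrix.scalar (Fin 1) (c : PadicAlgCl l) := rfl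

theorem toLin_scal (c : (PadicAlgCl l)ˣ) :
    Matrix.toLin' (scal l c : Matrix (Fin 1) (Fin 1) (PadicAlgCl l)) =
      (c : PadicAlgCl l) • LinearMap.id := by
  ext i j
  rw [Subsingleton.elim i 0, Subsingleton.elim j 0]
  simp [coe_scal]

variable (F l) in
/-- The character `ρ` with values in the units. -/
noncomputable def psiF : GF F →* (PadicAlgCl l)ˣ := ((kap l).comp (chiF F l))⁻¹

variable (F l) in
/-- The representation `ρ`. -/
noncomputable def rho : GF F →* GL (Fin 1) (PadicAlgCl l) := (scal l).comp (psiF F l)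

theorem continuous_psiF : Continuous (psiF F l) := by
  have h : Continuous fun σ : GF F => (kap l (chiF F l σ))⁻¹ :=
    (continuous_kap.comp continuous_chiF).inv
  exact h

theorem continuous_rho : Continuous (rho F l) := continuous_scal.comp continuous_psiF

theorem rho_mulVec (σ : GF F) (x : Fin 1 → PadicAlgCl l) :
    ((rho F l σ).val : Matrix (Fin 1) (Fin 1) (PadicAlgCl l)).mulVec x =
      (psiF F l σ : PadicAlgCl l) • x := by
  have h : ((rho F l σ).val : Matrix (Fin 1) (Fin 1) (PadicAlgCl l)).mulVec x =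
    Matrix.toLin' (scal l (psiF F l σ) : Matrix (Fin 1) (Fin 1) (PadicAlgCl l)) x := rfl
  rw [h, toLin_scal]
  rfl

theorem irreducible_rho : IsIrred (rho F l) := by
  refine ⟨one_pos, fun W _ => ?_⟩
  rcases eq_or_ne W ⊥ with h | h
  · exact Or.inl h
  · right
    obtain ⟨x, hx, hx0⟩ := Submodule.exists_mem_ne_zero_of_ne_bot h
    rw [eq_top_iff]
    intro y _
    have hx1 : x 0 ≠ 0 := by
      intro h1
      apply hx0
      ext i
      rw [Subsingleton.elim i 0, h1]
      rfl
    have : y = (y 0 / x 0) • x := by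
      ext i
      rw [Subsingleton.elim i 0, Pi.smul_apply, smul_eq_mul, div_mul_cancel₀ _ hx1]
    rw [this]
    exact W.smul_mem _ hx

theorem rho_inertia {P : Ideal (𝓞 (AlgebraicClosure F))} (hP : P.IsPrime) (h0 : P ≠ ⊥)
    (hlP : (l : 𝓞 (AlgebraicClosure F)) ∉ P) {σ : GF F} (hσ : σ ∈ inert F P) :
    rho F l σ = 1 := by
  change scal l (kap l (chiF F l σ))⁻¹ = 1
  rw [chiF_inertia hP h0 hlP hσ, map_one, inv_one, map_one]

theorem finite_above : {I : Ideal (𝓞 F) | (l : 𝓞 F) ∈ I}.Finite := by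
  have h0 : (l : 𝓞 F) ≠ 0 := by exact_mod_cast hl.out.ne_zero
  have h1 : Ideal.span {(l : 𝓞 F)} ≠ 0 := by
    rw [Ne, Ideal.zero_eq_bot, Ideal.span_singleton_eq_bot]; exact h0
  have hfi : Finite {I : Ideal (𝓞 F) | I ∣ Ideal.span {(l : 𝓞 F)}} :=
    @Finite.of_fintype _ (UniqueFactorizationMonoid.fintypeSubtypeDvd _ h1)
  have h2 : {I : Ideal (𝓞 F) | I ∣ Ideal.span {(l : 𝓞 F)}}.Finite := Set.toFinite _
  refine h2.subset fun I hI => ?_
  change I ∣ Ideal.span {(l : 𝓞 F)}
  rw [Ideal.dvd_span_singleton]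
  exact hI

theorem unramified_rho : UnramifiedAE (rho F l) := by
  refine ⟨{I : Ideal (𝓞 F) | (l : 𝓞 F) ∈ I}, finite_above, ?_⟩
  intro P hP h0 hPS σ hσ
  refine rho_inertia hP h0 (fun h => hPS ?_) hσ
  change algebraMap (𝓞 F) (𝓞 (AlgebraicClosure F)) (l : 𝓞 F) ∈ P
  rwa [map_natCast]

/-- The Frobenius eigenvalue. -/
theorem psiF_frob {P : Ideal (𝓞 (AlgebraicClosure F))} (hP : P.IsPrime)
    (hlP : (l : 𝓞 (AlgebraicClosure F)) ∉ P) {Φ : GF F} (hΦ : Φ⁻¹ ∈ frobs F P) :
    (psiF F l Φ : PadicAlgCl l) ^ (2 * ix l) = ((resCard F P : ℕ) : PadicAlgCl l) ^ ix l := by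
  have h1 : psiF F l Φ = kap l (chiF F l Φ⁻¹) := by
    change (kap l (chiF F l Φ))⁻¹ = _
    rw [map_inv, map_inv]
  rw [h1, kap_pow, chiF_frob hP hlP hΦ, map_natCast]

theorem resCard_pos {P : Ideal (𝓞 (AlgebraicClosure F))} (hP : P.IsPrime) (h0 : P ≠ ⊥) :
    0 < resCard F P := by
  have hp : (P.under (𝓞 F)).IsPrime := inferInstance
  have hmax : (P.under (𝓞 F)).IsMaximal := hp.isMaximal (under_ne_bot h0)
  have hfin : Finite (𝓞 F ⧸ P.under (𝓞 F)) := inferInstance
  exact Nat.card_pos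

theorem isIntegral_of_pow_eq {β : PadicAlgCl l} {m k q : ℕ} (hm : m ≠ 0)
    (h : β ^ m = (q : PadicAlgCl l) ^ k) : IsIntegral ℤ β := by
  refine IsIntegral.of_pow (Nat.pos_of_ne_zero hm) ?_
  rw [h, ← Nat.cast_pow]
  have h2 := isIntegral_algebraMap (R := ℤ) (A := PadicAlgCl l) (x := ((q ^ k : ℕ) : ℤ))
  rwa [map_natCast] at h2

theorem isWeilNumber_of_pow_eq {β : PadicAlgCl l} {k q : ℕ} (hk : k ≠ 0)
    (h : β ^ (2 * k) = (q : PadicAlgCl l) ^ k) : IsWeilNumber q 1 β := by
  have hint : IsIntegral ℤ β := isIntegral_of_pow_eq (by positivity) h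
  refine ⟨(hint.tower_top (A := ℚ)).isAlgebraic, fun z hz => ?_⟩
  have hdvd : minpoly ℚ β ∣ Polynomial.X ^ (2 * k) - Polynomial.C ((q : ℚ) ^ k) := by
    apply minpoly.dvd
    simp [h]
  obtain ⟨c, hc⟩ := hdvd
  have h1 : Polynomial.aeval z (Polynomial.X ^ (2 * k) - Polynomial.C ((q : ℚ) ^ k)) = 0 := by
    rw [hc, map_mul, hz, zero_mul]
  have h2 : z ^ (2 * k) = (q : ℂ) ^ k := by
    simpa [sub_eq_zero] using h1
  have h3 : ‖z‖ ^ (2 * k) = (q : ℝ) ^ k := by
    have := congrArg norm h2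
    simpa using this
  rw [pow_mul] at h3
  have h4 : ‖z‖ ^ 2 = (q : ℝ) := (pow_left_inj₀ (by positivity) (by positivity) hk).1 h3
  have h5 : ‖z‖ = Real.sqrt q := by
    rw [← h4, Real.sqrt_sq (norm_nonneg _)]
  rw [h5, Real.sqrt_eq_rpow]
  norm_num

theorem isMonodromyFiltration_zero {K V : Type*} [Field K] [AddCommGroup V] [Module K V] :
    IsMonodromyFiltration (0 : Module.End K V) (fun j => if j < 0 then ⊥ else ⊤) where
  mono := by
    intro a b hab
    by_cases ha : a < 0
    · simp [ha]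
    · have hb : ¬ b < 0 := by omega
      simp [ha, hb]
  bot := ⟨-1, by simp⟩
  top := ⟨0, by simp⟩
  map := by
    intro j x _
    exact Submodule.zero_mem _
  inj := by
    intro j x hx h
    rcases Nat.eq_zero_or_pos j with rfl | hj
    · simp only [pow_zero, Module.End.one_apply] at h
      simpa using h
    · have : ¬ ((j : ℤ) - 1 < 0) := by omega
      simp [this]
  surj := by
    intro j y hy
    rcases Nat.eq_zero_or_pos j with rfl | hj
    · exact ⟨y, by simp, by simp⟩
    · have h1 : (-(j : ℤ)) < 0 := by omega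
      rw [if_pos h1, Submodule.mem_bot] at hy
      exact ⟨0, Submodule.zero_mem _, by simp [hy]⟩

theorem pureIntegral_rho : PureIntegral (rho F l) := by
  refine ⟨1, fun P hP h0 hlP => ?_⟩
  refine ⟨fun σ => (rho F l σ).val, 0, ?_, ?_, ?_⟩
  · obtain ⟨Φ, hΦ⟩ := exists_frob hP h0
    refine ⟨?_, fun a _ b _ => ?_, IsNilpotent.zero, ⟨⊤, isOpen_univ, fun σ hσ _ => ?_⟩,
      ⟨Φ⁻¹, by rw [inv_inv]; exact hΦ, fun _ => 0, continuousOn_const,
        fun _ _ _ _ => (add_zero 0).symm, Or.inl rfl, fun a σ hσ => ?_⟩⟩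
    · rw [map_one]; rfl
    · rw [map_mul]; rfl
    · rw [rho_inertia hP h0 hlP hσ]; rfl
    · rw [smul_zero, IsNilpotent.exp_zero, mul_one]
  · intro Φ hΦ α x hx h1
    rw [rho_mulVec] at h1
    have h2 : (psiF F l Φ : PadicAlgCl l) = α := smul_left_injective _ hx h1
    rw [← h2]
    exact isIntegral_of_pow_eq (mul_ne_zero two_ne_zero ix_ne_zero) (psiF_frob hP hlP hΦ)
  · refine ⟨fun j => if j < 0 then ⊥ else ⊤, ?_, ?_⟩
    · rw [Matrix.mulVecLin_zero]; exact isMonodromyFiltration_zero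
    · rintro _ ⟨Φ, hΦ, rfl⟩ j α x hx hx' h
      rw [Matrix.mulVecLin_apply] at h
      have hj : j = 0 := by
        by_contra hj
        rcases lt_or_gt_of_ne hj with h1 | h1
        · apply hx'
          have h2 : j - 1 < 0 := by omega
          simp only [if_pos h1, if_pos h2] at hx ⊢
          exact hx
        · apply hx'
          have h2 : ¬ (j - 1 < 0) := by omega
          simp only [if_neg h2]
          trivial
      subst hj
      simp only [zero_sub, Int.reduceNeg, Int.reduceLT, if_true, Submodule.mem_bot,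
        add_zero] at h hx' ⊢
      rw [sub_eq_zero, rho_mulVec] at h
      have h2 : (psiF F l Φ : PadicAlgCl l) = α := smul_left_injective _ hx' h
      rw [← h2]
      exact isWeilNumber_of_pow_eq ix_ne_zero (psiF_frob hP hlP hΦ)

end Pool.Agent.W292.FM
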