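import Mathlib
import Pool.Agent.W292.FM.Rho
import Pool.Agent.W292.FM.Core

/-!
The representation `ρ` is not de Rham at any place above `l`.
-/

set_option linter.unusedSectionVars false

namespace Pool.Agent.W292.FM

open NumberField TensorProduct

universe u

variable {F : Type u} [Field F] [NumberField F] {l : ℕ} [hl : Fact l.Prime]

variable (F) in
/-- A primitive element of `F`. -/
noncomputable def prim : F := (Field.exists_primitive_element ℚ F).choose

theorem adjoin_prim : IntermediateField.adjoin ℚ {prim F} = ⊤ :=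
  (Field.exists_primitive_element ℚ F).choose_spec

/-- Two ring homomorphisms from `F` that agree on the primitive element are equal. -/
theorem eq_of_prim {E : Type*} [Field E] (f g : F →+* E) (h : f (prim F) = g (prim F)) : f = g := by
  have : CharZero E := charZero_of_injective_ringHom f.injective
  let f' : F →ₐ[ℚ] E := f.toRatAlgHom
  let g' : F →ₐ[ℚ] E := g.toRatAlgHom
  have h1 : f' = g' := by
    have h2 : Set.EqOn f' g' {prim F} := by
      rintro _ rfl
      exact h
    apply AlgHom.ext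
    intro x
    have hx : x ∈ IntermediateField.adjoin ℚ {prim F} := by rw [adjoin_prim]; trivial
    induction hx using IntermediateField.adjoin_induction with
    | mem x hx => exact h2 hx
    | algebraMap x => rw [AlgHom.commutes, AlgHom.commutes]
    | add x y _ _ hx hy => rw [map_add, map_add, hx, hy]
    | inv x _ hx => rw [map_inv₀, map_inv₀, hx]
    | mul x y _ _ hx hy => rw [map_mul, map_mul, hx, hy]
  ext x
  exact DFunLike.congr_fun h1 x

/-- The image of the primitive element. -/
noncomputable def primImg (ι : AlgebraicClosure F →+* PadicAlgCl l) : PadicAlgCl l :=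
  ι (algebraMap F (AlgebraicClosure F) (prim F))

theorem exists_sigma (ι : AlgebraicClosure F →+* PadicAlgCl l) {g : Gal(PadicAlgCl l/ℚ_[l])}
    (hg : g (primImg ι) = primImg ι) : ∃ σ : GF F, ∀ a, ι (σ a) = g (ι a) := by
  let _ : Algebra (AlgebraicClosure F) (PadicAlgCl l) := ι.toAlgebra
  let _ : Algebra F (PadicAlgCl l) := (ι.comp (algebraMap F (AlgebraicClosure F))).toAlgebra
  have : IsScalarTower F (AlgebraicClosure F) (PadicAlgCl l) :=
    IsScalarTower.of_algebraMap_eq (fun _ => rfl)
  have h1 : ((g : PadicAlgCl l ≃+* PadicAlgCl l) : PadicAlgCl l →+* PadicAlgCl l).comp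
      (ι.comp (algebraMap F (AlgebraicClosure F))) = ι.comp (algebraMap F (AlgebraicClosure F)) :=
    eq_of_prim _ _ hg
  let g' : PadicAlgCl l ≃ₐ[F] PadicAlgCl l :=
    AlgEquiv.ofRingEquiv (f := (g : PadicAlgCl l ≃+* PadicAlgCl l)) (fun x => by
      exact congrArg (fun f : F →+* PadicAlgCl l => f x) h1)
  refine ⟨g'.restrictNormal (AlgebraicClosure F), fun a => ?_⟩
  exact AlgEquiv.restrictNormal_commutes g' (AlgebraicClosure F) a

theorem locField_eq (ι : AlgebraicClosure F →+* PadicAlgCl l) :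
    IntermediateField.adjoin ℚ_[l]
      (Set.range fun a : F => ι (algebraMap F (AlgebraicClosure F) a)) =
      IntermediateField.adjoin ℚ_[l] {primImg ι} := by
  apply le_antisymm
  · rw [IntermediateField.adjoin_le_iff]
    rintro _ ⟨a, rfl⟩
    change ι (algebraMap F (AlgebraicClosure F) a) ∈ IntermediateField.adjoin ℚ_[l] {primImg ι}
    have hx : a ∈ IntermediateField.adjoin ℚ {prim F} := by rw [adjoin_prim]; trivial
    induction hx using IntermediateField.adjoin_induction with
    | mem x hx =>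
      obtain rfl := hx
      exact IntermediateField.mem_adjoin_simple_self _ _
    | algebraMap x =>
      have : ι (algebraMap F (AlgebraicClosure F) (algebraMap ℚ F x)) =
          algebraMap ℚ_[l] (PadicAlgCl l) (x : ℚ_[l]) := by
        simp
      rw [this]
      exact IntermediateField.algebraMap_mem _ _
    | add x y _ _ hx hy => rw [map_add, map_add]; exact add_mem hx hy
    | inv x _ hx => rw [map_inv₀, map_inv₀]; exact inv_mem hx
    | mul x y _ _ hx hy => rw [map_mul, map_mul]; exact mul_mem hx hy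
  · rw [IntermediateField.adjoin_le_iff]
    rintro _ rfl
    exact IntermediateField.subset_adjoin _ _ ⟨prim F, rfl⟩

theorem locDeg_pos (ι : AlgebraicClosure F →+* PadicAlgCl l) : 0 < locDeg ι := by
  rw [locDeg, locField_eq]
  have h : IsIntegral ℚ_[l] (primImg ι) := Algebra.IsIntegral.isIntegral _
  have := IntermediateField.adjoin.finiteDimensional h
  exact Module.finrank_pos

/-- The cyclotomic character as a homomorphism. -/
noncomputable def chiHom : Gal(PadicAlgCl l/ℚ_[l]) →* ℤ_[l]ˣ := MonoidHom.mk' chiL chiL_mul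

/-- The subgroup of finite index used in the argument. -/
noncomputable def HH (ι : AlgebraicClosure F →+* PadicAlgCl l) : Subgroup (Gal(PadicAlgCl l/ℚ_[l])) :=
  MulAction.stabilizer (Gal(PadicAlgCl l/ℚ_[l])) (primImg ι) ⊓ (US l).comap chiHom

instance finiteIndex_HH (ι : AlgebraicClosure F →+* PadicAlgCl l) : (HH ι).FiniteIndex := by
  have h1 : (MulAction.stabilizer (Gal(PadicAlgCl l/ℚ_[l])) (primImg ι)).FiniteIndex :=
    finiteIndex_stabilizer _
  have h2 : ((US l).comap (chiHom (l := l))).FiniteIndex := by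
    constructor
    rw [Subgroup.index_comap]
    exact (Subgroup.instFiniteIndex_subgroupOf (US l) _).index_ne_zero
  rw [HH]
  infer_instance

open Classical in
/-- The values of the character on the subgroup, as elements of `ℚ_l`. -/
noncomputable def psq (g : Gal(PadicAlgCl l/ℚ_[l])) : ℚ_[l] :=
  if h : chiL g ∈ US l then (((sqU ⟨chiL g, h⟩)⁻¹ : ℤ_[l]ˣ) : ℤ_[l]) else 0

theorem psq_spec {g : Gal(PadicAlgCl l/ℚ_[l])} (h : chiL g ∈ US l) :
    psq g ^ (2 * 1) * chiQ g ^ 1 = 1 := by
  rw [psq, dif_pos h, mul_one, pow_one, chiQ]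
  have h1 : (sqU ⟨chiL g, h⟩)⁻¹ ^ 2 * chiL g = 1 := by
    rw [inv_pow, sqU_sq]
    exact inv_mul_cancel _
  have h2 := congrArg (fun u : ℤ_[l]ˣ => ((u : ℤ_[l]) : ℚ_[l])) h1
  simpa using h2

theorem psiF_eq_psq {σ : GF F} {g : Gal(PadicAlgCl l/ℚ_[l])} (h : chiL g ∈ US l)
    (hσ : chiF F l σ = chiL g) :
    (psiF F l σ : PadicAlgCl l) = algebraMap ℚ_[l] (PadicAlgCl l) (psq g) := by
  have h1 : psiF F l σ = (kap l (chiL g))⁻¹ := by rw [← hσ]; rfl
  have h2 : kap l (chiL g) = Units.map (incl l : ℤ_[l] →* PadicAlgCl l) (sqU ⟨chiL g, h⟩) :=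
    kap_eq ⟨chiL g, h⟩
  rw [h1, h2, ← map_inv, psq, dif_pos h]
  rfl

theorem map_eq {σ : GF F} {g : Gal(PadicAlgCl l/ℚ_[l])} {c : ℚ_[l]}
    (hc : (psiF F l σ : PadicAlgCl l) = algebraMap ℚ_[l] (PadicAlgCl l) c)
    (x : (Fin 1 → PadicAlgCl l) ⊗[ℚ_[l]] Localization (genSub 𝓞_ℂ_[l] l)) :
    TensorProduct.AlgebraTensorModule.map
      (Matrix.mulVecLin ((rho F l σ).val : Matrix (Fin 1) (Fin 1) (PadicAlgCl l)))
      (bdrAlg l (intMap l g)).toLinearMap x =
      LinearMap.lTensor (Fin 1 → PadicAlgCl l) (c • (bdrAlg l (intMap l g)).toLinearMap) x := by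
  induction x using TensorProduct.induction_on with
  | zero => rw [map_zero, map_zero]
  | tmul v y =>
    rw [TensorProduct.AlgebraTensorModule.map_tmul, LinearMap.lTensor_tmul]
    have h : Matrix.mulVecLin ((rho F l σ).val : Matrix (Fin 1) (Fin 1) (PadicAlgCl l)) v =
        c • v := by
      have h1 := rho_mulVec σ v (F := F) (l := l)
      rw [hc] at h1
      rw [← algebraMap_smul (PadicAlgCl l) c v]
      exact h1
    rw [h, LinearMap.smul_apply, TensorProduct.tmul_smul, TensorProduct.smul_tmul']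
  | add x y hx hy => rw [map_add, map_add, hx, hy]

theorem coord_lTensor {V B I : Type*} [AddCommGroup V] [Module ℚ_[l] V] [AddCommGroup B]
    [Module ℚ_[l] B] [DecidableEq I] (b : Module.Basis I ℚ_[l] V) (f : B →ₗ[ℚ_[l]] B)
    (x : V ⊗[ℚ_[l]] B) (i : I) :
    TensorProduct.equivFinsuppOfBasisLeft b (LinearMap.lTensor V f x) i =
      f (TensorProduct.equivFinsuppOfBasisLeft b x i) := by
  induction x using TensorProduct.induction_on with
  | zero => simp
  | tmul v y =>
    rw [LinearMap.lTensor_tmul, TensorProduct.equivFinsuppOfBasisLeft_apply_tmul_apply,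
      TensorProduct.equivFinsuppOfBasisLeft_apply_tmul_apply, map_smul]
  | add x y hx hy =>
    rw [map_add, map_add, map_add, Finsupp.add_apply, Finsupp.add_apply, map_add, hx, hy]

theorem fixedPart_eq_bot (ι : AlgebraicClosure F →+* PadicAlgCl l) :
    fixedPart (PeriodRel 𝓞_ℂ_[l] l (DecPair (rho F l) ι)) = ⊥ := by
  classical
  rw [eq_bot_iff]
  intro x hx
  rw [fixedPart] at hx
  simp only [Submodule.mem_iInf] at hx
  let b := Module.Basis.ofVectorSpace ℚ_[l] (Fin 1 → PadicAlgCl l)
  rw [Submodule.mem_bot, ← (TensorProduct.equivFinsuppOfBasisLeft b).map_eq_zero_iff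
    (x := x)]
  ext i
  rw [Finsupp.zero_apply]
  refine no_period (HH ι) one_ne_zero psq (fun g hg => psq_spec (Subgroup.mem_inf.1 hg).2) ?_
  intro g hg
  obtain ⟨σ, hσ⟩ := exists_sigma ι (g := g) (Subgroup.mem_inf.1 hg).1
  have h1 : chiF F l σ = chiL g := chiF_eq_chiL ι hσ
  have h2 := hx (Matrix.mulVecLin (rho F l σ).val) (bdrAlg l (intMap l g))
    ⟨_, DecPair.mk g σ hσ, rfl⟩
  rw [LinearMap.mem_eqLocus, LinearMap.id_apply,
    map_eq (psiF_eq_psq (Subgroup.mem_inf.1 hg).2 h1)] at h2
  have h3 := coord_lTensor b (psq g • (bdrAlg l (intMap l g)).toLinearMap) x i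
  rw [h2] at h3
  exact h3.symm

theorem not_deRham (ι : AlgebraicClosure F →+* PadicAlgCl l) : ¬ IsDeRhamAt (rho F l) ι := by
  intro h
  rw [IsDeRhamAt, dRDim, fixedDim, fixedPart_eq_bot, finrank_bot, one_mul] at h
  exact (locDeg_pos ι).ne h

end Pool.Agent.W292.FM
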